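import Pool.Agent.Lib.P9f173d.Defs

/-!
Vanishing of homology with coefficients in the reduced algebra gives exactness on
square-summable functionals.
-/

namespace Pool.Agent.Lib.P9f173d

open LinearMap

/-- A contraction from exactness, in a graded differential ring. -/
theorem ring_contraction {K : Type*} [Ring K] (d : K) (e : ℕ → K) (N : ℕ)
    (he : ∀ k, e k * e k = e k) (ho : ∀ k l, k ≠ l → e k * e l = 0)
    (hs : ∑ k ∈ Finset.range (N + 1), e k = 1) (hde : ∀ k, e (k + 1) * d = d * e k)
    (hde0 : e 0 * d = 0) (hdd : d * d = 0) (lift : ∀ φ, φ * d = 0 → ∃ ψ, ψ * d = φ) :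
    ∃ S, S * d + d * S = 1 := by
  have step : ∀ n : ℕ, ∃ S, ∀ j, j ≤ n → e j * (S * d + d * S) = e j := by
    intro n
    induction n with
    | zero =>
      obtain ⟨ψ, hψ⟩ := lift (e 0) hde0
      refine ⟨e 0 * ψ, ?_⟩
      intro j hj
      obtain rfl : j = 0 := by omega
      calc e 0 * (e 0 * ψ * d + d * (e 0 * ψ))
          = e 0 * e 0 * (ψ * d) + (e 0 * d) * (e 0 * ψ) := by noncomm_ring
        _ = e 0 := by rw [hψ, hde0, he, he]; simp
    | succ n ih =>
      obtain ⟨S, hS⟩ := ih
      have hn := hS n le_rfl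
      obtain ⟨ψ, hψ⟩ := lift (e (n + 1) * (1 - d * S)) (by
        have h1 : e n * S * d = e n - e n * d * S := by
          rw [mul_add] at hn
          rw [← mul_assoc, ← mul_assoc] at hn
          exact eq_sub_of_add_eq hn
        calc e (n + 1) * (1 - d * S) * d
            = e (n + 1) * d - (e (n + 1) * d) * S * d := by noncomm_ring
          _ = d * e n - d * (e n * S * d) := by rw [hde]; noncomm_ring
          _ = d * e n * d * S := by rw [h1]; noncomm_ring
          _ = e (n + 1) * (d * d) * S := by rw [← hde]; noncomm_ring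
          _ = 0 := by rw [hdd]; simp)
      refine ⟨(1 - e (n + 1)) * S + e (n + 1) * ψ, ?_⟩
      have hlow : ∀ j, j ≤ n → e j * ((1 - e (n + 1)) * S + e (n + 1) * ψ) = e j * S := by
        intro j hj
        calc e j * ((1 - e (n + 1)) * S + e (n + 1) * ψ)
            = e j * S - (e j * e (n + 1)) * S + (e j * e (n + 1)) * ψ := by noncomm_ring
          _ = e j * S := by rw [ho j (n + 1) (by omega)]; simp
      have hd : ∀ j, j ≤ n + 1 → e j * (d * ((1 - e (n + 1)) * S + e (n + 1) * ψ)) =
          e j * (d * S) := by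
        intro j hj
        rcases j with _ | i
        · rw [← mul_assoc, ← mul_assoc, hde0]; simp
        · rw [← mul_assoc, ← mul_assoc, hde, mul_assoc, hlow i (by omega), mul_assoc]
      intro j hj
      rcases Nat.lt_or_ge j (n + 1) with hlt | hge
      · rw [mul_add, ← mul_assoc, hlow j (by omega), hd j hj, mul_assoc, ← mul_add]
        exact hS j (by omega)
      · obtain rfl : j = n + 1 := by omega
        rw [mul_add, hd (n + 1) hj]
        have h2 : e (n + 1) * (((1 - e (n + 1)) * S + e (n + 1) * ψ) * d) =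
            e (n + 1) * (1 - d * S) := by
          calc e (n + 1) * (((1 - e (n + 1)) * S + e (n + 1) * ψ) * d)
              = (e (n + 1) - e (n + 1) * e (n + 1)) * S * d +
                e (n + 1) * e (n + 1) * (ψ * d) := by noncomm_ring
            _ = e (n + 1) * e (n + 1) * (1 - d * S) := by rw [he, hψ]; simp [← mul_assoc, he]
            _ = e (n + 1) * (1 - d * S) := by rw [he]
        rw [h2]
        noncomm_ring
  obtain ⟨S, hS⟩ := step N
  refine ⟨S, ?_⟩
  calc S * d + d * S = (∑ k ∈ Finset.range (N + 1), e k) * (S * d + d * S) := by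
        rw [hs, one_mul]
    _ = ∑ k ∈ Finset.range (N + 1), e k := by
        rw [Finset.sum_mul]
        apply Finset.sum_congr rfl
        intro k hk
        exact hS k (by rw [Finset.mem_range] at hk; omega)
    _ = 1 := hs

section BOp

variable {Γ : Type*} [Group Γ] {H : Type*} [NormedAddCommGroup H] [InnerProductSpace ℂ H]
  [CompleteSpace H]

/-- The regular representation in coordinates. -/
theorem reg_repr {b : HilbertBasis Γ ℂ H} {ρ : Γ →* (H →L[ℂ] H)}
    (hρ : ∀ g h, ρ g (b h) = b (g * h)) (g : Γ) (v : H) (x : Γ) :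
    b.repr (ρ g v) x = b.repr v (g⁻¹ * x) := by
  classical
  -- both sides are continuous in `v`
  let T1 : H →L[ℂ] L2 Γ := (b.repr.toContinuousLinearEquiv : H →L[ℂ] L2 Γ) ∘L ρ g
  let T2 : H →L[ℂ] L2 Γ := opP (Equiv.mulLeft g⁻¹).toPEquiv ∘L
    (b.repr.toContinuousLinearEquiv : H →L[ℂ] L2 Γ)
  have hT : T1 = T2 := by
    apply ContinuousLinearMap.ext_on (s := Set.range b)
      (Submodule.dense_iff_topologicalClosure_eq_top.mpr b.dense_span)
    rintro _ ⟨h, rfl⟩
    show b.repr (ρ g (b h)) = opP (Equiv.mulLeft g⁻¹).toPEquiv (b.repr (b h))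
    rw [hρ, b.repr_self, b.repr_self]
    ext y
    rw [opP_apply]
    simp only [Equiv.toPEquiv_apply, Equiv.coe_mulLeft, Option.elim_some]
    rw [lp.single_apply, lp.single_apply]
    by_cases hy : y = g * h
    · subst hy
      simp
    · have : g⁻¹ * y ≠ h := by
        rintro rfl
        apply hy
        simp
      simp [hy, this]
  have h1 := congrArg (fun T : H →L[ℂ] L2 Γ => (T v) x) hT
  have h2 : b.repr (ρ g v) x = opP (Equiv.mulLeft g⁻¹).toPEquiv (b.repr v) x := h1
  rw [h2, opP_apply]
  simp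

theorem algRep_apply {b : HilbertBasis Γ ℂ H} {ρ : Γ →* (H →L[ℂ] H)}
    (hρ : ∀ g h, ρ g (b h) = b (g * h)) (a : MonoidAlgebra ℂ Γ) (v : H) (x : Γ) :
    b.repr (MonoidAlgebra.lift ℂ (H →L[ℂ] H) Γ ρ a v) x =
      ∑ h ∈ a.coeff.support, a.coeff h * b.repr v (h⁻¹ * x) := by
  rw [MonoidAlgebra.lift_apply, Finsupp.sum, _root_.sum_apply, map_sum]
  simp only [lp.coeFn_sum, Finset.sum_apply]
  apply Finset.sum_congr rfl
  intro h _
  rw [_root_.smul_apply, map_smul, lp.coeFn_smul, Pi.smul_apply, smul_eq_mul, reg_repr hρ]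

end BOp

/-- A criterion for square-summability. -/
theorem HH_of_basis {Γ Y : Type*} [Group Γ] (a : Γ →* Equiv.Perm Y) (u : (Y →₀ ℂ) →ₗ[ℂ] ℂ)
    (h : ∀ y, Summable fun γ => ‖u (Finsupp.single (a γ y) 1)‖ ^ 2) : HH (prep a) u := by
  intro m
  induction m using Finsupp.induction_linear with
  | zero => simp [summable_zero]
  | add f g hf hg =>
    refine Summable.of_nonneg_of_le (fun γ => by positivity) ?_ ((hf.mul_left 2).add (hg.mul_left 2))
    intro γ
    rw [map_add, map_add]
    have h2 := norm_add_le (u (prep a γ f)) (u (prep a γ g))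
    have h3 : ‖u (prep a γ f) + u (prep a γ g)‖ ^ 2 ≤
        (‖u (prep a γ f)‖ + ‖u (prep a γ g)‖) ^ 2 :=
      pow_le_pow_left₀ (norm_nonneg _) h2 2
    nlinarith [sq_nonneg (‖u (prep a γ f)‖ - ‖u (prep a γ g)‖)]
  | single y c =>
    have := (h y).mul_left (‖c‖ ^ 2)
    refine this.congr ?_
    intro γ
    rw [prep_single]
    have e : (Finsupp.single (a γ y) c : Y →₀ ℂ) = c • Finsupp.single (a γ y) 1 := by simp
    rw [e, map_smul, smul_eq_mul, norm_mul, mul_pow]

theorem mbd_single {X ι : Type*} [Group X] [Fintype ι] (m : ι → ι → MonoidAlgebra ℂ X)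
    (x : X) (c : ι) (r : ℂ) : mbd m (Finsupp.single (x, c) r) =
      ∑ c', ∑ h ∈ (m c c').coeff.support, (r * (m c c').coeff h) • Finsupp.single (x * h, c') 1 := by
  classical
  ext ⟨y, c'⟩
  rw [mbd_single_apply, Finsupp.finsetSum_apply]
  rw [Finset.sum_eq_single c']
  · rw [Finsupp.finsetSum_apply]
    simp only [Finsupp.smul_apply, smul_eq_mul]
    by_cases h : x⁻¹ * y ∈ (m c c').coeff.support
    · rw [Finset.sum_eq_single (x⁻¹ * y)]
      · simp
      · intro g _ hg
        rw [Finsupp.single_eq_of_ne, mul_zero]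
        intro h2
        apply hg
        have := (Prod.mk.inj h2).1
        rw [this]; group
      · intro h'; exact absurd h h'
    · rw [Finsupp.notMem_support_iff.mp h, mul_zero]
      symm
      apply Finset.sum_eq_zero
      intro g hg
      rw [Finsupp.single_eq_of_ne, mul_zero]
      intro h2
      apply h
      have := (Prod.mk.inj h2).1
      rw [this]
      simpa using hg
  · intro c'' _ hne
    rw [Finsupp.finsetSum_apply]
    apply Finset.sum_eq_zero
    intro g _
    rw [Finsupp.smul_apply, Finsupp.single_eq_of_ne, smul_zero]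
    intro h2
    exact hne (Prod.mk.inj h2).2.symm
  · simp

namespace FreeRes

variable {Γ : Type*} [Group Γ] (R : FreeRes Γ)

/-- The complex boundary matrix. -/
noncomputable def bdC (c c' : R.cell) : MonoidAlgebra ℂ Γ :=
  MonoidAlgebra.mapRingHom Γ (Int.castRingHom ℂ) (R.bd c c')

theorem bdC_dim (c c' : R.cell) (h : R.bdC c c' ≠ 0) : R.dim c = R.dim c' + 1 := by
  apply R.bd_dim
  rintro h0
  apply h
  rw [bdC, h0, map_zero]

theorem bdC_bdC (c c'' : R.cell) : ∑ c', R.bdC c c' * R.bdC c' c'' = 0 := by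
  have := congrArg (MonoidAlgebra.mapRingHom Γ (Int.castRingHom ℂ)) (R.bd_bd c c'')
  rw [map_sum, map_zero] at this
  simp only [map_mul] at this
  exact this

theorem eps_map (x : MonoidAlgebra ℤ Γ) :
    eps (MonoidAlgebra.mapRingHom Γ (Int.castRingHom ℂ) x) = ((eps x : ℤ) : ℂ) := by
  induction x using MonoidAlgebra.induction_linear with
  | zero => simp
  | add a b ha hb => rw [map_add, map_add, ha, hb, map_add]; push_cast; rfl
  | single g r => rw [MonoidAlgebra.mapRingHom_single, eps_single, eps_single]; simp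

theorem aug_bdC (c : R.cell) : ∑ c', eps (R.bdC c c') * (R.aug c' : ℂ) = 0 := by
  have := congrArg (fun n : ℤ => (n : ℂ)) (R.aug_bd c)
  push_cast at this
  rw [← this]
  apply Finset.sum_congr rfl
  intro c' _
  rw [bdC, eps_map]

/-- A bound for the dimensions. -/
noncomputable def top : ℕ := Finset.univ.sup R.dim

theorem dim_le (c : R.cell) : R.dim c ≤ R.top := Finset.le_sup (Finset.mem_univ c)

/-- The complex of permutation modules attached to a resolution, restricted along a
homomorphism. -/
noncomputable def toCx {Δ : Type*} [Group Δ] (β : Δ →* Γ) : Cx Δ where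
  V := Γ × R.cell →₀ ℂ
  ρ := rrep (prep (lact Γ R.cell)) β
  d := mbd R.bdC
  e := gpr R.dim
  ε := augm (fun c => (R.aug c : ℂ))
  bd := R.top
  e_idem := by
    intro k v
    ext p
    rw [gpr_apply, gpr_apply]
    split_ifs <;> rfl
  e_orth := by
    intro k l v hkl
    ext p
    rw [gpr_apply, gpr_apply]
    split_ifs with h1 h2
    · exact absurd (h1.symm.trans h2) hkl
    · rfl
    · rfl
  e_sum := by
    intro v
    ext p
    rw [Finsupp.finsetSum_apply]
    simp only [gpr_apply]
    rw [Finset.sum_ite_eq]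
    rw [if_pos]
    rw [Finset.mem_range]
    have := R.dim_le p.2
    omega
  d_e := fun k v => mbd_gpr (fun c c' h => R.bdC_dim c c' h) k v
  d_e0 := fun v => mbd_gpr0 (fun c c' h => R.bdC_dim c c' h) v
  d_d := fun v => mbd_mbd R.bdC_bdC v
  ε_d := fun v => augm_mbd R.aug_bdC v
  ε_e := by
    intro k v hk
    induction v using Finsupp.induction_linear with
    | zero => simp
    | add f g hf hg => rw [map_add, map_add, hf, hg, add_zero]
    | single p r =>
      obtain ⟨x, c⟩ := p
      by_cases hc : R.dim c = k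
      · have : gpr R.dim k (Finsupp.single (x, c) r) = Finsupp.single (x, c) r := by
          show Finsupp.filter _ _ = _
          rw [Finsupp.filter_single_of_pos]
          exact hc
        rw [this, augm_single]
        have h0 : R.aug c = 0 := by
          by_contra h1
          have := R.aug_dim c h1
          omega
        rw [h0]
        simp
      · have : gpr R.dim k (Finsupp.single (x, c) r) = 0 := by
          show Finsupp.filter _ _ = _
          rw [Finsupp.filter_single_of_neg]
          exact hc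
        rw [this, map_zero]
  ρ_d := fun γ v => mbd_eqv R.bdC (β γ) v
  ρ_e := fun k γ v => gpr_eqv R.dim k (β γ) v
  ρ_ε := fun γ v => augm_eqv _ (β γ) v

theorem toCx_exact {Δ : Type*} [Group Δ] (β : Δ →* Γ) : (R.toCx β).Exact := by
  refine ⟨?_, ?_⟩
  · intro v h1 h2
    exact exact_complex R.exact v h1 h2
  · obtain ⟨x, hx⟩ := R.aug_surj
    have hw : augm (fun c => (R.aug c : ℂ))
        (∑ c, Finsupp.single ((1 : Γ), c) (x c : ℂ) : Γ × R.cell →₀ ℂ) = 1 := by
      rw [map_sum]
      simp only [augm_single]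
      exact_mod_cast hx
    exact ⟨_, hw⟩

theorem toCx_proj {Δ : Type*} [Group Δ] (β : Δ →* Γ) (hβ : Function.Injective β) :
    Proj (R.toCx β).ρ := by
  have := proj_prep ((lact Γ R.cell).comp β) (by
    rintro γ ⟨x, c⟩ h
    have h1 : (β γ * x, c) = (x, c) := h
    have h2 : β γ * x = x := (Prod.mk.inj h1).1
    have h3 : β γ = 1 := by simpa using h2
    exact hβ (by rw [h3, map_one]))
  exact this

open Classical in
/-- Vanishing homology gives a contraction. -/
theorem exists_contraction {A : Type*} [NormedRing A] [NormedAlgebra ℂ A] (ρ : Γ →* A)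
    (h : ∀ i, Subsingleton (R.HRed ρ i)) :
    ∃ S : R.cell → R.cell → CRed ρ, ∀ c c'', ∑ c', S c c' * toCRed ρ (R.bd c' c'') +
      ∑ c', toCRed ρ (R.bd c c') * S c' c'' = if c = c'' then 1 else 0 := by
  have h1 : ∀ i, ∀ x ∈ R.cyRed ρ i, x ∈ R.boRed ρ i := by
    intro i x hx
    have := h i
    have h2 : (Submodule.Quotient.mk (⟨x, hx⟩ : R.cyRed ρ i) : R.HRed ρ i) = 0 :=
      Subsingleton.elim _ _
    rw [Submodule.Quotient.mk_eq_zero] at h2
    exact h2
  -- total exactness
  have comp : ∀ (x : R.cell → CRed ρ) (i : ℕ) (c' : R.cell),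
      R.bdRed ρ (fun c => if R.dim c = i then x c else 0) c' =
        if i = R.dim c' + 1 then R.bdRed ρ x c' else 0 := by
    intro x i c'
    rw [bdRed_apply, bdRed_apply]
    by_cases hi : i = R.dim c' + 1
    · rw [if_pos hi]
      apply Finset.sum_congr rfl
      intro c _
      by_cases hc : R.bd c c' = 0
      · rw [hc, map_zero, mul_zero, mul_zero]
      · rw [if_pos]
        rw [R.bd_dim c c' hc, hi]
    · rw [if_neg hi]
      apply Finset.sum_eq_zero
      intro c _
      by_cases hc : R.bd c c' = 0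
      · rw [hc, map_zero, mul_zero]
      · rw [if_neg, zero_mul]
        intro h3
        apply hi
        rw [← h3, R.bd_dim c c' hc]
  have tot : ∀ x : R.cell → CRed ρ, R.bdRed ρ x = 0 → ∃ y, R.bdRed ρ y = x := by
    intro x hx
    have h2 : ∀ i : ℕ, ∃ y, R.bdRed ρ y = fun c => if R.dim c = i then x c else 0 := by
      intro i
      have h3 : (fun c => if R.dim c = i then x c else 0) ∈ R.cyRed ρ i := by
        refine ⟨?_, ?_⟩
        · intro c hc
          simp only [if_neg hc]
        · rw [SetLike.mem_coe, LinearMap.mem_ker]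
          funext c'
          rw [comp, hx]
          simp
      obtain ⟨y, _, hy⟩ := h1 i _ h3
      exact ⟨y, hy⟩
    choose y hy using h2
    refine ⟨∑ i ∈ Finset.range (R.top + 1), y i, ?_⟩
    rw [map_sum]
    simp_rw [hy]
    funext c
    rw [Finset.sum_apply, Finset.sum_ite_eq, if_pos]
    rw [Finset.mem_range]
    have := R.dim_le c
    omega
  -- the matrix ring
  let d : Matrix R.cell R.cell (CRed ρ) := fun c c' => toCRed ρ (R.bd c c')
  let e : ℕ → Matrix R.cell R.cell (CRed ρ) := fun k =>
    Matrix.diagonal (fun c => if R.dim c = k then 1 else 0)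
  have hdd : d * d = 0 := by
    ext1 c c''
    rw [Matrix.mul_apply]
    simp only [d, ← map_mul, ← map_sum, R.bd_bd, map_zero, Matrix.zero_apply]
  obtain ⟨S, hS⟩ := ring_contraction d e R.top
    (by
      intro k
      simp only [e, Matrix.diagonal_mul_diagonal]
      congr 1
      funext c
      split_ifs <;> simp)
    (by
      intro k l hkl
      simp only [e, Matrix.diagonal_mul_diagonal]
      rw [← Matrix.diagonal_zero]
      congr 1
      funext c
      split_ifs with h1 h2
      · exact absurd (h1.symm.trans h2) hkl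
      · simp
      · simp
      · simp)
    (by
      ext1 c c'
      rw [Matrix.sum_apply]
      simp only [e, Matrix.diagonal_apply, Matrix.one_apply]
      by_cases hc : c = c'
      · simp only [if_pos hc]
        rw [Finset.sum_ite_eq, if_pos]
        rw [Finset.mem_range]
        have := R.dim_le c
        omega
      · simp only [if_neg hc]
        simp)
    (by
      intro k
      ext1 c c'
      simp only [e, Matrix.diagonal_mul, Matrix.mul_diagonal, d]
      by_cases hc : R.bd c c' = 0
      · rw [hc, map_zero, mul_zero, zero_mul]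
      · have := R.bd_dim c c' hc
        by_cases hk : R.dim c' = k
        · rw [if_pos hk, if_pos (by omega), one_mul, mul_one]
        · rw [if_neg hk, if_neg (by omega), zero_mul, mul_zero])
    (by
      ext1 c c'
      simp only [e, Matrix.diagonal_mul, d, Matrix.zero_apply]
      by_cases hc : R.bd c c' = 0
      · rw [hc, map_zero, mul_zero]
      · have := R.bd_dim c c' hc
        rw [if_neg (by omega), zero_mul])
    hdd
    (by
      intro φ hφ
      have h2 : ∀ c, ∃ y : R.cell → CRed ρ, R.bdRed ρ y = φ c := by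
        intro c
        apply tot
        funext c'
        rw [bdRed_apply]
        have := congrFun (congrFun hφ c) c'
        rw [Matrix.mul_apply] at this
        exact this
      choose ψ hψ using h2
      refine ⟨ψ, ?_⟩
      ext1 c c'
      rw [Matrix.mul_apply]
      exact congrFun (hψ c) c')
  refine ⟨S, ?_⟩
  intro c c''
  have := congrFun (congrFun hS c) c''
  rw [Matrix.add_apply, Matrix.mul_apply, Matrix.mul_apply, Matrix.one_apply] at this
  exact this

theorem summable_L2 {J : Type*} (f : L2 J) : Summable fun j => ‖f j‖ ^ 2 := by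
  have := (lp.memℓp f).summable (by norm_num)
  simpa using this

theorem memL2_of {J : Type*} {f : J → ℂ} (h : Summable fun j => ‖f j‖ ^ 2) : Memℓp f 2 := by
  apply memℓp_gen
  simpa using h

section hilb

variable {H : Type*} [NormedAddCommGroup H] [InnerProductSpace ℂ H] [CompleteSpace H]
  {b : HilbertBasis Γ ℂ H} {ρ : Γ →* (H →L[ℂ] H)}

theorem coe_toCRed (a : MonoidAlgebra ℤ Γ) : ((toCRed ρ a : CRed ρ) : H →L[ℂ] H) =
    MonoidAlgebra.lift ℂ (H →L[ℂ] H) Γ ρ
      (MonoidAlgebra.mapRingHom Γ (Int.castRingHom ℂ) a) := rfl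

theorem hhExact_aux (hρ : ∀ g h, ρ g (b h) = b (g * h)) (h : ∀ i, Subsingleton (R.HRed ρ i))
    (u : (Γ × R.cell →₀ ℂ) →ₗ[ℂ] ℂ)
    (hu : HH (prep (lact Γ R.cell)) u) (hud : ∀ v : Γ × R.cell →₀ ℂ, u (mbd R.bdC v) = 0) :
    ∃ w : (Γ × R.cell →₀ ℂ) →ₗ[ℂ] ℂ, HH (prep (lact Γ R.cell)) w ∧
      ∀ v : Γ × R.cell →₀ ℂ, u v = w (mbd R.bdC v) := by
  classical
  obtain ⟨S, hS⟩ := R.exists_contraction ρ h
  have hs : ∀ c, Summable fun g : Γ => ‖u (Finsupp.single (g⁻¹, c) 1)‖ ^ 2 := by
    intro c
    have h1 := (hu (Finsupp.single ((1 : Γ), c) 1)).comp_injective (inv_injective (G := Γ))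
    refine h1.congr ?_
    intro g
    simp only [Function.comp_apply]
    rw [prep_single, lact_apply, mul_one]
  let y0 : R.cell → L2 Γ := fun c =>
    ⟨fun g => u (Finsupp.single (g⁻¹, c) 1), memL2_of (hs c)⟩
  let y : R.cell → H := fun c => b.repr.symm (y0 c)
  have hy : ∀ c g, b.repr (y c) g = u (Finsupp.single (g⁻¹, c) 1) := by
    intro c g
    show b.repr (b.repr.symm (y0 c)) g = _
    rw [LinearIsometryEquiv.apply_symm_apply]
  have hb : ∀ (m : R.cell → H) (c : R.cell) (x : Γ),
      b.repr (∑ c', ((toCRed ρ (R.bd c c') : CRed ρ) : H →L[ℂ] H) (m c')) x =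
        ∑ c', ∑ g ∈ (R.bdC c c').coeff.support,
          (R.bdC c c').coeff g * b.repr (m c') (g⁻¹ * x) := by
    intro m c x
    rw [map_sum, lp.coeFn_sum, Finset.sum_apply]
    apply Finset.sum_congr rfl
    intro c' _
    rw [coe_toCRed, algRep_apply hρ]
    rfl
  have hDy : ∀ c, ∑ c', ((toCRed ρ (R.bd c c') : CRed ρ) : H →L[ℂ] H) (y c') = 0 := by
    intro c
    apply b.repr.injective
    ext x
    rw [hb, map_zero, lp.coeFn_zero, Pi.zero_apply]
    have h1 := hud (Finsupp.single (x⁻¹, c) 1)
    rw [mbd_single, map_sum] at h1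
    rw [← h1]
    apply Finset.sum_congr rfl
    intro c' _
    rw [map_sum]
    apply Finset.sum_congr rfl
    intro g _
    rw [map_smul, smul_eq_mul, hy, one_mul, mul_inv_rev, inv_inv]
  let z : R.cell → H := fun c => ∑ c', (S c c' : H →L[ℂ] H) (y c')
  have hz : ∀ c, z c = ∑ c', (S c c' : H →L[ℂ] H) (y c') := fun c => rfl
  clear_value z
  have hDz : ∀ c, ∑ c', ((toCRed ρ (R.bd c c') : CRed ρ) : H →L[ℂ] H) (z c') = y c := by
    intro c
    have e1 : ∀ c'', ((∑ c', S c c' * toCRed ρ (R.bd c' c'') : CRed ρ) : H →L[ℂ] H) (y c'') +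
        ((∑ c', toCRed ρ (R.bd c c') * S c' c'' : CRed ρ) : H →L[ℂ] H) (y c'') =
        if c = c'' then y c'' else 0 := by
      intro c''
      have h1 := congrArg (fun T : CRed ρ => (T : H →L[ℂ] H) (y c'')) (hS c c'')
      simp only [AddMemClass.coe_add, _root_.add_apply] at h1
      rw [h1]
      split_ifs
      · rfl
      · rfl
    have e2 := Finset.sum_congr rfl (fun c'' (_ : c'' ∈ Finset.univ) => e1 c'')
    rw [Finset.sum_add_distrib, Finset.sum_ite_eq, if_pos (Finset.mem_univ c)] at e2
    have e3 : ∑ c'', ((∑ c', S c c' * toCRed ρ (R.bd c' c'') : CRed ρ) : H →L[ℂ] H) (y c'') =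
        0 := by
      have : ∀ c'', ((∑ c', S c c' * toCRed ρ (R.bd c' c'') : CRed ρ) : H →L[ℂ] H) (y c'') =
          ∑ c', (S c c' : H →L[ℂ] H)
            (((toCRed ρ (R.bd c' c'') : CRed ρ) : H →L[ℂ] H) (y c'')) := by
        intro c''
        rw [AddSubmonoidClass.coe_finsetSum, _root_.sum_apply]
        rfl
      simp_rw [this]
      rw [Finset.sum_comm]
      apply Finset.sum_eq_zero
      intro c' _
      rw [← map_sum, hDy, map_zero]
    have e4 : ∑ c'', ((∑ c', toCRed ρ (R.bd c c') * S c' c'' : CRed ρ) : H →L[ℂ] H) (y c'') =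
        ∑ c', ((toCRed ρ (R.bd c c') : CRed ρ) : H →L[ℂ] H) (z c') := by
      have : ∀ c'', ((∑ c', toCRed ρ (R.bd c c') * S c' c'' : CRed ρ) : H →L[ℂ] H) (y c'') =
          ∑ c', ((toCRed ρ (R.bd c c') : CRed ρ) : H →L[ℂ] H)
            ((S c' c'' : H →L[ℂ] H) (y c'')) := by
        intro c''
        rw [AddSubmonoidClass.coe_finsetSum, _root_.sum_apply]
        rfl
      simp_rw [this]
      rw [Finset.sum_comm]
      apply Finset.sum_congr rfl
      intro c' _
      rw [← map_sum, hz]
    rw [e3, e4, zero_add] at e2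
    exact e2
  let w : (Γ × R.cell →₀ ℂ) →ₗ[ℂ] ℂ :=
    Finsupp.linearCombination ℂ (fun p : Γ × R.cell => b.repr (z p.2) p.1⁻¹)
  have hw : ∀ x c, w (Finsupp.single (x, c) 1) = b.repr (z c) x⁻¹ := by
    intro x c
    simp [w]
  refine ⟨w, ?_, ?_⟩
  · apply HH_of_basis
    rintro ⟨x, c⟩
    simp only [lact_apply, hw]
    have h1 : Function.Injective (fun g : Γ => (g * x)⁻¹) := by
      intro a b hab
      simpa using hab
    exact (summable_L2 (b.repr (z c))).comp_injective h1
  · have key : u = w ∘ₗ mbd R.bdC := by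
      apply Finsupp.lhom_ext'
      rintro ⟨x, c⟩
      ext
      simp only [coe_comp, Function.comp_apply, Finsupp.lsingle_apply]
      rw [mbd_single, map_sum]
      have h1 := congrArg (fun f : H => b.repr f x⁻¹) (hDz c)
      simp only [hb, hy, inv_inv] at h1
      rw [← h1]
      apply Finset.sum_congr rfl
      intro c' _
      rw [map_sum]
      apply Finset.sum_congr rfl
      intro g _
      rw [map_smul, hw, smul_eq_mul, one_mul, mul_inv_rev]
    intro v
    exact congrArg (fun T => T v) key

theorem hhExact_id (hρ : ∀ g h, ρ g (b h) = b (g * h)) (h : ∀ i, Subsingleton (R.HRed ρ i)) :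
    HHExact (R.toCx (MonoidHom.id Γ)) :=
  fun u hu hud => R.hhExact_aux hρ h u hu hud

theorem hhExact_restrict (hρ : ∀ g h, ρ g (b h) = b (g * h))
    (h : ∀ i, Subsingleton (R.HRed ρ i)) {Δ : Type*} [Group Δ]
    (β : Δ →* Γ) (hβ : Function.Injective β) [β.range.FiniteIndex] : HHExact (R.toCx β) := by
  intro u hu hud
  have h1 : HH (prep (lact Γ R.cell)) u := HH.extend (α := β) hβ hu
  obtain ⟨w, hw1, hw2⟩ := R.hhExact_id hρ h u h1 hud
  refine ⟨w, ?_, hw2⟩
  have hw1' : HH (prep (lact Γ R.cell)) w := hw1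
  exact HH.restrict (α := β) hβ hw1'

end hilb

end FreeRes

end Pool.Agent.Lib.P9f173d
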