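import Pool.Agent.Lib.P9f173d.Ext

/-!
The main theorem.
-/

namespace Pool.Agent.Lib.P9f173d

open CoxeterSystem

theorem length_of_top_singleton {B W : Type*} [Group W] {M : CoxeterMatrix B}
    {cs : CoxeterSystem M W} (l : Lst cs) {b : B} (h : topL l = {b}) : l.1.length = 1 := by
  obtain ⟨l, h2, h3⟩ := l
  rcases l with _ | ⟨T, l⟩
  · exact absurd rfl h3
  · rcases l with _ | ⟨S, l⟩
    · rfl
    · exfalso
      have h4 : T = {b} := h
      have h5 : S ⊂ T := (List.pairwise_cons.mp h2.1).1 S (by simp)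
      have h6 : S.Nonempty := (h2.2 S (by simp)).1
      rw [h4] at h5
      have h7 : S = {b} := h6.subset_singleton_iff.mp h5.1
      exact h5.ne h7

theorem main_theorem {B W G : Type*} [Group W] [Group G] [MulAction G B] [Nonempty B]
    {M : CoxeterMatrix B} (cs : CoxeterSystem M W) (φ : G →* MulAut W)
    (hφ : ∀ g b, φ g (cs.simple b) = cs.simple (g • b)) (F : FreeRes G)
    (hfree : ∀ T, Sph cs T → ∀ g : G, imT g T = T → g = 1)
    (hfin : ∃ P : Set (Set B), P.Finite ∧ ∀ T, Sph cs T → ∃ g : G, imT g T ∈ P)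
    {Γ Δ : Type*} [Group Γ] [Group Δ] (R : FreeRes Γ)
    (α : Δ →* W ⋊[φ] G) (hα : Function.Injective α) (hα' : α.range.FiniteIndex)
    (β : Δ →* Γ) (hβ : Function.Injective β) (hβ' : β.range.FiniteIndex)
    {H : Type*} [NormedAddCommGroup H] [InnerProductSpace ℂ H] [CompleteSpace H]
    (b : HilbertBasis Γ ℂ H) (ρ : Γ →* (H →L[ℂ] H)) (hρ : ∀ g h, ρ g (b h) = b (g * h)) :
    ∃ i, Nontrivial (R.HRed ρ i) := by
  classical
  have hQ : Finite (OQ hφ) := finite_OQ hφ hfin
  have : Fintype (OQ hφ) := Fintype.ofFinite _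
  obtain ⟨ψ⟩ := exists_conn hφ hfree F
  have h1 : ∀ (c : NI hφ F) (b : B), (mkH hφ F).T c = {b} → (mkE hφ hfree F ψ).deg c = 1 := by
    rintro (c | q) b h
    · rw [mkH_T_inl] at h
      exact absurd h.symm (Set.singleton_ne_empty b)
    · rw [mkH_T_inr] at h
      exact length_of_top_singleton _ h
  have h2 : ∃ (c : NI hφ F) (b : B), (mkH hφ F).T c = {b} := by
    obtain ⟨b⟩ := ‹Nonempty B›
    have hfinb : Finite (WT cs ({b} : Set B)) := by
      have hmem : ∀ a ∈ WT cs ({b} : Set B), a = 1 ∨ a = cs.simple b := by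
        refine WT_induction_right cs (p := fun a => a = 1 ∨ a = cs.simple b) (Or.inl rfl) ?_
        intro v hv b' hb' hl ih
        rw [Set.mem_singleton_iff] at hb'
        subst hb'
        rcases ih with rfl | rfl
        · right; simp
        · left; simp
      have : ((WT cs ({b} : Set B) : Set W)).Finite := by
        apply (Set.toFinite ({1, cs.simple b} : Set W)).subset
        intro a ha
        exact hmem a ha
      exact this
    have hS : Sph cs {b} := ⟨Set.singleton_nonempty b, hfinb⟩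
    have hSg : GoodL cs [{b}] ∧ ([{b}] : List (Set B)) ≠ [] :=
      ⟨⟨by simp, by simpa using hS⟩, by simp⟩
    obtain ⟨g, q, hq⟩ := exists_rep_L hφ (⟨[{b}], hSg⟩ : Lst cs)
    refine ⟨Sum.inr q, g⁻¹ • b, ?_⟩
    rw [mkH_T_inr]
    have h3 : topL (aL hφ g q.out) = {b} := by
      rw [hq]
      rfl
    rw [topL_act] at h3
    have h4 := congrArg (imT g⁻¹) h3
    rw [imT_inv_imT] at h4
    rw [h4]
    simp [imT]
  let α' : Δ →* (mkH hφ F).X := α
  have : α'.range.FiniteIndex := hα'
  exact main_data (mkE hφ hfree F ψ) (fun _ => rfl) (mkA hφ hfree F ψ) h1 h2 R α' hα β hβ b ρ hρ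

end Pool.Agent.Lib.P9f173d
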