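import Pool.Agent.Lib.P9f173d.Stmt
import Pool.Agent.Lib.P9f173d.Final

/-!
Comparison of the definitions used in the statements with the ones used in the proof.
-/

namespace Pool.Agent.Lib.P9f173d

/-- Conversion. -/
def FinRes.toFreeRes {Γ : Type*} [Group Γ] (R : FinRes Γ) : FreeRes Γ where
  cell := R.cell
  fin := R.fin
  dim := R.dim
  bd := R.bd
  aug := R.aug
  bd_dim := R.bd_dim
  aug_dim := R.aug_dim
  bd_bd := R.bd_bd
  aug_bd := R.aug_bd
  aug_surj := R.aug_surj
  exact := R.exact

section

variable {Γ : Type*} [Group Γ] {A : Type*} [NormedRing A] [NormedAlgebra ℂ A]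

theorem coe_toCRed' (lam : Γ →* A) (a : MonoidAlgebra ℤ Γ) :
    ((toCRed lam a : CRed lam) : A) = MonoidAlgebra.lift ℤ A Γ lam a := by
  have e : ((toCRed lam a : CRed lam) : A) = MonoidAlgebra.lift ℂ A Γ lam
      (MonoidAlgebra.mapRingHom Γ (Int.castRingHom ℂ) a) := rfl
  rw [e]
  induction a using MonoidAlgebra.induction_linear with
  | zero => simp
  | add a b ha hb => rw [map_add, map_add, ha rfl, hb rfl, map_add]
  | single g r =>
    rw [MonoidAlgebra.mapRingHom_single, MonoidAlgebra.lift_single, MonoidAlgebra.lift_single]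
    simp [Algebra.smul_def]

theorem mem_redAlg {lam : Γ →* A} (x : CRed lam) : (x : A) ∈ redAlg lam := x.2

theorem homologyNonzero_of_nontrivial (R : FinRes Γ) (lam : Γ →* A) {i : ℕ}
    (h : Nontrivial (R.toFreeRes.HRed lam i)) : HomologyNonzero R lam i := by
  by_contra hcon
  apply not_subsingleton (R.toFreeRes.HRed lam i)
  have key : ∀ x ∈ R.toFreeRes.cyRed lam i, x ∈ R.toFreeRes.boRed lam i := by
    rintro x ⟨hx1, hx2⟩
    by_contra hxb
    apply hcon
    refine ⟨fun c => (x c : A), fun c => mem_redAlg _, ?_, ?_, ?_⟩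
    · intro c hc
      have := hx1 c hc
      show ((x c : CRed lam) : A) = 0
      exact congrArg Subtype.val this
    · intro c'
      rw [SetLike.mem_coe, LinearMap.mem_ker] at hx2
      have h1 := congrArg (fun z : R.cell → CRed lam => ((z c' : CRed lam) : A)) hx2
      simp only [FreeRes.bdRed_apply, AddSubmonoidClass.coe_finsetSum, MulMemClass.coe_mul,
        coe_toCRed'] at h1
      exact h1
    · rintro ⟨y, hy1, hy2, hy3⟩
      apply hxb
      refine ⟨fun c => ⟨y c, hy1 c⟩, ?_, ?_⟩
      · intro c hc
        apply Subtype.ext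
        exact hy2 c hc
      · funext c'
        apply Subtype.ext
        rw [FreeRes.bdRed_apply]
        simp only [AddSubmonoidClass.coe_finsetSum, MulMemClass.coe_mul, coe_toCRed']
        exact hy3 c'
  constructor
  intro a b
  obtain ⟨a, rfl⟩ := Submodule.Quotient.mk_surjective _ a
  obtain ⟨b, rfl⟩ := Submodule.Quotient.mk_surjective _ b
  rw [Submodule.Quotient.eq]
  exact key _ (a - b).2

end

end Pool.Agent.Lib.P9f173d
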