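import Mathlib

/-!
Strong exchange for Coxeter systems.
-/

namespace Pool.Agent.Lib.P9f173d

open List CoxeterSystem

variable {B W : Type*} [Group W] {M : CoxeterMatrix B} (cs : CoxeterSystem M W)

open Classical in
/-- The permutation of `W × ZMod 2` attached to a simple reflection. -/
noncomputable def sg (i : B) : Equiv.Perm (W × ZMod 2) where
  toFun p := (cs.simple i * p.1 * cs.simple i, p.2 + if p.1 = cs.simple i then 1 else 0)
  invFun p := (cs.simple i * p.1 * cs.simple i, p.2 + if p.1 = cs.simple i then 1 else 0)
  left_inv p := by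
    obtain ⟨t, e⟩ := p
    have h : cs.simple i * t * cs.simple i = cs.simple i ↔ t = cs.simple i := by
      constructor
      · intro h
        have := congrArg (fun x => cs.simple i * x * cs.simple i) h
        simpa [mul_assoc] using this
      · rintro rfl
        simp
    ext
    · simp [mul_assoc]
    · simp only [h]
      split_ifs <;> simp [add_assoc, (by decide : (1 : ZMod 2) + 1 = 0)]
  right_inv p := by
    obtain ⟨t, e⟩ := p
    have h : cs.simple i * t * cs.simple i = cs.simple i ↔ t = cs.simple i := by
      constructor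
      · intro h
        have := congrArg (fun x => cs.simple i * x * cs.simple i) h
        simpa [mul_assoc] using this
      · rintro rfl
        simp
    ext
    · simp [mul_assoc]
    · simp only [h]
      split_ifs <;> simp [add_assoc, (by decide : (1 : ZMod 2) + 1 = 0)]

open Classical in
theorem sg_word (ω : List B) (t : W) (e : ZMod 2) :
    (ω.map (sg cs)).prod (t, e) =
      (cs.wordProd ω * t * (cs.wordProd ω)⁻¹, e + (List.count t (cs.rightInvSeq ω) : ZMod 2)) := by
  induction ω with
  | nil => simp
  | cons i ω ih =>
    rw [List.map_cons, List.prod_cons, Equiv.Perm.mul_apply, ih]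
    have hc : (cs.wordProd ω * t * (cs.wordProd ω)⁻¹ = cs.simple i) ↔
        ((cs.wordProd ω)⁻¹ * cs.simple i * cs.wordProd ω = t) := by
      constructor
      · intro h; rw [← h]; group
      · intro h; rw [← h]; group
    simp only [sg, Equiv.coe_fn_mk, rightInvSeq, List.count_cons, wordProd_cons, mul_inv_rev,
      inv_simple]
    ext
    · simp [mul_assoc]
    · simp only [hc, beq_iff_eq]
      split_ifs <;> simp [add_assoc]

theorem alt_map {G : Type*} [Group G] (f : B → G) (i j : B) (m : ℕ) :
    ((alternatingWord i j (2 * m)).map f).prod = (f i * f j) ^ m := by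
  induction m with
  | zero => simp [alternatingWord]
  | succ m ih =>
    rw [show 2 * (m + 1) = 2 * m + 1 + 1 by ring, alternatingWord_succ', alternatingWord_succ']
    simp [pow_succ', mul_assoc, ← ih]

open Classical in
theorem count_alt_even (i j : B) (t : W) :
    (List.count t (cs.leftInvSeq (alternatingWord i j (2 * M i j))) : ZMod 2) = 0 := by
  set m := M i j with hm
  set L := cs.leftInvSeq (alternatingWord i j (2 * m)) with hL
  have hlen : L.length = 2 * m := by simp [hL]
  have hsplit : L = L.take m ++ L.drop m := (List.take_append_drop m L).symm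
  have hEq : L.take m = L.drop m := by
    apply List.ext_getElem
    · simp [hlen]; omega
    · intro k h1 h2
      have hk : k < m := by simp [hlen] at h1; omega
      rw [List.getElem_take, List.getElem_drop]
      simp only [hL]
      rw [cs.getElem_leftInvSeq_alternatingWord i j m k (by omega),
        cs.getElem_leftInvSeq_alternatingWord i j m (m + k) (by omega)]
      rw [prod_alternatingWord_eq_mul_pow, prod_alternatingWord_eq_mul_pow]
      have e1 : ¬ Even (2 * k + 1) := by simp [parity_simps]
      have e2 : ¬ Even (2 * (m + k) + 1) := by simp [parity_simps]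
      rw [if_neg e1, if_neg e2]
      have d1 : (2 * k + 1) / 2 = k := by omega
      have d2 : (2 * (m + k) + 1) / 2 = m + k := by omega
      rw [d1, d2, pow_add, hm, simple_mul_simple_pow', one_mul]
  rw [hsplit, List.count_append, hEq]
  push_cast
  have h2 : ∀ x : ZMod 2, x + x = 0 := by decide
  exact h2 _

theorem sg_liftable : M.IsLiftable (sg cs) := by
  classical
  intro i j
  rw [← alt_map]
  ext1 p
  obtain ⟨t, e⟩ := p
  rw [sg_word]
  have h1 : cs.wordProd (alternatingWord i j (2 * M i j)) = 1 := by
    rw [prod_alternatingWord_eq_mul_pow]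
    simp
  have h2 : (List.count t (cs.rightInvSeq (alternatingWord i j (2 * M i j))) : ZMod 2) = 0 := by
    have hrev : (alternatingWord j i (2 * M i j)).reverse = alternatingWord i j (2 * M i j) := by
      apply List.ext_getElem
      · simp
      · intro k h1 h2
        simp at h1
        rw [List.getElem_reverse]
        simp only [length_alternatingWord]
        rw [getElem_alternatingWord j i _ _ (by omega), getElem_alternatingWord i j _ _ (by omega)]
        have : Even (2 * M i j + (2 * M i j - 1 - k)) ↔ ¬ Even (2 * M i j + k) := by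
          rw [Nat.even_iff, Nat.even_iff]; omega
        by_cases h : Even (2 * M i j + k)
        · rw [if_neg (by rw [this]; simpa using h), if_pos h]
        · rw [if_pos (by rw [this]; simpa using h), if_neg h]
    rw [← hrev, cs.rightInvSeq_reverse, List.count_reverse]
    have := count_alt_even cs j i t
    rwa [M.symmetric i j] at *
  rw [h1, h2]
  simp

/-- The homomorphism to permutations of `W × ZMod 2`. -/
noncomputable def Sg : W →* Equiv.Perm (W × ZMod 2) := cs.lift ⟨sg cs, sg_liftable cs⟩

open Classical in
theorem Sg_word (ω : List B) (t : W) (e : ZMod 2) :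
    Sg cs (cs.wordProd ω) (t, e) =
      (cs.wordProd ω * t * (cs.wordProd ω)⁻¹, e + (List.count t (cs.rightInvSeq ω) : ZMod 2)) := by
  rw [← sg_word]
  have : Sg cs (cs.wordProd ω) = (ω.map (sg cs)).prod := by
    rw [wordProd, map_list_prod, List.map_map]
    congr 1
    apply List.map_congr_left
    intro i _
    simp [Sg]
  rw [this]

theorem Sg_fst (w t : W) (e : ZMod 2) : (Sg cs w (t, e)).1 = w * t * w⁻¹ := by
  classical
  obtain ⟨ω, rfl⟩ := cs.wordProd_surjective w
  rw [Sg_word]

theorem Sg_snd_add (w t : W) (e : ZMod 2) : (Sg cs w (t, e)).2 = e + (Sg cs w (t, 0)).2 := by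
  classical
  obtain ⟨ω, rfl⟩ := cs.wordProd_surjective w
  rw [Sg_word, Sg_word]
  simp

theorem Sg_reflection {t : W} (ht : cs.IsReflection t) : (Sg cs t (t, 0)).2 = 1 := by
  classical
  obtain ⟨u, i, rfl⟩ := ht
  set t := u * cs.simple i * u⁻¹ with ht
  have h1 : Sg cs u⁻¹ (t, 0) = (cs.simple i, (Sg cs u⁻¹ (t, 0)).2) := by
    ext
    · rw [Sg_fst, ht]; simp [mul_assoc]
    · rfl
  set a := (Sg cs u⁻¹ (t, 0)).2 with ha
  have h2 : Sg cs u (cs.simple i, a) = (t, 0) := by
    rw [← h1, ← Equiv.Perm.mul_apply, ← map_mul]
    simp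
  have h3 : Sg cs (cs.simple i) (cs.simple i, a) = (cs.simple i, a + 1) := by
    have : Sg cs (cs.simple i) = sg cs i := by simp [Sg]
    rw [this]
    simp [sg]
  have h4 : Sg cs t (t, 0) = Sg cs u (Sg cs (cs.simple i) (Sg cs u⁻¹ (t, 0))) := by
    rw [← Equiv.Perm.mul_apply, ← Equiv.Perm.mul_apply, ← map_mul, ← map_mul]
  rw [h4, h1, h3, Sg_snd_add]
  have h5 := Sg_snd_add cs u (cs.simple i) a
  rw [h2] at h5
  simp only at h5
  have : ∀ x y : ZMod 2, 0 = x + y → x + 1 + y = 1 := by decide
  exact this _ _ h5

/-- The strong exchange property (right version). -/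
theorem mem_rightInvSeq_of_lt {ω : List B} {t : W} (ht : cs.IsReflection t)
    (h : cs.length (cs.wordProd ω * t) < cs.length (cs.wordProd ω)) :
    t ∈ cs.rightInvSeq ω := by
  classical
  set w := cs.wordProd ω with hw
  by_contra hmem
  have h0 : (Sg cs w (t, 0)).2 = 0 := by
    rw [hw, Sg_word]
    simp [List.count_eq_zero_of_not_mem hmem]
  have h1 : (Sg cs (w * t) (t, 0)).2 = 1 := by
    rw [map_mul, Equiv.Perm.mul_apply]
    have : Sg cs t (t, 0) = (t, 1) := by
      ext
      · rw [Sg_fst]; simp [mul_assoc]
      · exact Sg_reflection cs ht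
    rw [this, Sg_snd_add, h0]
    simp
  obtain ⟨ω', hω', hp⟩ := cs.exists_isReduced (w * t)
  rw [hp, Sg_word] at h1
  simp only [zero_add] at h1
  have hmem' : t ∈ cs.rightInvSeq ω' := by
    by_contra hn
    rw [List.count_eq_zero_of_not_mem hn] at h1
    exact absurd h1 (by decide)
  have h2 := (cs.isRightInversion_of_mem_rightInvSeq hω' hmem').2
  rw [← hp] at h2
  have h3 : w * t * t = w := by rw [mul_assoc, ht.mul_self, mul_one]
  rw [h3] at h2
  omega

/-- The exchange property, right version. -/
theorem exchange_right {ω : List B} {i : B}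
    (h : cs.length (cs.wordProd ω * cs.simple i) < cs.length (cs.wordProd ω)) :
    ∃ j, j < ω.length ∧ cs.wordProd ω * cs.simple i = cs.wordProd (ω.eraseIdx j) := by
  have hm := mem_rightInvSeq_of_lt cs (cs.isReflection_simple i) h
  obtain ⟨j, hj, he⟩ := List.mem_iff_getElem.mp hm
  rw [cs.length_rightInvSeq] at hj
  refine ⟨j, hj, ?_⟩
  have := cs.wordProd_mul_getD_rightInvSeq ω j
  rw [List.getD_eq_getElem _ _ (by simpa using hj), he] at this
  exact this

/-- The exchange property, left version. -/
theorem exchange_left {ω : List B} {i : B}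
    (h : cs.length (cs.simple i * cs.wordProd ω) < cs.length (cs.wordProd ω)) :
    ∃ ω' : List B, ω'.Sublist ω ∧ ω'.length + 1 = ω.length ∧
      cs.simple i * cs.wordProd ω = cs.wordProd ω' := by
  have h' : cs.length (cs.wordProd ω.reverse * cs.simple i) < cs.length (cs.wordProd ω.reverse) := by
    rw [wordProd_reverse, cs.length_inv, ← cs.length_inv]
    simpa using h
  obtain ⟨j, hj, he⟩ := exchange_right cs h'
  rw [List.length_reverse] at hj
  refine ⟨(ω.reverse.eraseIdx j).reverse, ?_, ?_, ?_⟩
  · simpa using (List.eraseIdx_sublist ω.reverse j).reverse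
  · rw [List.length_reverse, List.length_eraseIdx, List.length_reverse, if_pos hj]
    omega
  have h2 := congrArg (fun x => x⁻¹) he
  simp only [mul_inv_rev, inv_simple, wordProd_reverse, inv_inv] at h2
  rw [h2, ← wordProd_reverse]

end Pool.Agent.Lib.P9f173d
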