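import Pool.Agent.Lib.P9f173d.Cox1

/-!
Parabolic subgroups and descents of Coxeter systems.
-/

namespace Pool.Agent.Lib.P9f173d

open List CoxeterSystem

variable {B W : Type*} [Group W] {M : CoxeterMatrix B} (cs : CoxeterSystem M W)

/-- The parabolic subgroup generated by the simple reflections with index in `T`. -/
def WT (T : Set B) : Subgroup W := Subgroup.closure (cs.simple '' T)

theorem simple_mem_WT {T : Set B} {i : B} (hi : i ∈ T) : cs.simple i ∈ WT cs T :=
  Subgroup.subset_closure ⟨i, hi, rfl⟩

theorem WT_mono {T T' : Set B} (h : T ⊆ T') : WT cs T ≤ WT cs T' :=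
  Subgroup.closure_mono (Set.image_mono h)

theorem wordProd_mem_WT {T : Set B} {ω : List B} (h : ∀ i ∈ ω, i ∈ T) :
    cs.wordProd ω ∈ WT cs T := by
  induction ω with
  | nil => simp
  | cons i ω ih =>
    rw [wordProd_cons]
    exact mul_mem (simple_mem_WT cs (h i (by simp))) (ih (fun j hj => h j (by simp [hj])))

theorem exists_word_of_mem {T : Set B} {v : W} (hv : v ∈ WT cs T) :
    ∃ ω : List B, (∀ i ∈ ω, i ∈ T) ∧ cs.wordProd ω = v := by
  induction hv using Subgroup.closure_induction with
  | mem x hx =>
    obtain ⟨i, hi, rfl⟩ := hx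
    exact ⟨[i], by simpa using hi, by simp⟩
  | one => exact ⟨[], by simp, by simp⟩
  | mul x y _ _ hx hy =>
    obtain ⟨ω, h1, rfl⟩ := hx
    obtain ⟨ω', h2, rfl⟩ := hy
    refine ⟨ω ++ ω', ?_, by rw [wordProd_append]⟩
    intro i hi
    rcases List.mem_append.mp hi with h | h
    · exact h1 i h
    · exact h2 i h
  | inv x _ hx =>
    obtain ⟨ω, h1, rfl⟩ := hx
    exact ⟨ω.reverse, by simpa using h1, by simp⟩

theorem exists_reduced_sublist (ω : List B) :
    ∃ ω' : List B, ω'.Sublist ω ∧ cs.IsReduced ω' ∧ cs.wordProd ω' = cs.wordProd ω := by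
  induction ω with
  | nil => exact ⟨[], List.Sublist.refl _, by simp [CoxeterSystem.IsReduced], rfl⟩
  | cons i ω ih =>
    obtain ⟨ω1, h1, h2, h3⟩ := ih
    rcases cs.length_simple_mul (cs.wordProd ω1) i with h | h
    · refine ⟨i :: ω1, h1.cons_cons i, ?_, by rw [wordProd_cons, wordProd_cons, h3]⟩
      unfold CoxeterSystem.IsReduced
      rw [wordProd_cons, h, h2.eq, List.length_cons]
    · obtain ⟨ω2, k1, k2, k3⟩ := exchange_left cs (ω := ω1) (i := i) (by omega)
      refine ⟨ω2, (k1.trans h1).cons i, ?_, by rw [wordProd_cons, ← k3, h3]⟩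
      unfold CoxeterSystem.IsReduced
      have := h2.eq
      rw [← k3]
      omega

theorem exists_reduced_of_mem {T : Set B} {v : W} (hv : v ∈ WT cs T) :
    ∃ ω : List B, (∀ i ∈ ω, i ∈ T) ∧ cs.IsReduced ω ∧ cs.wordProd ω = v := by
  obtain ⟨ω, h1, h2⟩ := exists_word_of_mem cs hv
  obtain ⟨ω', k1, k2, k3⟩ := exists_reduced_sublist cs ω
  exact ⟨ω', fun i hi => h1 i (k1.subset hi), k2, by rw [k3, h2]⟩

/-- Induction on reduced words in a parabolic subgroup, adding letters on the right. -/
theorem WT_induction_right {T : Set B} {p : W → Prop} (h1 : p 1)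
    (hs : ∀ v ∈ WT cs T, ∀ i ∈ T, cs.length (v * cs.simple i) = cs.length v + 1 → p v →
      p (v * cs.simple i)) : ∀ v ∈ WT cs T, p v := by
  have key : ∀ ω : List B, (∀ i ∈ ω, i ∈ T) → cs.IsReduced ω → p (cs.wordProd ω) := by
    intro ω
    induction ω using List.reverseRecOn with
    | nil => intro _ _; simpa using h1
    | append_singleton ω i ih =>
      intro hT hr
      have hr' : cs.IsReduced ω := by
        have := hr.take ω.length
        simpa using this
      have hi : i ∈ T := hT i (by simp)
      have hT' : ∀ j ∈ ω, j ∈ T := fun j hj => hT j (by simp [hj])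
      rw [wordProd_append, wordProd_singleton]
      apply hs _ (wordProd_mem_WT cs hT') i hi _ (ih hT' hr')
      have e1 := hr.eq
      rw [wordProd_append, wordProd_singleton] at e1
      rw [e1, hr'.eq]
      simp
  intro v hv
  obtain ⟨ω, h2, h3, rfl⟩ := exists_reduced_of_mem cs hv
  exact key ω h2 h3

/-- Induction on reduced words in a parabolic subgroup, adding letters on the left. -/
theorem WT_induction_left {T : Set B} {p : W → Prop} (h1 : p 1)
    (hs : ∀ v ∈ WT cs T, ∀ i ∈ T, cs.length (cs.simple i * v) = cs.length v + 1 → p v →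
      p (cs.simple i * v)) : ∀ v ∈ WT cs T, p v := by
  have key : ∀ ω : List B, (∀ i ∈ ω, i ∈ T) → cs.IsReduced ω → p (cs.wordProd ω) := by
    intro ω
    induction ω with
    | nil => intro _ _; simpa using h1
    | cons i ω ih =>
      intro hT hr
      have hr' : cs.IsReduced ω := by
        have := hr.drop 1
        simpa using this
      have hi : i ∈ T := hT i (by simp)
      have hT' : ∀ j ∈ ω, j ∈ T := fun j hj => hT j (by simp [hj])
      rw [wordProd_cons]
      apply hs _ (wordProd_mem_WT cs hT') i hi _ (ih hT' hr')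
      have e1 := hr.eq
      rw [wordProd_cons] at e1
      rw [e1, hr'.eq]
      simp
  intro v hv
  obtain ⟨ω, h2, h3, rfl⟩ := exists_reduced_of_mem cs hv
  exact key ω h2 h3

/-- A minimal coset representative with additive lengths. -/
theorem exists_min_rep (T : Set B) (w : W) :
    ∃ u : W, u⁻¹ * w ∈ WT cs T ∧ ∀ v ∈ WT cs T, cs.length (u * v) = cs.length u + cs.length v := by
  classical
  have hne : ∃ n : ℕ, ∃ u : W, u⁻¹ * w ∈ WT cs T ∧ cs.length u = n :=
    ⟨cs.length w, w, by simp, rfl⟩
  obtain ⟨u, hu1, hu2⟩ := Nat.find_spec hne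
  have hmin : ∀ u' : W, u'⁻¹ * w ∈ WT cs T → cs.length u ≤ cs.length u' := by
    intro u' h'
    rw [hu2]
    exact Nat.find_min' hne ⟨u', h', rfl⟩
  refine ⟨u, hu1, ?_⟩
  refine WT_induction_right cs (p := fun v => cs.length (u * v) = cs.length u + cs.length v) ?_ ?_
  · simp
  · intro v hv i hi hl ih
    rcases cs.length_mul_simple (u * v) i with h | h
    · rw [← mul_assoc, h, ih, hl]; ring
    · exfalso
      obtain ⟨ωu, ru, eu⟩ := cs.exists_isReduced u
      obtain ⟨ωv, rv, ev⟩ := cs.exists_isReduced v
      have hlu : ωu.length = cs.length u := by rw [eu, ru.eq]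
      have hlv : ωv.length = cs.length v := by rw [ev, rv.eq]
      have hlt : cs.length (cs.wordProd (ωu ++ ωv) * cs.simple i) <
          cs.length (cs.wordProd (ωu ++ ωv)) := by
        rw [wordProd_append, ← eu, ← ev]; omega
      obtain ⟨j, hj, he⟩ := exchange_right cs hlt
      rw [wordProd_append, ← eu, ← ev] at he
      by_cases hju : j < ωu.length
      · rw [List.eraseIdx_append_of_lt_length hju, wordProd_append, ← ev] at he
        have hlen : cs.length (cs.wordProd (ωu.eraseIdx j)) < cs.length u := by
          refine lt_of_le_of_lt (cs.length_wordProd_le _) ?_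
          rw [List.length_eraseIdx, if_pos hju]; omega
        have hmem : (cs.wordProd (ωu.eraseIdx j))⁻¹ * w ∈ WT cs T := by
          have : cs.wordProd (ωu.eraseIdx j) = u * (v * cs.simple i * v⁻¹) := by
            rw [← mul_assoc, ← mul_assoc, he]; group
          rw [this]
          have e2 : (u * (v * cs.simple i * v⁻¹))⁻¹ * w =
              (v * cs.simple i * v⁻¹)⁻¹ * (u⁻¹ * w) := by group
          rw [e2]
          exact mul_mem (inv_mem (mul_mem (mul_mem hv (simple_mem_WT cs hi)) (inv_mem hv))) hu1
        exact absurd (hmin _ hmem) (by omega)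
      · rw [List.eraseIdx_append_of_length_le (by omega), wordProd_append, ← eu,
          mul_assoc, mul_right_inj] at he
        have : cs.length (v * cs.simple i) ≤ ωv.length - 1 := by
          rw [he]
          refine (cs.length_wordProd_le _).trans ?_
          rw [List.length_eraseIdx, if_pos (by rw [List.length_append] at hj; omega)]
        omega

/-- If all elements of `T` are right descents of `w`, lengths subtract. -/
theorem length_mul_of_descents {T : Set B} {w : W}
    (hT : ∀ i ∈ T, cs.length (w * cs.simple i) < cs.length w) :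
    ∀ v ∈ WT cs T, cs.length (w * v⁻¹) + cs.length v = cs.length w := by
  refine WT_induction_right cs
    (p := fun v => cs.length (w * v⁻¹) + cs.length v = cs.length w) ?_ ?_
  · simp
  · intro v hv i hi hl ih
    obtain ⟨r, rr, er⟩ := cs.exists_isReduced (w * v⁻¹)
    obtain ⟨ωv, rv, ev⟩ := cs.exists_isReduced v
    have hlr : r.length = cs.length (w * v⁻¹) := by rw [er, rr.eq]
    have hlv : ωv.length = cs.length v := by rw [ev, rv.eq]
    have ew : w = cs.wordProd (r ++ ωv) := by
      rw [wordProd_append, ← er, ← ev]; group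
    have hd := hT i hi
    rw [ew] at hd
    obtain ⟨j, hj, he⟩ := exchange_right cs hd
    rw [← ew] at he
    have hge : cs.length w ≤ cs.length (w * (v * cs.simple i)⁻¹) + cs.length (v * cs.simple i) := by
      have := cs.length_mul_le (w * (v * cs.simple i)⁻¹) (v * cs.simple i)
      rwa [inv_mul_cancel_right] at this
    by_cases hju : j < r.length
    · rw [List.eraseIdx_append_of_lt_length hju, wordProd_append, ← ev] at he
      have e3 : w * (v * cs.simple i)⁻¹ = cs.wordProd (r.eraseIdx j) := by
        rw [mul_inv_rev, inv_simple, ← mul_assoc, he]; group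
      have : cs.length (w * (v * cs.simple i)⁻¹) ≤ r.length - 1 := by
        rw [e3]
        refine (cs.length_wordProd_le _).trans ?_
        rw [List.length_eraseIdx, if_pos hju]
      omega
    · exfalso
      rw [List.eraseIdx_append_of_length_le (by omega), wordProd_append, ← er] at he
      have e4 : v * cs.simple i = cs.wordProd (ωv.eraseIdx (j - r.length)) := by
        have := congrArg (fun x => (w * v⁻¹)⁻¹ * x) he
        simpa [mul_assoc] using this
      have : cs.length (v * cs.simple i) ≤ ωv.length - 1 := by
        rw [e4]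
        refine (cs.length_wordProd_le _).trans ?_
        rw [List.length_eraseIdx, if_pos (by rw [List.length_append] at hj; omega)]
      omega

theorem length_mul_of_descents' {T : Set B} {w : W}
    (hT : ∀ i ∈ T, cs.length (w * cs.simple i) < cs.length w) {v : W} (hv : v ∈ WT cs T) :
    cs.length (w * v) + cs.length v = cs.length w := by
  have := length_mul_of_descents cs hT v⁻¹ (inv_mem hv)
  simpa using this

/-- If all elements of `T` are right descents of `w`, then `W_T` is finite. -/
theorem WT_finite_of_descents {T : Set B} {w : W}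
    (hT : ∀ i ∈ T, cs.length (w * cs.simple i) < cs.length w) : Finite (WT cs T) := by
  classical
  obtain ⟨ω, rω, eω⟩ := cs.exists_isReduced w
  have key : ∀ v ∈ WT cs T, ∃ ω' : List B, ω'.Sublist ω ∧ cs.wordProd ω' = w * v⁻¹ := by
    refine WT_induction_left cs
      (p := fun v => ∃ ω' : List B, ω'.Sublist ω ∧ cs.wordProd ω' = w * v⁻¹) ?_ ?_
    · exact ⟨ω, List.Sublist.refl _, by simp [eω]⟩
    · intro v hv i hi hl ih
      obtain ⟨ω', h1, h2⟩ := ih
      have l1 := length_mul_of_descents cs hT v hv
      have l2 := length_mul_of_descents cs hT _ (mul_mem (simple_mem_WT cs hi) hv)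
      have e : w * (cs.simple i * v)⁻¹ = cs.wordProd ω' * cs.simple i := by
        rw [h2, mul_inv_rev, inv_simple, mul_assoc]
      have hlt : cs.length (cs.wordProd ω' * cs.simple i) < cs.length (cs.wordProd ω') := by
        rw [← e, h2]; omega
      obtain ⟨j, hj, he⟩ := exchange_right cs hlt
      exact ⟨ω'.eraseIdx j, (List.eraseIdx_sublist _ _).trans h1, by rw [← he, e]⟩
  have hfin : (Set.range (fun x : {l // l ∈ ω.sublists} => cs.wordProd x.1)).Finite := by
    have : Finite {l // l ∈ ω.sublists} := List.finite_toSet _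
    exact Set.finite_range _
  have : Set.Finite {v | v ∈ WT cs T} := by
    apply Set.Finite.of_finite_image (f := fun v => w * v⁻¹)
    · apply hfin.subset
      rintro _ ⟨v, hv, rfl⟩
      obtain ⟨ω', h1, h2⟩ := key v hv
      exact ⟨⟨ω', List.mem_sublists.mpr h1⟩, h2⟩
    · intro a _ b _ hab
      simpa using hab
  exact this

/-- The commutation lemma. -/
theorem simple_mul_eq_mul_simple {w : W} {i j : B}
    (h1 : cs.length w < cs.length (cs.simple i * w))
    (h2 : cs.length w < cs.length (w * cs.simple j))
    (h3 : cs.length (cs.simple i * w * cs.simple j) < cs.length (w * cs.simple j)) :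
    cs.simple i * w = w * cs.simple j := by
  obtain ⟨ω, rω, eω⟩ := cs.exists_isReduced w
  have hl : ω.length = cs.length w := by rw [eω, rω.eq]
  have a1 : cs.length (cs.simple i * w) = cs.length w + 1 := by
    rcases cs.length_simple_mul w i with h | h <;> omega
  have a2 : cs.length (w * cs.simple j) = cs.length w + 1 := by
    rcases cs.length_mul_simple w j with h | h <;> omega
  have hlt : cs.length (cs.wordProd (i :: ω) * cs.simple j) < cs.length (cs.wordProd (i :: ω)) := by
    rw [wordProd_cons, ← eω]; omega
  obtain ⟨k, hk, he⟩ := exchange_right cs hlt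
  rw [wordProd_cons, ← eω] at he
  cases k with
  | zero =>
    rw [List.eraseIdx_cons_zero, ← eω] at he
    calc cs.simple i * w = (cs.simple i * w * cs.simple j) * cs.simple j := by simp
      _ = w * cs.simple j := by rw [he]
  | succ k =>
    rw [List.eraseIdx_cons_succ, wordProd_cons, mul_assoc, mul_right_inj] at he
    have : cs.length (w * cs.simple j) ≤ ω.length := by
      rw [he]
      refine (cs.length_wordProd_le _).trans ?_
      exact List.length_eraseIdx_le _ _
    omega

theorem min_rep_unique {T : Set B} {u u' : W}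
    (h : ∀ v ∈ WT cs T, cs.length (u * v) = cs.length u + cs.length v)
    (h' : ∀ v ∈ WT cs T, cs.length (u' * v) = cs.length u' + cs.length v)
    (huu : u⁻¹ * u' ∈ WT cs T) : u = u' := by
  have e1 := h _ huu
  have e2 := h' _ (inv_mem huu)
  have e3 : u * (u⁻¹ * u') = u' := by group
  have e4 : u' * (u⁻¹ * u')⁻¹ = u := by group
  rw [e3] at e1
  rw [e4, cs.length_inv] at e2
  have : cs.length (u⁻¹ * u') = 0 := by omega
  rw [cs.length_eq_zero_iff] at this
  rw [← e3, this, mul_one]

end Pool.Agent.Lib.P9f173d
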