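import Pool.Agent.Lib.P9f173d.Cox2

/-!
The geometric representation; distinct generators of a Coxeter system are distinct.
-/

namespace Pool.Agent.Lib.P9f173d

open CoxeterSystem Polynomial.Chebyshev Module

theorem cheb_vanish (m : ℕ) (hm : 3 ≤ m) (t : ℝ) (ht : t = 2 * Real.cos (2 * Real.pi / m)) :
    (S ℝ (((m : ℤ) - 2) / 2)).eval t * ((S ℝ (((m : ℤ) - 1) / 2)).eval t +
      (S ℝ (((m : ℤ) - 3) / 2)).eval t) = 0 ∧
    (S ℝ (((m : ℤ) - 1) / 2)).eval t * ((S ℝ ((m : ℤ) / 2)).eval t +
      (S ℝ (((m : ℤ) - 2) / 2)).eval t) = 0 := by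
  set θ : ℝ := 2 * Real.pi / m with hθ
  have hm0 : (0 : ℝ) < m := by exact_mod_cast (by omega : 0 < m)
  have hm3 : (3 : ℝ) ≤ m := by exact_mod_cast hm
  have hs : Real.sin θ ≠ 0 := by
    apply ne_of_gt
    apply Real.sin_pos_of_pos_of_lt_pi
    · positivity
    · rw [hθ, div_lt_iff₀ hm0]
      nlinarith [Real.pi_pos]
  have hmθ : (m : ℝ) * θ = 2 * Real.pi := by rw [hθ]; field_simp
  have hS : ∀ k : ℤ, (S ℝ k).eval t * Real.sin θ = Real.sin ((k + 1) * θ) := by
    intro k; rw [ht]; exact S_two_mul_real_cos θ k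
  rcases Nat.even_or_odd' m with ⟨k, hk | hk⟩
  · have e1 : ((m : ℤ) - 2) / 2 = k - 1 := by omega
    have e2 : ((m : ℤ) - 1) / 2 = k - 1 := by omega
    have h0 : (S ℝ ((k : ℤ) - 1)).eval t = 0 := by
      have := hS ((k : ℤ) - 1)
      push_cast at this
      rw [sub_add_cancel] at this
      have hkθ : (k : ℝ) * θ = Real.pi := by
        have : (m : ℝ) = 2 * k := by exact_mod_cast hk
        rw [this] at hmθ
        linarith
      rw [hkθ, Real.sin_pi] at this
      exact (mul_eq_zero.mp this).resolve_right hs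
    rw [e1, e2, h0]
    simp
  · have e1 : ((m : ℤ) - 2) / 2 = k - 1 := by omega
    have e2 : ((m : ℤ) - 1) / 2 = k := by omega
    have e3 : ((m : ℤ) - 3) / 2 = k - 1 := by omega
    have e4 : (m : ℤ) / 2 = k := by omega
    have h0 : (S ℝ (k : ℤ)).eval t + (S ℝ ((k : ℤ) - 1)).eval t = 0 := by
      have h1 := hS k
      have h2 := hS ((k : ℤ) - 1)
      push_cast at h1 h2
      rw [sub_add_cancel] at h2
      have hkθ : ((k : ℝ) + 1) * θ = 2 * Real.pi - k * θ := by
        have : (m : ℝ) = 2 * k + 1 := by exact_mod_cast hk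
        rw [this] at hmθ
        linarith
      rw [hkθ, Real.sin_two_pi_sub] at h1
      have : ((S ℝ (k : ℤ)).eval t + (S ℝ ((k : ℤ) - 1)).eval t) * Real.sin θ = 0 := by
        rw [add_mul, h1, h2]; ring
      exact (mul_eq_zero.mp this).resolve_right hs
    rw [e1, e2, e3, e4, h0]
    simp

variable {B W : Type*} [Group W] {M : CoxeterMatrix B}

/-- Entries of the (twice the) cosine matrix. -/
noncomputable def cosM (M : CoxeterMatrix B) (i j : B) : ℝ :=
  if M i j = 0 then -2 else -2 * Real.cos (Real.pi / M i j)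

/-- The coroot functional. -/
noncomputable def corootM (M : CoxeterMatrix B) (i : B) : Dual ℝ (B →₀ ℝ) :=
  Finsupp.linearCombination ℝ (cosM M i)

theorem corootM_single (i j : B) (a : ℝ) : corootM M i (Finsupp.single j a) = a * cosM M i j := by
  simp [corootM]

theorem cosM_self (i : B) : cosM M i i = 2 := by
  simp [cosM]

theorem cosM_symm (i j : B) : cosM M i j = cosM M j i := by
  simp [cosM, M.symmetric i j]

theorem corootM_self (i : B) : corootM M i (Finsupp.single i 1) = 2 := by
  simp [corootM_single, cosM_self]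

/-- The reflections of the geometric representation. -/
noncomputable def reflM (M : CoxeterMatrix B) (i : B) : (B →₀ ℝ) ≃ₗ[ℝ] (B →₀ ℝ) :=
  reflection (corootM_self (M := M) i)

theorem reflM_liftable : M.IsLiftable (reflM M) := by
  intro i j
  by_cases hij : i = j
  · subst hij
    rw [M.diagonal, pow_one]
    ext1 z
    exact (involutive_reflection (corootM_self (M := M) i)) z
  by_cases h0 : M i j = 0
  · rw [h0, pow_zero]
  have h1 : M i j ≠ 1 := M.off_diagonal i j hij
  ext1 z
  unfold reflM
  rw [reflection_mul_reflection_pow_apply _ _ _ z]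
  by_cases h2 : M i j = 2
  · -- commuting reflections
    have c0 : cosM M i j = 0 := by simp [cosM, h2]
    have c0' : cosM M j i = 0 := by rw [cosM_symm, c0]
    simp only [corootM_single, c0, c0', h2]
    norm_num
    abel
  · have hm : 3 ≤ M i j := by omega
    have hc : cosM M i j = -2 * Real.cos (Real.pi / M i j) := by simp [cosM, h0]
    have hc' : cosM M j i = -2 * Real.cos (Real.pi / M i j) := by rw [cosM_symm, hc]
    have ht : corootM M i (Finsupp.single j 1) * corootM M j (Finsupp.single i 1) - 2 =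
        2 * Real.cos (2 * Real.pi / (M i j : ℕ)) := by
      simp only [corootM_single, hc, hc', one_mul]
      have := Real.cos_two_mul (Real.pi / (M i j : ℕ))
      rw [show 2 * Real.pi / ((M i j : ℕ) : ℝ) = 2 * (Real.pi / (M i j : ℕ)) by ring, this]
      ring
    obtain ⟨k1, k2⟩ := cheb_vanish (M i j) hm _ ht
    rw [k1, k2]
    simp

/-- The generators attached to distinct indices are distinct. -/
theorem simple_injective (cs : CoxeterSystem M W) : Function.Injective cs.simple := by
  intro i j hij
  by_contra hne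
  set ρ := cs.lift ⟨reflM M, reflM_liftable⟩ with hρ
  have h1 : ρ (cs.simple i) = reflM M i := by simp [hρ]
  have h2 : ρ (cs.simple j) = reflM M j := by simp [hρ]
  have h3 : reflM M i (Finsupp.single i 1) = reflM M j (Finsupp.single i 1) := by
    rw [← h1, ← h2, hij]
  unfold reflM at h3
  rw [reflection_apply, reflection_apply] at h3
  have h4 := congrArg (fun z : B →₀ ℝ => z i) h3
  simp [corootM_single, cosM_self, hne] at h4

end Pool.Agent.Lib.P9f173d
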