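import Pool.Agent.Lib.P9f173d.Cox2

/-!
Exactness of the antisymmetric complex.
-/

namespace Pool.Agent.Lib.P9f173d

open CoxeterSystem

section sgn

variable {B W : Type*} [Group W] {M : CoxeterMatrix B} (cs : CoxeterSystem M W)

/-- The sign character. -/
noncomputable def sgn (w : W) : ℂ := (-1) ^ cs.length w

theorem sgn_mul (v w : W) : sgn cs (v * w) = sgn cs v * sgn cs w := by
  unfold sgn
  rw [← pow_add, neg_one_pow_eq_pow_mod_two, neg_one_pow_eq_pow_mod_two (n := cs.length v + _),
    cs.length_mul_mod_two]

theorem sgn_simple (b : B) : sgn cs (cs.simple b) = -1 := by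
  simp [sgn]

theorem sgn_one : sgn cs 1 = 1 := by
  simp [sgn]

theorem sgn_inv (w : W) : sgn cs w⁻¹ = sgn cs w := by
  simp [sgn]

theorem sgn_mul_self (w : W) : sgn cs w * sgn cs w = 1 := by
  unfold sgn
  rw [← mul_pow]
  simp

end sgn

section slice

variable {B W : Type*} [Group W] {M : CoxeterMatrix B} (cs : CoxeterSystem M W)
variable {Y : Type*} (T : Y → Set B)

/-- Antisymmetric chains. -/
def AntiF (F : W →₀ (Y →₀ ℂ)) : Prop :=
  ∀ w y a, a ∈ T y → F (w * cs.simple a) y = -F w y

variable {T}

theorem AntiF.add {F F' : W →₀ (Y →₀ ℂ)} (h : AntiF cs T F) (h' : AntiF cs T F') :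
    AntiF cs T (F + F') := by
  intro w y a ha
  simp only [Finsupp.add_apply]
  rw [h w y a ha, h' w y a ha]
  ring

theorem AntiF.smul (c : ℂ) {F : W →₀ (Y →₀ ℂ)} (h : AntiF cs T F) : AntiF cs T (c • F) := by
  intro w y a ha
  simp only [Finsupp.smul_apply]
  rw [h w y a ha]
  simp

theorem AntiF.zero : AntiF cs T 0 := by
  intro w y a ha
  simp

theorem AntiF.sum {α : Type*} (s : Finset α) {F : α → (W →₀ (Y →₀ ℂ))}
    (h : ∀ i ∈ s, AntiF cs T (F i)) : AntiF cs T (∑ i ∈ s, F i) := by
  classical
  induction s using Finset.induction_on with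
  | empty => simpa using AntiF.zero cs
  | insert a s ha ih =>
    rw [Finset.sum_insert ha]
    exact AntiF.add cs (h a (by simp)) (ih (fun i hi => h i (by simp [hi])))

open Classical in
/-- Antisymmetrisation over a coset. -/
noncomputable def spread (w : W) (S : Set B) (hS : Finite (WT cs S)) (x : Y →₀ ℂ) :
    W →₀ (Y →₀ ℂ) :=
  Finsupp.ofSupportFinite (fun u => if w⁻¹ * u ∈ WT cs S then sgn cs (w⁻¹ * u) • x else 0) (by
    have : (Set.range fun v : WT cs S => w * (v : W)).Finite := Set.finite_range _
    apply this.subset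
    intro u hu
    rw [Function.mem_support] at hu
    split_ifs at hu with h
    · exact ⟨⟨_, h⟩, by simp⟩
    · exact absurd rfl hu)

open Classical in
theorem spread_apply (w : W) (S : Set B) (hS : Finite (WT cs S)) (x : Y →₀ ℂ) (u : W) :
    spread cs w S hS x u = if w⁻¹ * u ∈ WT cs S then sgn cs (w⁻¹ * u) • x else 0 := rfl

theorem spread_anti (w : W) (S : Set B) (hS : Finite (WT cs S)) (x : Y →₀ ℂ)
    (hx : ∀ y, x y ≠ 0 → T y ⊆ S) : AntiF cs T (spread cs w S hS x) := by
  intro u y a ha
  by_cases hy : x y = 0
  · rw [spread_apply, spread_apply]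
    split_ifs <;> simp [hy]
  · have haS : a ∈ S := hx y hy ha
    have h1 := simple_mem_WT cs haS
    have e : w⁻¹ * (u * cs.simple a) = (w⁻¹ * u) * cs.simple a := by group
    rw [spread_apply, spread_apply, e]
    by_cases hm : w⁻¹ * u ∈ WT cs S
    · rw [if_pos hm, if_pos (mul_mem hm h1), sgn_mul, sgn_simple]
      simp
    · rw [if_neg hm, if_neg]
      · simp
      · intro h
        apply hm
        have := mul_mem h (inv_mem h1)
        simpa using this

theorem map_spread (w : W) (S : Set B) (hS : Finite (WT cs S)) (x : Y →₀ ℂ)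
    (β : (Y →₀ ℂ) →ₗ[ℂ] (Y →₀ ℂ)) (u : W) :
    β (spread cs w S hS x u) = spread cs w S hS (β x) u := by
  rw [spread_apply, spread_apply]
  split_ifs
  · rw [map_smul]
  · rw [map_zero]

/-- The total augmentation. -/
noncomputable def taug (ε : (Y →₀ ℂ) →ₗ[ℂ] ℂ) : (W →₀ (Y →₀ ℂ)) →ₗ[ℂ] ℂ :=
  Finsupp.lsum ℂ (fun _ => ε)

theorem taug_apply (ε : (Y →₀ ℂ) →ₗ[ℂ] ℂ) (F : W →₀ (Y →₀ ℂ)) :
    taug ε F = F.sum (fun _ x => ε x) := rfl

/-- The total boundary. -/
noncomputable def tbd (β : (Y →₀ ℂ) →ₗ[ℂ] (Y →₀ ℂ)) : (W →₀ (Y →₀ ℂ)) →ₗ[ℂ] (W →₀ (Y →₀ ℂ)) :=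
  Finsupp.mapRange.linearMap β

theorem tbd_apply (β : (Y →₀ ℂ) →ₗ[ℂ] (Y →₀ ℂ)) (F : W →₀ (Y →₀ ℂ)) (w : W) :
    tbd β F w = β (F w) := rfl

/-- The augmentation kills boundaries of antisymmetric chains. -/
theorem taug_tbd {β : (Y →₀ ℂ) →ₗ[ℂ] (Y →₀ ℂ)} {ε : (Y →₀ ℂ) →ₗ[ℂ] ℂ}
    (hκ : ∀ y, T y = ∅ → ε (β (Finsupp.single y 1)) = 0) {F : W →₀ (Y →₀ ℂ)}
    (hF : AntiF cs T F) : taug ε (tbd β F) = 0 := by
  classical
  have e0 : (taug ε : (W →₀ (Y →₀ ℂ)) →ₗ[ℂ] ℂ) ∘ₗ tbd β = taug (ε ∘ₗ β) := by
    ext w y
    simp [taug, tbd]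
  have e1 : taug ε (tbd β F) = taug (ε ∘ₗ β) F := congrArg (fun K => K F) e0
  rw [e1]
  set κ := ε ∘ₗ β with hκ'
  -- expand over the basis of `Y`
  set s : Finset Y := F.support.biUnion (fun w => (F w).support) with hs
  have e2 : ∀ w, κ (F w) = ∑ y ∈ s, F w y * κ (Finsupp.single y 1) := by
    intro w
    have h1 : F w = ∑ y ∈ s, F w y • Finsupp.single y (1 : ℂ) := by
      ext z
      rw [Finsupp.finsetSum_apply]
      by_cases hz : z ∈ s
      · rw [Finset.sum_eq_single z]
        · simp
        · intro b _ hb
          simp [Finsupp.single_apply, hb]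
        · intro h; exact absurd hz h
      · have : F w z = 0 := by
          by_contra hne
          apply hz
          rw [hs, Finset.mem_biUnion]
          refine ⟨w, ?_, ?_⟩
          · rw [Finsupp.mem_support_iff]
            intro h0
            rw [h0] at hne
            simp at hne
          · rwa [Finsupp.mem_support_iff]
        rw [this]
        symm
        apply Finset.sum_eq_zero
        intro b hb
        have : b ≠ z := by rintro rfl; exact hz hb
        simp [this]
    conv_lhs => rw [h1]
    rw [map_sum]
    apply Finset.sum_congr rfl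
    intro y _
    rw [map_smul, smul_eq_mul]
  rw [taug_apply, Finsupp.sum]
  simp_rw [e2]
  rw [Finset.sum_comm]
  apply Finset.sum_eq_zero
  intro y _
  rw [← Finset.sum_mul]
  by_cases hy : T y = ∅
  · have := hκ y hy
    have h2 : κ (Finsupp.single y 1) = 0 := this
    rw [h2, mul_zero]
  · obtain ⟨a, ha⟩ := Set.nonempty_iff_ne_empty.mpr hy
    have h0 : ∑ w ∈ F.support, F w y = 0 := by
      have h1 : ∑ w ∈ F.support, F w y = ∑ w ∈ F.support.image (· * cs.simple a), F w y := by
        have hsup : ∀ s : Finset W, (∀ w, F w y ≠ 0 → w ∈ s) →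
            ∑ w ∈ s, F w y = ∑ᶠ w, F w y := by
          intro s hs
          rw [finsum_eq_sum_of_support_subset]
          intro w hw
          exact hs w hw
        rw [hsup, hsup]
        · intro w hw
          rw [Finset.mem_image]
          refine ⟨w * cs.simple a, ?_, by simp⟩
          rw [Finsupp.mem_support_iff]
          intro h0
          have := hF w y a ha
          rw [h0] at this
          simp only [Finsupp.coe_zero, Pi.zero_apply] at this
          apply hw
          linear_combination this
        · intro w hw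
          rw [Finsupp.mem_support_iff]
          intro h0
          rw [h0] at hw
          simp at hw
      rw [Finset.sum_image (by intro a _ b _ h; exact mul_right_cancel h)] at h1
      have h2 : ∑ w ∈ F.support, F (w * cs.simple a) y = -∑ w ∈ F.support, F w y := by
        rw [← Finset.sum_neg_distrib]
        apply Finset.sum_congr rfl
        intro w _
        exact hF w y a ha
      rw [h2] at h1
      have h3 : (2 : ℂ) * ∑ w ∈ F.support, F w y = 0 := by linear_combination h1
      exact (mul_eq_zero.mp h3).resolve_left (by norm_num)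
    rw [h0, zero_mul]

/-- Exactness of the antisymmetric complex. -/
theorem slice_exact {β : (Y →₀ ℂ) →ₗ[ℂ] (Y →₀ ℂ)} {ε : (Y →₀ ℂ) →ₗ[ℂ] ℂ}
    (hκ : ∀ y, T y = ∅ → ε (β (Finsupp.single y 1)) = 0)
    (hex : ∀ S : Set B, S.Nonempty → Finite (WT cs S) → ∀ x : Y →₀ ℂ,
      (∀ y, x y ≠ 0 → T y ⊆ S) → β x = 0 → ∃ z : Y →₀ ℂ, (∀ y, z y ≠ 0 → T y ⊆ S) ∧ β z = x)
    (hex0 : ∀ x : Y →₀ ℂ, (∀ y, x y ≠ 0 → T y = ∅) → β x = 0 → ε x = 0 →
      ∃ z : Y →₀ ℂ, (∀ y, z y ≠ 0 → T y = ∅) ∧ β z = x)
    {F : W →₀ (Y →₀ ℂ)} (hF : AntiF cs T F) (hd : tbd β F = 0) (he : taug ε F = 0) :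
    ∃ H : W →₀ (Y →₀ ℂ), AntiF cs T H ∧ tbd β H = F := by
  classical
  have key : ∀ n : ℕ, ∀ F : W →₀ (Y →₀ ℂ), AntiF cs T F → tbd β F = 0 → taug ε F = 0 →
      (∀ w, n < cs.length w → F w = 0) →
      ∃ H : W →₀ (Y →₀ ℂ), AntiF cs T H ∧ tbd β H = F := by
    intro n
    induction n with
    | zero =>
      intro F hF hd he hn
      have hF1 : F = Finsupp.single 1 (F 1) := by
        ext w : 1
        by_cases hw : w = 1
        · subst hw; simp
        · have : 0 < cs.length w := by
            rw [Nat.pos_iff_ne_zero, Ne, cs.length_eq_zero_iff]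
            exact hw
          rw [hn w this, Finsupp.single_eq_of_ne hw]
      have hlab : ∀ y, F 1 y ≠ 0 → T y = ∅ := by
        intro y hy
        by_contra hne
        obtain ⟨a, ha⟩ := Set.nonempty_iff_ne_empty.mpr hne
        have h1 := hF 1 y a ha
        rw [one_mul, hn (cs.simple a) (by simp)] at h1
        simp only [Finsupp.coe_zero, Pi.zero_apply] at h1
        apply hy
        linear_combination h1
      have hd1 : β (F 1) = 0 := by
        have := congrArg (fun K => K 1) hd
        simpa [tbd_apply] using this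
      have he1 : ε (F 1) = 0 := by
        rw [hF1, taug_apply, Finsupp.sum_single_index (by simp)] at he
        exact he
      obtain ⟨z, hz1, hz2⟩ := hex0 (F 1) hlab hd1 he1
      refine ⟨Finsupp.single 1 z, ?_, ?_⟩
      · intro w y a ha
        have hzy : z y = 0 := by
          by_contra hne
          rw [hz1 y hne] at ha
          exact ha
        have hall : ∀ u : W, (Finsupp.single 1 z : W →₀ (Y →₀ ℂ)) u y = 0 := by
          intro u
          by_cases hu : u = 1
          · subst hu; simpa using hzy
          · rw [Finsupp.single_eq_of_ne hu]; simp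
        rw [hall, hall]
        simp
      · rw [hF1]
        ext w : 1
        rw [tbd_apply]
        by_cases hw : w = 1
        · subst hw; simp [hz2]
        · rw [Finsupp.single_eq_of_ne hw, Finsupp.single_eq_of_ne hw, map_zero]
    | succ n ih =>
      intro F hF hd he hn
      set In : W → Set B := fun w => {a | cs.length (w * cs.simple a) < cs.length w} with hIn
      have hfin : ∀ w, Finite (WT cs (In w)) := fun w => WT_finite_of_descents cs (fun i hi => hi)
      set Sn : Finset W := F.support.filter (fun w => cs.length w = n + 1) with hSn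
      have hlab : ∀ w ∈ Sn, ∀ y, F w y ≠ 0 → T y ⊆ In w := by
        intro w hw y hy a ha
        rw [hSn, Finset.mem_filter] at hw
        by_contra hna
        have h1 := hF w y a ha
        have h2 : n + 1 < cs.length (w * cs.simple a) := by
          rcases cs.length_mul_simple w a with h | h
          · omega
          · exfalso
            apply hna
            show cs.length (w * cs.simple a) < cs.length w
            omega
        rw [hn _ h2] at h1
        simp only [Finsupp.coe_zero, Pi.zero_apply] at h1
        apply hy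
        linear_combination h1
      have hch : ∀ w : W, ∃ z : Y →₀ ℂ, w ∈ Sn → (∀ y, z y ≠ 0 → T y ⊆ In w) ∧ β z = F w := by
        intro w
        by_cases hw : w ∈ Sn
        · have hw' := hw
          rw [hSn, Finset.mem_filter] at hw'
          have hne : (In w).Nonempty := by
            have : w ≠ 1 := by
              rintro rfl
              simp at hw'
            obtain ⟨i, hi⟩ := cs.exists_rightDescent_of_ne_one this
            exact ⟨i, hi⟩
          have hdw : β (F w) = 0 := by
            have := congrArg (fun K => K w) hd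
            simpa [tbd_apply] using this
          obtain ⟨z, h1, h2⟩ := hex (In w) hne (hfin w) (F w) (hlab w hw) hdw
          exact ⟨z, fun _ => ⟨h1, h2⟩⟩
        · exact ⟨0, fun h => absurd h hw⟩
      choose z hz using hch
      set H : W →₀ (Y →₀ ℂ) := ∑ w ∈ Sn, spread cs w (In w) (hfin w) (z w) with hH
      have hHa : AntiF cs T H := AntiF.sum cs Sn (fun w hw => spread_anti cs _ _ _ _ (hz w hw).1)
      have hdH : tbd β H = ∑ w ∈ Sn, spread cs w (In w) (hfin w) (F w) := by
        rw [hH, map_sum]
        apply Finset.sum_congr rfl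
        intro w hw
        ext u : 1
        rw [tbd_apply, map_spread, (hz w hw).2]
      have hdHa : AntiF cs T (tbd β H) := by
        rw [hdH]
        exact AntiF.sum cs Sn (fun w hw => spread_anti cs _ _ _ _ (hlab w hw))
      have hddH : tbd β (tbd β H) = 0 := by
        rw [hdH, map_sum]
        apply Finset.sum_eq_zero
        intro w hw
        ext u : 1
        have hdw : β (F w) = 0 := by
          have := congrArg (fun K => K w) hd
          simpa [tbd_apply] using this
        rw [tbd_apply, map_spread, hdw, spread_apply]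
        split_ifs <;> simp
      obtain ⟨H', k1, k2⟩ := ih (F + (-1 : ℂ) • tbd β H)
        (AntiF.add cs hF (AntiF.smul cs (-1) hdHa))
        (by
          rw [map_add, map_smul, hd, hddH]
          ext w y
          simp)
        (by rw [map_add, map_smul, he, taug_tbd cs hκ hHa, smul_zero, add_zero])
        (by
          intro u hu
          rw [Finsupp.add_apply, Finsupp.smul_apply, hdH, Finsupp.finsetSum_apply]
          have hterm : ∀ w ∈ Sn, w ≠ u → spread cs w (In w) (hfin w) (F w) u = 0 := by
            intro w hw hwu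
            rw [spread_apply, if_neg]
            intro hmem
            have h1 := length_mul_of_descents' cs (T := In w) (w := w) (fun i hi => hi) hmem
            rw [mul_inv_cancel_left] at h1
            rw [hSn, Finset.mem_filter] at hw
            have h2 : cs.length (w⁻¹ * u) ≠ 0 := by
              rw [Ne, cs.length_eq_zero_iff]
              intro h3
              apply hwu
              have := congrArg (fun t => w * t) h3
              simpa using this.symm
            omega
          by_cases huS : u ∈ Sn
          · rw [Finset.sum_eq_single u (fun w hw hwu => hterm w hw hwu)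
              (fun h => absurd huS h), spread_apply, if_pos (by simp)]
            simp [sgn_one]
          · rw [Finset.sum_eq_zero (fun w hw => hterm w hw (by rintro rfl; exact huS hw)),
              smul_zero, add_zero]
            by_cases hun : n + 1 < cs.length u
            · exact hn u hun
            · by_contra hne
              apply huS
              rw [hSn, Finset.mem_filter, Finsupp.mem_support_iff]
              exact ⟨hne, by omega⟩)
      refine ⟨H + H', AntiF.add cs hHa k1, ?_⟩
      rw [map_add, k2]
      ext w y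
      simp
  obtain ⟨n, hn⟩ : ∃ n, ∀ w ∈ F.support, cs.length w ≤ n :=
    ⟨F.support.sup cs.length, fun w hw => Finset.le_sup hw⟩
  refine key n F hF hd he ?_
  intro w hw
  by_contra hne
  have := hn w (Finsupp.mem_support_iff.mpr hne)
  omega

end slice

end Pool.Agent.Lib.P9f173d
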