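import Pool.Agent.Lib.P9f173d.Rat
import Pool.Agent.Lib.P9f173d.Slice
import Pool.Agent.Lib.P9f173d.CStar

/-!
The antisymmetric complex over the extended Coxeter group, its exactness, and the
connection with the Hecke operators at parameter one.
-/

namespace Pool.Agent.Lib.P9f173d

open CoxeterSystem LinearMap

open SemidirectProduct (inl inr)

theorem coeff_mul_mapDomain {G X : Type*} [Group G] [Group X] (j : G →* X)
    (x : MonoidAlgebra ℂ X) (a : MonoidAlgebra ℂ G) (y : X) :
    (x * MonoidAlgebra.mapDomainRingHom ℂ j a).coeff y =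
      ∑ h ∈ a.coeff.support, x.coeff (y * (j h)⁻¹) * a.coeff h := by
  classical
  have e1 : ∀ b : MonoidAlgebra ℂ X, (x * b).coeff y =
      b.coeff.sum fun g r => x.coeff (y * g⁻¹) * r := fun b => coeff_mul_group x b y
  rw [e1]
  have e2 : (MonoidAlgebra.mapDomainRingHom ℂ j a).coeff = Finsupp.mapDomain j a.coeff := rfl
  rw [e2, Finsupp.sum_mapDomain_index]
  · rfl
  · intro b
    rw [mul_zero]
  · intro b r s
    rw [mul_add]

section

variable {B W G ι : Type*} [Group W] [Group G] [MulAction G B] [Fintype ι] [DecidableEq ι]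
  {D : HData B W G ι} (E : CData D)

/-- The labels of the cells of the extended complex. -/
def labT (D : HData B W G ι) (p : G × ι) : Set B := (fun b => p.1 • b) '' D.T p.2

/-- Augmentation and exactness data. -/
structure AData where
  /-- weights of the augmentation -/
  a : ι → ℂ
  a_deg : ∀ c, a c ≠ 0 → E.deg c = 0
  a_bd : ∀ c, D.T c = ∅ → ∑ c', eps (E.coef c c') * a c' = 0
  a_one : ∃ F : G × ι →₀ ℂ, (∀ p, F p ≠ 0 → labT D p = ∅) ∧ augm a F = 1
  ex : ∀ S : Set B, S.Nonempty → Finite (WT D.cs S) → ∀ x : G × ι →₀ ℂ,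
    (∀ y, x y ≠ 0 → labT D y ⊆ S) → mbd E.coef x = 0 →
      ∃ z : G × ι →₀ ℂ, (∀ y, z y ≠ 0 → labT D y ⊆ S) ∧ mbd E.coef z = x
  ex0 : ∀ x : G × ι →₀ ℂ, (∀ y, x y ≠ 0 → labT D y = ∅) → mbd E.coef x = 0 → augm a x = 0 →
      ∃ z : G × ι →₀ ℂ, (∀ y, z y ≠ 0 → labT D y = ∅) ∧ mbd E.coef z = x

namespace CData

/-- The boundary matrix over the extended group. -/
noncomputable def coefX (c c' : ι) : MonoidAlgebra ℂ D.X :=
  MonoidAlgebra.mapDomainRingHom ℂ (inr : G →* D.X) (E.coef c c')

theorem mbdX_apply (F : D.X × ι →₀ ℂ) (x : D.X) (c' : ι) : mbd E.coefX F (x, c') =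
    ∑ c, ∑ g ∈ (E.coef c c').coeff.support, F (x * (inr g)⁻¹, c) * (E.coef c c').coeff g := by
  rw [mbd_eq, rowE_symm_apply, vm_apply, MonoidAlgebra.coeff_sum, Finsupp.finsetSum_apply]
  apply Finset.sum_congr rfl
  intro c _
  rw [coefX, coeff_mul_mapDomain]
  rfl

theorem coefX_deg (c c' : ι) (h : E.coefX c c' ≠ 0) : E.deg c = E.deg c' + 1 := by
  apply E.deg_coef
  rintro h0
  apply h
  rw [coefX, h0, map_zero]

theorem coefX_sq (c c'' : ι) : ∑ c', E.coefX c c' * E.coefX c' c'' = 0 := by
  have := congrArg (MonoidAlgebra.mapDomainRingHom ℂ (inr : G →* D.X)) (E.sq c c'')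
  rw [map_sum, map_zero] at this
  simp only [map_mul] at this
  exact this

end CData

/-- Antisymmetric finitely supported functions. -/
def aS (D : HData B W G ι) : Submodule ℂ (D.X × ι →₀ ℂ) where
  carrier := {F | ∀ (x : D.X) (c : ι) (b : B), b ∈ D.T c →
    F (x * inl (D.cs.simple b), c) = -F (x, c)}
  add_mem' := by
    intro F H hF hH x c b hb
    simp only [Finsupp.add_apply]
    rw [hF x c b hb, hH x c b hb]
    ring
  zero_mem' := by
    intro x c b hb
    simp
  smul_mem' := by
    intro r F hF x c b hb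
    simp only [Finsupp.smul_apply]
    rw [hF x c b hb]
    simp

theorem aS_WT {F : D.X × ι →₀ ℂ} (hF : F ∈ aS D) (x : D.X) (c : ι) :
    ∀ v ∈ WT D.cs (D.T c), F (x * inl v, c) = sgn D.cs v * F (x, c) := by
  refine WT_induction_right D.cs
    (p := fun v => F (x * inl v, c) = sgn D.cs v * F (x, c)) ?_ ?_
  · simp [sgn_one]
  · intro v hv b hb _ ih
    have := hF (x * inl v) c b hb
    rw [mul_assoc, ← map_mul] at this
    rw [this, ih, sgn_mul, sgn_simple]
    ring

theorem mem_aS_iff_slice (F : D.X × ι →₀ ℂ) : F ∈ aS D ↔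
    ∀ (w : W) (g : G) (c : ι) (a : B), a ∈ labT D (g, c) →
      F (⟨w * D.cs.simple a, g⟩, c) = -F (⟨w, g⟩, c) := by
  constructor
  · rintro hF w g c a ⟨b, hb, rfl⟩
    have := hF ⟨w, g⟩ c b hb
    have e : (⟨w, g⟩ : D.X) * inl (D.cs.simple b) = ⟨w * D.cs.simple (g • b), g⟩ := by
      ext
      · simp [D.hφ]
      · simp
    rw [e] at this
    exact this
  · intro h x c b hb
    have := h x.left x.right c (x.right • b) ⟨b, hb, rfl⟩
    have e : x * inl (D.cs.simple b) = (⟨x.left * D.cs.simple (x.right • b), x.right⟩ : D.X) := by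
      ext
      · simp [D.hφ]
      · simp
    rw [e]
    exact this

/-- Slices. -/
noncomputable def slE (D : HData B W G ι) : (D.X × ι →₀ ℂ) ≃ₗ[ℂ] (W →₀ (G × ι →₀ ℂ)) :=
  (Finsupp.domLCongr (M := ℂ) (R := ℂ)
    ((SemidirectProduct.equivProd.prodCongr (Equiv.refl ι)).trans
      (Equiv.prodAssoc W G ι))).trans (Finsupp.curryLinearEquiv ℂ)

theorem slE_apply (F : D.X × ι →₀ ℂ) (w : W) (g : G) (c : ι) :
    slE D F w (g, c) = F (⟨w, g⟩, c) := by
  unfold slE
  rw [LinearEquiv.trans_apply]
  rfl

theorem slE_mbd (F : D.X × ι →₀ ℂ) : slE D (mbd E.coefX F) = tbd (mbd E.coef) (slE D F) := by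
  ext w ⟨g, c'⟩
  rw [slE_apply, E.mbdX_apply, tbd_apply, mbd_apply]
  apply Finset.sum_congr rfl
  intro c _
  apply Finset.sum_congr rfl
  intro h _
  rw [slE_apply]
  congr 3
  ext
  · simp
  · simp

theorem slE_aS (F : D.X × ι →₀ ℂ) : F ∈ aS D ↔ AntiF D.cs (labT D) (slE D F) := by
  rw [mem_aS_iff_slice]
  constructor
  · rintro h w ⟨g, c⟩ a ha
    rw [slE_apply, slE_apply]
    exact h w g c a ha
  · intro h w g c a ha
    have := h w (g, c) a ha
    rw [slE_apply, slE_apply] at this
    exact this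

theorem augm_slE (a : ι → ℂ) (F : D.X × ι →₀ ℂ) :
    augm a F = taug (augm a) (slE D F) := by
  have : augm a = taug (augm a) ∘ₗ (slE D).toLinearMap := by
    apply Finsupp.lhom_ext'
    rintro ⟨⟨w, g⟩, c⟩
    ext
    simp only [coe_comp, Function.comp_apply, Finsupp.lsingle_apply, LinearEquiv.coe_coe]
    rw [augm_single]
    have e : slE D (Finsupp.single ((⟨w, g⟩ : D.X), c) (1 : ℂ)) =
        Finsupp.single w (Finsupp.single (g, c) (1 : ℂ)) := by
      classical
      ext w' ⟨g', c'⟩
      rw [slE_apply]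
      by_cases hw : w' = w
      · subst hw
        rw [Finsupp.single_eq_same]
        by_cases hg : (g', c') = (g, c)
        · obtain ⟨rfl, rfl⟩ := Prod.mk.inj hg
          simp
        · rw [Finsupp.single_eq_of_ne hg, Finsupp.single_eq_of_ne]
          intro h
          apply hg
          have h1 := (Prod.mk.inj h).1
          have h2 := (Prod.mk.inj h).2
          have h3 := congrArg SemidirectProduct.right h1
          simp only at h3
          rw [h3, h2]
      · rw [Finsupp.single_eq_of_ne hw, Finsupp.single_eq_of_ne]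
        · simp
        · intro h
          apply hw
          have h1 := (Prod.mk.inj h).1
          exact congrArg SemidirectProduct.left h1
    rw [e, taug_apply, Finsupp.sum_single_index (by simp), augm_single]
  exact congrArg (fun T => T F) this

theorem mbd_mem_aS {F : D.X × ι →₀ ℂ} (hF : F ∈ aS D) : mbd E.coefX F ∈ aS D := by
  intro x c' b hb
  rw [E.mbdX_apply, E.mbdX_apply, ← Finset.sum_neg_distrib]
  apply Finset.sum_congr rfl
  intro c _
  rw [← Finset.sum_neg_distrib]
  apply Finset.sum_congr rfl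
  intro g hg
  have hg' : (E.coef c c').coeff g ≠ 0 := by simpa using hg
  have hb' := E.label c c' g hg' b hb
  have e1 : (x * inl (D.cs.simple b) * (inr g)⁻¹ : D.X) =
      x * (inr g)⁻¹ * inl (D.cs.simple (g • b)) := by
    rw [mul_assoc, mul_assoc]
    congr 1
    ext
    · simp [← D.hφ]
    · simp
  rw [e1, hF _ c _ hb']
  ring

theorem gpr_mem_aS {F : D.X × ι →₀ ℂ} (hF : F ∈ aS D) (k : ℕ) : gpr E.deg k F ∈ aS D := by
  intro x c b hb
  rw [gpr_apply, gpr_apply]
  simp only
  split_ifs
  · exact hF x c b hb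
  · simp

theorem prep_mem_aS {F : D.X × ι →₀ ℂ} (hF : F ∈ aS D) (y : D.X) :
    prep (lact D.X ι) y F ∈ aS D := by
  intro x c b hb
  rw [prep_lact_apply, prep_lact_apply, ← mul_assoc]
  exact hF _ c b hb

/-- The representation on antisymmetric functions. -/
noncomputable def ρS (D : HData B W G ι) : Representation ℂ D.X (aS D) where
  toFun y := (prep (lact D.X ι) y).restrict (fun _ hF => prep_mem_aS hF y)
  map_one' := by
    ext F p
    simp
  map_mul' x y := by
    ext F p
    simp

theorem ρS_coe (y : D.X) (F : aS D) : ((ρS D y F : aS D) : D.X × ι →₀ ℂ) =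
    prep (lact D.X ι) y (F : D.X × ι →₀ ℂ) := rfl

/-- The antisymmetric complex. -/
noncomputable def dCx (A : AData E) {Δ : Type*} [Group Δ] (α : Δ →* D.X) : Cx Δ where
  V := aS D
  ρ := rrep (ρS D) α
  d := (mbd E.coefX).restrict (fun _ hF => mbd_mem_aS E hF)
  e := fun k => (gpr E.deg k).restrict (fun _ hF => gpr_mem_aS E hF k)
  ε := augm A.a ∘ₗ (aS D).subtype
  bd := Finset.univ.sup E.deg
  e_idem := by
    intro k v
    ext p
    simp only [restrict_coe_apply, gpr_apply]
    split_ifs <;> rfl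
  e_orth := by
    intro k l v hkl
    ext p
    simp only [restrict_coe_apply, gpr_apply]
    split_ifs with h1 h2
    · exact absurd (h1.symm.trans h2) hkl
    · rfl
    · rfl
  e_sum := by
    intro v
    ext p
    simp only [Submodule.coe_sum, restrict_coe_apply, Finsupp.finsetSum_apply, gpr_apply]
    rw [Finset.sum_ite_eq, if_pos]
    rw [Finset.mem_range]
    have : E.deg p.2 ≤ Finset.univ.sup E.deg := Finset.le_sup (Finset.mem_univ p.2)
    omega
  d_e := by
    intro k v
    ext1
    exact mbd_gpr E.coefX_deg k (v : D.X × ι →₀ ℂ)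
  d_e0 := by
    intro v
    ext1
    exact mbd_gpr0 E.coefX_deg (v : D.X × ι →₀ ℂ)
  d_d := by
    intro v
    ext1
    exact mbd_mbd E.coefX_sq (v : D.X × ι →₀ ℂ)
  ε_d := by
    intro v
    show augm A.a (mbd E.coefX (v : D.X × ι →₀ ℂ)) = 0
    rw [augm_slE, slE_mbd]
    apply taug_tbd D.cs (T := labT D)
    · rintro ⟨g, c⟩ hy
      have hc : D.T c = ∅ := by
        have : (fun b : B => g • b) '' D.T c = ∅ := hy
        simpa using this
      rw [augm_eq, mbd_eq, LinearEquiv.apply_symm_apply, ← A.a_bd c hc]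
      apply Finset.sum_congr rfl
      intro c' _
      rw [vm_apply]
      simp_rw [rowE_single]
      rw [Finset.sum_eq_single c]
      · rw [if_pos rfl, eps_mul, eps_single, one_mul]
      · intro c'' _ h
        rw [if_neg h, zero_mul]
      · simp
    · exact (slE_aS _).mp v.2
  ε_e := by
    intro k v hk
    show augm A.a (gpr E.deg k (v : D.X × ι →₀ ℂ)) = 0
    rw [augm_eq]
    apply Finset.sum_eq_zero
    intro c _
    by_cases hc : A.a c = 0
    · rw [hc, mul_zero]
    · have h0 := A.a_deg c hc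
      have : rowE (gpr E.deg k (v : D.X × ι →₀ ℂ)) c = 0 := by
        apply MonoidAlgebra.coeff_injective
        ext x
        rw [rowE_coeff, gpr_apply, if_neg]
        · rfl
        · simp only
          omega
      rw [this, map_zero, zero_mul]
  ρ_d := by
    intro γ v
    ext1
    exact mbd_eqv E.coefX (α γ) (v : D.X × ι →₀ ℂ)
  ρ_e := by
    intro k γ v
    ext1
    exact gpr_eqv E.deg k (α γ) (v : D.X × ι →₀ ℂ)
  ρ_ε := by
    intro γ v
    exact augm_eqv A.a (α γ) (v : D.X × ι →₀ ℂ)

theorem dCx_exact (A : AData E) {Δ : Type*} [Group Δ] (α : Δ →* D.X) : (dCx E A α).Exact := by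
  refine ⟨?_, ?_⟩
  · rintro ⟨v, hv⟩ h1 h2
    have h1' : mbd E.coefX v = 0 := congrArg Subtype.val h1
    have h2' : augm A.a v = 0 := h2
    obtain ⟨H, k1, k2⟩ := slice_exact D.cs (T := labT D) (β := mbd E.coef) (ε := augm A.a)
      (by
        rintro ⟨g, c⟩ hy
        have hc : D.T c = ∅ := by
          have : (fun b : B => g • b) '' D.T c = ∅ := hy
          simpa using this
        rw [augm_eq, mbd_eq, LinearEquiv.apply_symm_apply, ← A.a_bd c hc]
        apply Finset.sum_congr rfl
        intro c' _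
        rw [vm_apply]
        simp_rw [rowE_single]
        rw [Finset.sum_eq_single c]
        · rw [if_pos rfl, eps_mul, eps_single, one_mul]
        · intro c'' _ h
          rw [if_neg h, zero_mul]
        · simp) A.ex A.ex0
      (F := slE D v) ((slE_aS _).mp hv)
      (by rw [← slE_mbd, h1', map_zero]) (by rw [← augm_slE]; exact h2')
    have hmem : (slE D).symm H ∈ aS D := by
      rw [slE_aS, LinearEquiv.apply_symm_apply]
      exact k1
    refine ⟨⟨(slE D).symm H, hmem⟩, ?_⟩
    apply Subtype.ext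
    show mbd E.coefX ((slE D).symm H) = _
    apply (slE D).injective
    rw [slE_mbd, LinearEquiv.apply_symm_apply, k2]
  · obtain ⟨F, hF1, hF2⟩ := A.a_one
    have hmem : (slE D).symm (Finsupp.single 1 F) ∈ aS D := by
      rw [slE_aS, LinearEquiv.apply_symm_apply]
      intro w y b hb
      have hy : F y = 0 := by
        by_contra hne
        rw [hF1 y hne] at hb
        exact hb
      have hall : ∀ u : W, (Finsupp.single 1 F : W →₀ (G × ι →₀ ℂ)) u y = 0 := by
        intro u
        by_cases hu : u = 1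
        · subst hu; simpa using hy
        · rw [Finsupp.single_eq_of_ne hu]; simp
      rw [hall, hall]
      simp
    refine ⟨⟨(slE D).symm (Finsupp.single 1 F), hmem⟩, ?_⟩
    show augm A.a ((slE D).symm (Finsupp.single 1 F)) = 1
    rw [augm_slE, LinearEquiv.apply_symm_apply, taug_apply, Finsupp.sum_single_index (by simp)]
    exact hF2

end

end Pool.Agent.Lib.P9f173d
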