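import Pool.Agent.Lib.P9f173d.DCx

/-!
Projectivity of the antisymmetric complex and exactness of the Hecke complex at parameter one.
-/

namespace Pool.Agent.Lib.P9f173d

open CoxeterSystem LinearMap

open SemidirectProduct (inl inr)

section

variable {B W G ι : Type*} [Group W] [Group G] [MulAction G B] [Fintype ι] [DecidableEq ι]
  {D : HData B W G ι} (E : CData D)

/-- The antisymmetrisation. -/
noncomputable def Palg (D : HData B W G ι) : (D.X × ι →₀ ℂ) →ₗ[ℂ] (D.X × ι →₀ ℂ) :=
  Finsupp.linearCombination ℂ (fun p : D.X × ι => ∑ v : WT D.cs (D.T p.2),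
    (sgn D.cs (v : W) / Fintype.card (WT D.cs (D.T p.2))) •
      Finsupp.single (p.1 * inl (v : W), p.2) (1 : ℂ))

theorem Palg_apply (F : D.X × ι →₀ ℂ) (x : D.X) (c : ι) :
    Palg D F (x, c) = ∑ v : WT D.cs (D.T c),
      (sgn D.cs (v : W) / Fintype.card (WT D.cs (D.T c))) * F (x * inl (v : W), c) := by
  classical
  induction F using Finsupp.induction_linear with
  | zero => simp
  | add f g hf hg =>
    rw [map_add, Finsupp.add_apply, hf, hg, ← Finset.sum_add_distrib]
    apply Finset.sum_congr rfl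
    intro v _
    rw [Finsupp.add_apply, mul_add]
  | single p r =>
    obtain ⟨y, c0⟩ := p
    unfold Palg
    rw [Finsupp.linearCombination_single, Finsupp.smul_apply, Finsupp.finsetSum_apply]
    by_cases hc : c = c0
    · subst hc
      rw [smul_eq_mul, Finset.mul_sum, ← Equiv.sum_comp (Equiv.inv (WT D.cs (D.T c)))]
      apply Finset.sum_congr rfl
      intro v _
      simp only [Equiv.inv_apply, InvMemClass.coe_inv, sgn_inv]
      rw [Finsupp.smul_apply, smul_eq_mul]
      by_cases h : x * inl (v : W) = y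
      · rw [h, Finsupp.single_eq_same]
        have h2 : y * inl ((v : W)⁻¹) = x := by
          rw [← h, mul_assoc, ← map_mul]
          simp
        rw [h2, Finsupp.single_eq_same]
        ring
      · rw [Finsupp.single_eq_of_ne, Finsupp.single_eq_of_ne]
        · ring
        · intro h2
          exact h (Prod.mk.inj h2).1
        · intro h2
          apply h
          have h3 := (Prod.mk.inj h2).1
          rw [h3, mul_assoc, ← map_mul]
          simp
    · rw [Finset.sum_eq_zero, Finset.sum_eq_zero]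
      · simp
      · intro v _
        rw [Finsupp.single_eq_of_ne, mul_zero]
        intro h2
        exact hc (Prod.mk.inj h2).2
      · intro v _
        rw [Finsupp.smul_apply, Finsupp.single_eq_of_ne, smul_zero]
        intro h2
        exact hc (Prod.mk.inj h2).2

theorem Palg_mem (F : D.X × ι →₀ ℂ) : Palg D F ∈ aS D := by
  intro x c b hb
  rw [Palg_apply, Palg_apply]
  have hs := simple_mem_WT D.cs hb
  rw [← Equiv.sum_comp (Equiv.mulLeft (⟨D.cs.simple b, hs⟩ : WT D.cs (D.T c)))
    (fun v => (sgn D.cs (v : W) / Fintype.card (WT D.cs (D.T c))) *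
      F (x * inl (D.cs.simple b) * inl (v : W), c)), ← Finset.sum_neg_distrib]
  apply Finset.sum_congr rfl
  intro v _
  simp only [Equiv.coe_mulLeft, Subgroup.coe_mul]
  rw [sgn_mul, sgn_simple, mul_assoc x, ← map_mul, simple_mul_simple_cancel_left]
  ring

theorem Palg_of_mem {F : D.X × ι →₀ ℂ} (hF : F ∈ aS D) : Palg D F = F := by
  ext ⟨x, c⟩
  rw [Palg_apply]
  have h1 : ∀ v : WT D.cs (D.T c), (sgn D.cs (v : W) / Fintype.card (WT D.cs (D.T c))) *
      F (x * inl (v : W), c) = (Fintype.card (WT D.cs (D.T c)) : ℂ)⁻¹ * F (x, c) := by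
    intro v
    rw [aS_WT hF x c v v.2]
    have := sgn_mul_self D.cs (v : W)
    calc _ = (sgn D.cs (v : W) * sgn D.cs (v : W)) *
          ((Fintype.card (WT D.cs (D.T c)) : ℂ)⁻¹ * F (x, c)) := by ring
      _ = _ := by rw [this, one_mul]
  simp_rw [h1]
  rw [Finset.sum_const, Finset.card_univ, nsmul_eq_mul, ← mul_assoc, mul_inv_cancel₀, one_mul]
  exact_mod_cast Fintype.card_ne_zero

theorem Palg_eqv : Eqv (prep (lact D.X ι)) (prep (lact D.X ι)) (Palg D) := by
  intro y F
  ext ⟨x, c⟩
  rw [Palg_apply, prep_lact_apply, Palg_apply]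
  apply Finset.sum_congr rfl
  intro v _
  rw [prep_lact_apply, mul_assoc]

theorem dCx_proj (A : AData E) {Δ : Type*} [Group Δ] (α : Δ →* D.X)
    (hα : Function.Injective α) : Proj (dCx E A α).ρ := by
  have h1 : Proj (rrep (prep (lact D.X ι)) α) := proj_prep ((lact D.X ι).comp α) (by
    rintro γ ⟨x, c⟩ h
    have h1 : (α γ * x, c) = (x, c) := h
    have h2 : α γ * x = x := (Prod.mk.inj h1).1
    have h3 : α γ = 1 := by simpa using h2
    exact hα (by rw [h3, map_one]))
  have h2 : Eqv (M := aS D) (rrep (ρS D) α) (rrep (prep (lact D.X ι)) α) (aS D).subtype := by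
    intro γ n
    rfl
  let p : (D.X × ι →₀ ℂ) →ₗ[ℂ] (aS D) := (Palg D).codRestrict (aS D) Palg_mem
  have h3 : Eqv (N := aS D) (rrep (prep (lact D.X ι)) α) (rrep (ρS D) α) p := by
    intro γ m
    ext1
    exact Palg_eqv (α γ) m
  have h4 : ∀ n, p ((aS D).subtype n) = n := by
    intro n
    ext1
    exact Palg_of_mem n.2
  exact Proj.retract (N := aS D) h1 h2 h3 h4

/-- The embedding into the Hilbert space. -/
noncomputable def emb (J : Type*) : (J →₀ ℂ) →ₗ[ℂ] L2 J where
  toFun F := ⟨fun j => F j, (memℓp_zero (by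
    have : {i | F i ≠ 0} = (F.support : Set J) := by ext; simp
    rw [this]; exact Finset.finite_toSet _)).of_exponent_ge (by simp)⟩
  map_add' F H := by
    ext j
    rfl
  map_smul' r F := by
    ext j
    rfl

theorem emb_apply {J : Type*} (F : J →₀ ℂ) (j : J) : emb J F j = F j := rfl

theorem emb_single {J : Type*} [DecidableEq J] (j : J) (r : ℂ) :
    emb J (Finsupp.single j r) = r • dl j := by
  ext k
  rw [emb_apply, lp.coeFn_smul, Pi.smul_apply, dl_apply, Finsupp.single_apply, smul_eq_mul]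
  by_cases h : k = j
  · subst h; simp
  · rw [if_neg (Ne.symm h), if_neg h, mul_zero]

theorem dop_emb (F : D.X × ι →₀ ℂ) : E.dop (emb _ F) = emb _ (mbd E.coefX F) := by
  ext ⟨x, c'⟩
  rw [E.dop_apply, emb_apply, E.mbdX_apply]
  apply Finset.sum_congr rfl
  intro c _
  apply Finset.sum_congr rfl
  intro g _
  rw [emb_apply, map_inv, mul_comm]

theorem Pr_emb (hwt : ∀ w, D.wt w = 1) (F : D.X × ι →₀ ℂ) :
    D.Pr 1 (emb _ F) = emb _ (Palg D F) := by
  ext ⟨x, c⟩
  rw [D.Pr_apply, emb_apply, Palg_apply]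
  set a := pt D.cs (D.T c) (D.rr x) with ha
  have hxi : ∀ w : W, ((D.xi 1 w : ℝ) : ℂ) = sgn D.cs w := by
    intro w
    unfold HData.xi HData.wn sgn
    rw [hwt]
    simp
  have hSc : ((D.Sc 1 c : ℝ) : ℂ) = Fintype.card (WT D.cs (D.T c)) := by
    unfold HData.Sc HData.wn
    simp [hwt]
  rw [← Equiv.sum_comp (Equiv.mulLeft a)]
  apply Finset.sum_congr rfl
  intro v _
  simp only [Equiv.coe_mulLeft, Subgroup.coe_mul, inv_mul_cancel_left]
  rw [emb_apply]
  push_cast
  rw [hxi, hxi, hSc, sgn_mul, ← mul_assoc, sgn_mul_self, one_mul]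

end

end Pool.Agent.Lib.P9f173d
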