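import Mathlib

/-!
Operators on `ℓ²(J)` given by partial injections, and a trace lemma.
-/

namespace Pool.Agent.Lib.P9f173d

open scoped ComplexConjugate

/-- The Hilbert space of square-summable functions on `J`. -/
noncomputable abbrev L2 (J : Type*) := lp (fun _ : J => ℂ) 2

variable {J : Type*}

/-- The graph of a partial equivalence. -/
abbrev PGraph (e : J ≃. J) := {p : J × J // p.2 ∈ e p.1}

theorem pgraph_fst_inj (e : J ≃. J) : Function.Injective (fun p : PGraph e => p.1.1) := by
  rintro ⟨⟨a, b⟩, h⟩ ⟨⟨a', b'⟩, h'⟩ hab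
  simp only at hab
  subst hab
  simp only [Option.mem_def] at h h'
  rw [h] at h'
  simp at h'
  simp [h']

theorem pgraph_snd_inj (e : J ≃. J) : Function.Injective (fun p : PGraph e => p.1.2) := by
  rintro ⟨⟨a, b⟩, h⟩ ⟨⟨a', b'⟩, h'⟩ hab
  simp only at hab
  subst hab
  have := e.inj h h'
  subst this
  rfl

/-- Composition with a partial equivalence, extended by zero. -/
def pc (e : J ≃. J) (x : J → ℂ) (j : J) : ℂ := (e j).elim 0 x

theorem pc_graph (e : J ≃. J) (x : J → ℂ) (p : PGraph e) : pc e x p.1.1 = x p.1.2 := by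
  obtain ⟨⟨a, b⟩, h⟩ := p
  simp only [Option.mem_def] at h
  simp [pc, h]

theorem pc_eq_zero (e : J ≃. J) (x : J → ℂ) {j : J} (hj : j ∉ Set.range (fun p : PGraph e => p.1.1)) :
    pc e x j = 0 := by
  unfold pc
  rcases h : e j with _ | k
  · rfl
  · exact absurd ⟨⟨(j, k), h⟩, rfl⟩ hj

theorem pc_summable (e : J ≃. J) (x : L2 J) : Summable (fun j => ‖pc e x j‖ ^ (2 : ℝ)) := by
  have hx : Summable (fun j => ‖x j‖ ^ (2 : ℝ)) := by
    have := (lp.memℓp x).summable (by norm_num)
    simpa using this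
  have h1 : Summable (fun p : PGraph e => ‖x p.1.2‖ ^ (2 : ℝ)) :=
    hx.comp_injective (pgraph_snd_inj e)
  have h2 : (fun p : PGraph e => ‖x p.1.2‖ ^ (2 : ℝ)) =
      (fun j => ‖pc e x j‖ ^ (2 : ℝ)) ∘ (fun p : PGraph e => p.1.1) := by
    funext p
    simp only [Function.comp_apply, pc_graph]
  rw [h2] at h1
  refine ((pgraph_fst_inj e).summable_iff ?_).mp h1
  intro j hj
  rw [pc_eq_zero e _ hj]
  simp

theorem pc_tsum_le (e : J ≃. J) (x : L2 J) :
    ∑' j, ‖pc e x j‖ ^ (2 : ℝ) ≤ ∑' j, ‖x j‖ ^ (2 : ℝ) := by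
  have hx : Summable (fun j => ‖x j‖ ^ (2 : ℝ)) := by
    have := (lp.memℓp x).summable (by norm_num)
    simpa using this
  have h3 : ∑' j, ‖pc e x j‖ ^ (2 : ℝ) = ∑' p : PGraph e, ‖x p.1.2‖ ^ (2 : ℝ) := by
    rw [← (pgraph_fst_inj e).tsum_eq]
    · apply tsum_congr
      intro p
      rw [pc_graph]
    · intro j hj
      by_contra hn
      apply hj
      simp [pc_eq_zero e _ hn]
  rw [h3]
  exact (Summable.tsum_le_tsum_of_inj (fun p : PGraph e => p.1.2) (pgraph_snd_inj e)
    (fun c _ => by positivity) (fun p => le_rfl) (hx.comp_injective (pgraph_snd_inj e)) hx)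

/-- The operator on `ℓ²` attached to a partial equivalence. -/
noncomputable def opP (e : J ≃. J) : L2 J →L[ℂ] L2 J :=
  LinearMap.mkContinuous
    { toFun := fun x => ⟨pc e x, by
        apply memℓp_gen
        simpa using pc_summable e x⟩
      map_add' := by
        intro x y
        ext j
        simp only [lp.coeFn_add, Pi.add_apply]
        unfold pc
        rcases e j with _ | k <;> simp
      map_smul' := by
        intro a x
        ext j
        simp only [lp.coeFn_smul, Pi.smul_apply, RingHom.id_apply]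
        unfold pc
        rcases e j with _ | k <;> simp } 1 (by
    intro x
    rw [one_mul]
    have h1 := lp.norm_rpow_eq_tsum (p := 2) (by norm_num) x
    have h2 := lp.norm_rpow_eq_tsum (p := 2) (by norm_num)
      (⟨pc e x, by apply memℓp_gen; simpa using pc_summable e x⟩ : L2 J)
    have h3 := pc_tsum_le e x
    simp only [ENNReal.toReal_ofNat] at h1 h2
    have h4 : ‖(⟨pc e x, by apply memℓp_gen; simpa using pc_summable e x⟩ : L2 J)‖ ^ (2 : ℝ) ≤
        ‖x‖ ^ (2 : ℝ) := by
      rw [h1, h2]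
      exact h3
    exact (Real.rpow_le_rpow_iff (norm_nonneg _) (norm_nonneg _) (by norm_num)).mp h4)

theorem opP_apply (e : J ≃. J) (x : L2 J) (j : J) : opP e x j = (e j).elim 0 x := rfl

theorem opP_trans (e f : J ≃. J) : opP e ∘L opP f = opP (e.trans f) := by
  ext x j
  simp only [ContinuousLinearMap.comp_apply, opP_apply]
  rcases h : e j with _ | k
  · simp [PEquiv.trans, h]
  · simp [PEquiv.trans, h, opP_apply]

theorem opP_adjoint (e : J ≃. J) : (opP e).adjoint = opP e.symm := by
  symm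
  rw [ContinuousLinearMap.eq_adjoint_iff]
  intro x y
  rw [lp.inner_eq_tsum, lp.inner_eq_tsum]
  have h1 : ∑' j, inner ℂ (x j) (opP e y j) = ∑' p : PGraph e, inner ℂ (x p.1.1) (y p.1.2) := by
    rw [← (pgraph_fst_inj e).tsum_eq]
    · apply tsum_congr
      intro p
      have : opP e y p.1.1 = y p.1.2 := pc_graph e y p
      rw [this]
    · intro j hj
      by_contra hn
      apply hj
      have : opP e y j = 0 := pc_eq_zero e _ hn
      simp [this]
  have h2 : ∑' j, inner ℂ (opP e.symm x j) (y j) = ∑' p : PGraph e, inner ℂ (x p.1.1) (y p.1.2) := by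
    rw [← (pgraph_snd_inj e).tsum_eq]
    · apply tsum_congr
      rintro ⟨⟨a, b⟩, h⟩
      have h' : e.symm b = some a := by
        have := (e.mem_iff_mem).mpr h
        simpa using this
      simp [opP_apply, h']
    · intro j hj
      by_contra hn
      apply hj
      have : opP e.symm x j = 0 := by
        rw [opP_apply]
        rcases h : e.symm j with _ | k
        · rfl
        · exfalso
          apply hn
          exact ⟨⟨(k, j), (e.mem_iff_mem).mp h⟩, rfl⟩
      simp [this]
  rw [h1, h2]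

/-- The unit vector at `j`. -/
noncomputable def dl [DecidableEq J] (j : J) : L2 J := lp.single 2 j (1 : ℂ)

theorem dl_apply [DecidableEq J] (j k : J) : dl j k = if k = j then 1 else 0 := by
  unfold dl
  rw [lp.single_apply]
  by_cases h : k = j
  · subst h; simp
  · simp [h]

theorem inner_dl_left [DecidableEq J] (j : J) (x : L2 J) : inner ℂ (dl j) x = x j := by
  unfold dl
  rw [lp.inner_single_left]
  simp

theorem inner_dl_right [DecidableEq J] (j : J) (x : L2 J) : inner ℂ x (dl j) = conj (x j) := by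
  rw [← inner_conj_symm, inner_dl_left]

theorem opP_dl [DecidableEq J] (e : J ≃. J) (j k : J) (h : j ∈ e k) : opP e (dl j) = dl k := by
  ext i
  rw [opP_apply, dl_apply]
  simp only [Option.mem_def] at h
  rcases h' : e i with _ | l
  · simp only [Option.elim_none]
    rw [if_neg]
    rintro rfl
    rw [h] at h'
    simp at h'
  · simp only [Option.elim_some, dl_apply]
    by_cases hik : i = k
    · subst hik
      rw [h] at h'
      simp at h'
      simp [h']
    · rw [if_neg hik, if_neg]
      rintro rfl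
      exact hik (e.inj h' h)

theorem clm_ext_dl [DecidableEq J] {E : Type*} [NormedAddCommGroup E] [NormedSpace ℂ E]
    {A C : L2 J →L[ℂ] E} (h : ∀ j, A (dl j) = C (dl j)) : A = C := by
  ext x
  have hx : HasSum (fun j => lp.single 2 j (x j)) x := lp.hasSum_single (by norm_num) x
  have e : ∀ j, lp.single 2 j (x j) = x j • (dl j : L2 J) := by
    intro j
    ext k
    simp only [lp.coeFn_smul, Pi.smul_apply, dl_apply, lp.single_apply]
    by_cases h : k = j
    · subst h; simp
    · simp [h]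
  simp only [e] at hx
  have h1 := hx.mapL A
  have h2 := hx.mapL C
  simp only [map_smul, h] at h1 h2
  exact h1.unique h2

/-- The trace lemma. -/
theorem trace_comm {X ι : Type*} [Group X] [Fintype ι] [DecidableEq X] [DecidableEq ι]
    (Λ : X → (L2 (X × ι) →L[ℂ] L2 (X × ι)))
    (h1 : ∀ x c, Λ x (dl (1, c)) = dl (x, c))
    (h2 : ∀ x c, (Λ x).adjoint (dl (1, c)) = dl (x⁻¹, c))
    (P Q : L2 (X × ι) →L[ℂ] L2 (X × ι))
    (hP : ∀ x, P ∘L Λ x = Λ x ∘L P) (hQ : ∀ x, Q ∘L Λ x = Λ x ∘L Q) :
    ∑ c, inner ℂ (dl (1, c)) (P (Q (dl (1, c)))) = ∑ c, inner ℂ (dl (1, c)) (Q (P (dl (1, c)))) := by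
  have key : ∀ (P : L2 (X × ι) →L[ℂ] L2 (X × ι)), (∀ x, P ∘L Λ x = Λ x ∘L P) →
      ∀ (x : X) (c c' : ι), conj (P.adjoint (dl (1, c)) (x, c')) = P (dl (1, c')) (x⁻¹, c) := by
    intro P hP x c c'
    rw [← inner_dl_right, ← h1 x c', ContinuousLinearMap.adjoint_inner_left]
    have e1 : P (Λ x (dl (1, c'))) = Λ x (P (dl (1, c'))) := by
      have := congrArg (fun T => T (dl (1, c'))) (hP x)
      simpa using this
    rw [e1, ← ContinuousLinearMap.adjoint_inner_left, h2, inner_dl_left]
  have expand : ∀ (P Q : L2 (X × ι) →L[ℂ] L2 (X × ι)), (∀ x, P ∘L Λ x = Λ x ∘L P) →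
      ∑ c, inner ℂ (dl (1, c)) (P (Q (dl (1, c)))) =
        ∑' x : X, ∑ c, ∑ c', P (dl (1, c')) (x⁻¹, c) * Q (dl (1, c)) (x, c') := by
    intro P Q hP
    have hs : ∀ c, Summable (fun p : X × ι => P (dl (1, p.2)) (p.1⁻¹, c) * Q (dl (1, c)) p) := by
      intro c
      have := lp.summable_inner (𝕜 := ℂ) (P.adjoint (dl (1, c))) (Q (dl (1, c)))
      refine this.congr ?_
      rintro ⟨x, c'⟩
      rw [← key P hP x c c']
      simp [mul_comm]
    have h3 : ∀ c, inner ℂ (dl (1, c)) (P (Q (dl (1, c)))) =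
        ∑' x : X, ∑ c', P (dl (1, c')) (x⁻¹, c) * Q (dl (1, c)) (x, c') := by
      intro c
      rw [← ContinuousLinearMap.adjoint_inner_left, lp.inner_eq_tsum]
      have : ∀ p : X × ι, inner ℂ (P.adjoint (dl (1, c)) p) (Q (dl (1, c)) p) =
          P (dl (1, p.2)) (p.1⁻¹, c) * Q (dl (1, c)) p := by
        rintro ⟨x, c'⟩
        rw [← key P hP x c c']
        simp [mul_comm]
      simp_rw [this]
      rw [(hs c).tsum_prod]
      apply tsum_congr
      intro x
      rw [tsum_fintype]
    simp_rw [h3]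
    rw [← Summable.tsum_finsetSum]
    intro c _
    have h4 := (hs c).prod
    refine h4.congr ?_
    intro x
    rw [tsum_fintype]
  rw [expand P Q hP, expand Q P hQ]
  rw [← (Equiv.inv X).tsum_eq]
  apply tsum_congr
  intro x
  simp only [Equiv.inv_apply, inv_inv]
  rw [Finset.sum_comm]
  apply Finset.sum_congr rfl
  intro c _
  apply Finset.sum_congr rfl
  intro c' _
  ring

end Pool.Agent.Lib.P9f173d
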