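import Pool.Agent.Lib.P9f173d.Mat
import Pool.Agent.Lib.P9f173d.Ell2

/-!
The definitions used in the statements: the reduced group algebra, finite free
resolutions of the trivial module, and homology with coefficients in the reduced algebra.
-/

namespace Pool.Agent.Lib.P9f173d

section algebra

variable {Γ : Type*} [Group Γ] {A : Type*} [NormedRing A] [NormedAlgebra ℂ A]

/-- The norm closed algebra generated by a representation `ρ` of a group `Γ` in a normed
algebra: the closure of the image of the group algebra `ℂ[Γ]`.  When `ρ` is the left regular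
representation on `ℓ²(Γ)`, this is the reduced group algebra of `Γ`. -/
noncomputable def CRed (ρ : Γ →* A) : Subalgebra ℂ A :=
  (MonoidAlgebra.lift ℂ A Γ ρ).range.topologicalClosure

/-- The homomorphism from the integral group ring to the closed algebra. -/
noncomputable def toCRed (ρ : Γ →* A) : MonoidAlgebra ℤ Γ →+* CRed ρ :=
  (((MonoidAlgebra.lift ℂ A Γ ρ).codRestrict (CRed ρ)
    (fun x => Subalgebra.le_topologicalClosure _ ⟨x, rfl⟩) : MonoidAlgebra ℂ Γ →ₐ[ℂ] CRed ρ) :
      MonoidAlgebra ℂ Γ →+* CRed ρ).comp (MonoidAlgebra.mapRingHom Γ (Int.castRingHom ℂ))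

end algebra

/-- A finite free resolution of the trivial module `ℤ` over the group ring `ℤ[Γ]`, given by
a finite set of cells with dimensions and a boundary matrix.  The chain module is the free left
module on the cells, the boundary sends the cell `c` to the sum of `bd c c' • c'` over the cells
`c'`, and the augmentation sends the cell `c` to the integer `aug c`. -/
structure FreeRes (Γ : Type*) [Group Γ] where
  /-- the cells -/
  cell : Type
  [fin : Fintype cell]
  /-- the dimension of a cell -/
  dim : cell → ℕ
  /-- the boundary matrix -/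
  bd : cell → cell → MonoidAlgebra ℤ Γ
  /-- the augmentation -/
  aug : cell → ℤ
  bd_dim : ∀ c c', bd c c' ≠ 0 → dim c = dim c' + 1
  aug_dim : ∀ c, aug c ≠ 0 → dim c = 0
  bd_bd : ∀ c c'', ∑ c', bd c c' * bd c' c'' = 0
  aug_bd : ∀ c, ∑ c', eps (bd c c') * aug c' = 0
  aug_surj : ∃ x : cell → ℤ, ∑ c, x c * aug c = 1
  exact : ∀ x : cell → MonoidAlgebra ℤ Γ, (∀ c', ∑ c, x c * bd c c' = 0) →
    ∑ c, eps (x c) * aug c = 0 → ∃ y : cell → MonoidAlgebra ℤ Γ, ∀ c', ∑ c, y c * bd c c' = x c'

attribute [instance] FreeRes.fin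

namespace FreeRes

variable {Γ : Type*} [Group Γ] (R : FreeRes Γ) {A : Type*} [NormedRing A] [NormedAlgebra ℂ A]
  (ρ : Γ →* A)

/-- The boundary operator of the chain complex with coefficients in the closed algebra. -/
noncomputable def bdRed : (R.cell → CRed ρ) →ₗ[CRed ρ] (R.cell → CRed ρ) where
  toFun x c' := ∑ c, x c * toCRed ρ (R.bd c c')
  map_add' x y := by
    funext c'
    simp only [Pi.add_apply, add_mul, Finset.sum_add_distrib]
  map_smul' r x := by
    funext c'
    simp only [Pi.smul_apply, RingHom.id_apply, smul_eq_mul, Finset.mul_sum, mul_assoc]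

theorem bdRed_apply (x : R.cell → CRed ρ) (c' : R.cell) :
    R.bdRed ρ x c' = ∑ c, x c * toCRed ρ (R.bd c c') := rfl

/-- The chains of degree `i` with coefficients in the closed algebra. -/
def chRed (i : ℕ) : Submodule (CRed ρ) (R.cell → CRed ρ) where
  carrier := {x | ∀ c, R.dim c ≠ i → x c = 0}
  add_mem' := by
    intro x y hx hy c hc
    rw [Pi.add_apply, hx c hc, hy c hc, add_zero]
  zero_mem' := fun c _ => rfl
  smul_mem' := by
    intro r x hx c hc
    rw [Pi.smul_apply, hx c hc, smul_zero]

/-- The cycles of degree `i`. -/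
noncomputable def cyRed (i : ℕ) : Submodule (CRed ρ) (R.cell → CRed ρ) :=
  R.chRed ρ i ⊓ LinearMap.ker (R.bdRed ρ)

/-- The boundaries of degree `i`. -/
noncomputable def boRed (i : ℕ) : Submodule (CRed ρ) (R.cell → CRed ρ) :=
  (R.chRed ρ (i + 1)).map (R.bdRed ρ)

/-- The homology of degree `i` with coefficients in the closed algebra:
cycles modulo boundaries. -/
abbrev HRed (i : ℕ) : Type _ := R.cyRed ρ i ⧸ (R.boRed ρ i).submoduleOf (R.cyRed ρ i)

end FreeRes

end Pool.Agent.Lib.P9f173d
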