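import Pool.Agent.Lib.P9f173d.Lift

/-!
Permutation modules of free actions, and change of groups.
-/

namespace Pool.Agent.Lib.P9f173d

open LinearMap

section perm

variable {Γ Y : Type*} [Group Γ]

/-- The permutation representation. -/
noncomputable def prep (a : Γ →* Equiv.Perm Y) : Representation ℂ Γ (Y →₀ ℂ) where
  toFun γ := Finsupp.lmapDomain ℂ ℂ (a γ)
  map_one' := by
    ext y
    simp
  map_mul' γ δ := by
    ext y
    simp

theorem prep_single (a : Γ →* Equiv.Perm Y) (γ : Γ) (y : Y) (c : ℂ) :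
    prep a γ (Finsupp.single y c) = Finsupp.single (a γ y) c := by
  simp [prep]

theorem prep_apply (a : Γ →* Equiv.Perm Y) (γ : Γ) (f : Y →₀ ℂ) (y : Y) :
    prep a γ f y = f (a γ⁻¹ y) := by
  have : prep a γ f y = Finsupp.mapDomain (a γ) f y := rfl
  rw [this, ← Finsupp.equivMapDomain_eq_mapDomain, Finsupp.equivMapDomain_apply, map_inv]
  rfl

/-- The orbit relation. -/
def orel (a : Γ →* Equiv.Perm Y) : Setoid Y where
  r y z := ∃ γ, a γ y = z
  iseqv := by
    refine ⟨fun y => ⟨1, by simp⟩, ?_, ?_⟩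
    · rintro y z ⟨γ, rfl⟩
      exact ⟨γ⁻¹, by simp⟩
    · rintro x y z ⟨γ, rfl⟩ ⟨δ, rfl⟩
      exact ⟨δ * γ, by simp⟩

/-- Orbit representatives. -/
noncomputable def orep (a : Γ →* Equiv.Perm Y) (y : Y) : Y := (Quotient.mk (orel a) y).out

theorem orep_act (a : Γ →* Equiv.Perm Y) (γ : Γ) (y : Y) : orep a (a γ y) = orep a y := by
  unfold orep
  congr 1
  apply Quotient.sound
  exact ⟨γ⁻¹, by simp⟩

theorem exists_orep (a : Γ →* Equiv.Perm Y) (y : Y) : ∃ γ, a γ y = orep a y := by
  have : Quotient.mk (orel a) (orep a y) = Quotient.mk (orel a) y := Quotient.out_eq _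
  have h := Quotient.exact this
  obtain ⟨γ, hγ⟩ := h
  refine ⟨γ⁻¹, ?_⟩
  have h2 : a γ⁻¹ (a γ (orep a y)) = orep a y := by
    rw [← Equiv.Perm.mul_apply, ← map_mul]
    simp
  rwa [hγ] at h2

theorem proj_prep (a : Γ →* Equiv.Perm Y) (hfree : ∀ γ y, a γ y = y → γ = 1) :
    Proj (prep a) := by
  classical
  set τ : (Y →₀ ℂ) →ₗ[ℂ] (Y →₀ ℂ) :=
    Finsupp.linearCombination ℂ (fun y => if orep a y = y then Finsupp.single y (1 : ℂ) else 0)
    with hτ
  have key : ∀ (y : Y) (c : ℂ) (γ : Γ), prep a γ (τ (prep a γ⁻¹ (Finsupp.single y c))) =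
      if orep a y = a γ⁻¹ y then Finsupp.single y c else 0 := by
    intro y c γ
    rw [prep_single, hτ, Finsupp.linearCombination_single, orep_act]
    split_ifs
    · rw [map_smul, prep_single]
      simp
    · simp
  have huniq : ∀ y : Y, ∃ γ0 : Γ, ∀ γ : Γ, orep a y = a γ⁻¹ y ↔ γ = γ0 := by
    intro y
    obtain ⟨γ1, h1⟩ := exists_orep a y
    refine ⟨γ1⁻¹, fun γ => ⟨?_, ?_⟩⟩
    · intro h
      have h2 : a (γ * γ1) y = y := by
        rw [map_mul, Equiv.Perm.mul_apply, h1, h, ← Equiv.Perm.mul_apply, ← map_mul]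
        simp
      have h3 := hfree _ _ h2
      exact eq_inv_of_mul_eq_one_left h3
    · rintro rfl
      rw [← h1]
      simp
  have main : ∀ m : Y →₀ ℂ, (Function.support fun γ => prep a γ (τ (prep a γ⁻¹ m))).Finite ∧
      ∑ᶠ γ, prep a γ (τ (prep a γ⁻¹ m)) = m := by
    intro m
    induction m using Finsupp.induction_linear with
    | zero => simp
    | add f g hf hg =>
      refine ⟨?_, ?_⟩
      · apply (hf.1.union hg.1).subset
        intro γ hγ
        by_contra hn
        simp only [Set.mem_union, Function.mem_support, not_or, not_not] at hn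
        apply hγ
        simp only [map_add, hn.1, hn.2, add_zero]
      · simp only [map_add]
        rw [finsum_add_distrib hf.1 hg.1, hf.2, hg.2]
    | single y c =>
      simp only [key]
      obtain ⟨γ0, h0⟩ := huniq y
      simp only [h0]
      refine ⟨?_, ?_⟩
      · apply (Set.finite_singleton γ0).subset
        intro γ hγ
        by_contra hn
        apply hγ
        simp only [Set.mem_singleton_iff] at hn
        simp [hn]
      · rw [finsum_eq_single _ γ0]
        · simp
        · intro γ hγ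
          simp [hγ]
  exact ⟨τ, fun m => (main m).1, fun m => (main m).2⟩

end perm

theorem Proj.retract {Γ : Type*} [Group Γ]
    {M : Type*} [AddCommGroup M] [Module ℂ M] {N : Type*} [AddCommGroup N] [Module ℂ N]
    {ρ : Representation ℂ Γ M} {σ : Representation ℂ Γ N} (h : Proj ρ)
    {i : N →ₗ[ℂ] M} {p : M →ₗ[ℂ] N} (hi : Eqv σ ρ i) (hp : Eqv ρ σ p) (hpi : ∀ n, p (i n) = n) :
    Proj σ := by
  obtain ⟨τ, h1, h2⟩ := h
  have e : ∀ γ n, σ γ ((p ∘ₗ τ ∘ₗ i) (σ γ⁻¹ n)) = p (ρ γ (τ (ρ γ⁻¹ (i n)))) := by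
    intro γ n
    simp only [comp_apply]
    rw [hi, ← hp]
  refine ⟨p ∘ₗ τ ∘ₗ i, ?_, ?_⟩
  · intro n
    apply (h1 (i n)).subset
    intro γ hγ hc
    apply hγ
    simp only [e]
    simp only at hc
    rw [hc, map_zero]
  · intro n
    simp only [e]
    have : p (∑ᶠ γ, ρ γ (τ (ρ γ⁻¹ (i n)))) = ∑ᶠ γ, p (ρ γ (τ (ρ γ⁻¹ (i n)))) :=
      p.toAddMonoidHom.map_finsum (h1 (i n))
    rw [← this, h2, hpi]

section index

variable {Γ X : Type*} [Group Γ] [Group X]
variable {M : Type*} [AddCommGroup M] [Module ℂ M]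

/-- Restriction of a representation. -/
def rrep (ρ : Representation ℂ X M) (α : Γ →* X) : Representation ℂ Γ M := MonoidHom.comp ρ α

theorem rrep_apply (ρ : Representation ℂ X M) (α : Γ →* X) (γ : Γ) : rrep ρ α γ = ρ (α γ) := rfl

theorem HH.restrict {ρ : Representation ℂ X M} {α : Γ →* X} (hα : Function.Injective α)
    {u : M →ₗ[ℂ] ℂ} (h : HH ρ u) : HH (rrep ρ α) u := by
  intro m
  exact (h m).comp_injective hα

theorem HH.extend {ρ : Representation ℂ X M} {α : Γ →* X} (hα : Function.Injective α)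
    [hfi : α.range.FiniteIndex] {u : M →ₗ[ℂ] ℂ} (h : HH (rrep ρ α) u) : HH ρ u := by
  intro m
  have : Finite (X ⧸ α.range) := inferInstance
  let F : (X ⧸ α.range) × Γ → X := fun p => α p.2 * (p.1.out)⁻¹
  have hF : Function.Bijective F := by
    constructor
    · rintro ⟨q, γ⟩ ⟨q', γ'⟩ h
      simp only [F] at h
      have h1 : q = q' := by
        have e1 : q.out = (α γ * q.out⁻¹)⁻¹ * α γ := by group
        have e2 : q'.out = (α γ' * q'.out⁻¹)⁻¹ * α γ' := by group
        rw [← QuotientGroup.out_eq' q, ← QuotientGroup.out_eq' q', QuotientGroup.eq, e1, e2, h]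
        have : ((α γ' * q'.out⁻¹)⁻¹ * α γ)⁻¹ * ((α γ' * q'.out⁻¹)⁻¹ * α γ') = α (γ⁻¹ * γ') := by
          rw [map_mul, map_inv]; group
        rw [this]
        exact ⟨_, rfl⟩
      subst h1
      have h2 : α γ = α γ' := mul_right_cancel h
      rw [hα h2]
    · intro x
      have h1 : (QuotientGroup.mk (s := α.range) x⁻¹ : X ⧸ α.range) =
          QuotientGroup.mk (QuotientGroup.mk (s := α.range) x⁻¹ : X ⧸ α.range).out :=
        (QuotientGroup.out_eq' _).symm
      rw [QuotientGroup.eq] at h1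
      obtain ⟨γ, hγ⟩ := h1
      refine ⟨(QuotientGroup.mk x⁻¹, γ), ?_⟩
      simp only [F]
      rw [hγ]
      group
  have hs : Summable fun p : (X ⧸ α.range) × Γ => ‖u (ρ (F p) m)‖ ^ 2 := by
    rw [summable_prod_of_nonneg (fun p => by positivity)]
    refine ⟨?_, ?_⟩
    · intro q
      have := h (ρ (q.out)⁻¹ m)
      refine this.congr ?_
      intro γ
      simp only [F, rrep_apply, map_mul, Module.End.mul_apply]
    · exact Summable.of_finite
  exact (Equiv.ofBijective F hF).summable_iff (f := fun x => ‖u (ρ x m)‖ ^ 2) |>.mp hs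

end index

end Pool.Agent.Lib.P9f173d
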