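import Pool.Agent.Lib.P9f173d.Simp
import Pool.Agent.Lib.P9f173d.Free
import Pool.Agent.Lib.P9f173d.Cox3

/-!
The complex of chains of spherical subsets.
-/

namespace Pool.Agent.Lib.P9f173d

open CoxeterSystem LinearMap

section nerve

variable {B W G : Type*} [Group W] [Group G] [MulAction G B] {M : CoxeterMatrix B}

/-- The image of a set of generators. -/
def imT (g : G) (T : Set B) : Set B := (fun b => g • b) '' T

theorem imT_one (T : Set B) : imT (1 : G) T = T := by simp [imT]

theorem imT_mul (g h : G) (T : Set B) : imT (g * h) T = imT g (imT h T) := by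
  simp [imT, Set.image_image, mul_smul]

theorem imT_inv_imT (g : G) (T : Set B) : imT g⁻¹ (imT g T) = T := by
  rw [← imT_mul, inv_mul_cancel, imT_one]

theorem imT_imT_inv (g : G) (T : Set B) : imT g (imT g⁻¹ T) = T := by
  rw [← imT_mul, mul_inv_cancel, imT_one]

theorem imT_injective (g : G) : Function.Injective (imT g : Set B → Set B) :=
  Set.image_injective.mpr (MulAction.injective g)

theorem imT_mono (g : G) {S T : Set B} (h : S ⊂ T) : imT g S ⊂ imT g T :=
  ⟨Set.image_mono h.1, fun h2 => h.2 ((Set.image_subset_image_iff (MulAction.injective g)).mp h2)⟩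

variable (cs : CoxeterSystem M W)

/-- Nonempty spherical subsets. -/
def Sph (T : Set B) : Prop := T.Nonempty ∧ Finite (WT cs T)

theorem Sph.mono {S T : Set B} (hT : Sph cs T) (hS : S.Nonempty) (h : S ⊆ T) : Sph cs S := by
  have := hT.2
  exact ⟨hS, Finite.of_injective (fun v : WT cs S => (⟨v, WT_mono cs h v.2⟩ : WT cs T))
    (by
      intro a b hab
      have h1 := congrArg Subtype.val hab
      exact Subtype.ext h1)⟩

theorem Sph.finite {T : Set B} (hT : Sph cs T) : T.Finite := by
  have := hT.2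
  have : Finite T := Finite.of_injective
    (fun b : T => (⟨cs.simple b, simple_mem_WT cs b.2⟩ : WT cs T)) (by
      intro a b hab
      have h := congrArg Subtype.val hab
      ext
      exact simple_injective cs h)
  exact Set.toFinite T

variable {cs}

theorem Sph.image {φ : G →* MulAut W} (hφ : ∀ g b, φ g (cs.simple b) = cs.simple (g • b))
    {T : Set B} (hT : Sph cs T) (g : G) : Sph cs (imT g T) := by
  refine ⟨hT.1.image _, ?_⟩
  have := hT.2
  have h : ∀ v ∈ WT cs (imT g T), ∃ u ∈ WT cs T, φ g u = v := by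
    intro v hv
    induction hv using Subgroup.closure_induction with
    | mem x hx =>
      obtain ⟨_, ⟨b, hb, rfl⟩, rfl⟩ := hx
      exact ⟨cs.simple b, simple_mem_WT cs hb, hφ g b⟩
    | one => exact ⟨1, one_mem _, map_one _⟩
    | mul x y _ _ hx hy =>
      obtain ⟨u, hu, rfl⟩ := hx
      obtain ⟨v, hv, rfl⟩ := hy
      exact ⟨u * v, mul_mem hu hv, map_mul _ _ _⟩
    | inv x _ hx =>
      obtain ⟨u, hu, rfl⟩ := hx
      exact ⟨u⁻¹, inv_mem hu, map_inv _ _⟩
  choose f hf1 hf2 using h
  exact Finite.of_injective (fun v : WT cs (imT g T) => (⟨f v v.2, hf1 v v.2⟩ : WT cs T)) (by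
    intro a b hab
    have h1 := congrArg Subtype.val hab
    simp only at h1
    ext
    rw [← hf2 a a.2, ← hf2 b b.2, h1])

variable (cs)

/-- Good lists. -/
def GoodL (l : List (Set B)) : Prop := l.Pairwise (fun S T => T ⊂ S) ∧ ∀ T ∈ l, Sph cs T

theorem GoodL.sublist {l l' : List (Set B)} (h : GoodL cs l) (hs : l'.Sublist l) : GoodL cs l' :=
  ⟨h.1.sublist hs, fun T hT => h.2 T (hs.subset hT)⟩

/-- Nonempty good lists. -/
abbrev Lst : Type _ := {l : List (Set B) // GoodL cs l ∧ l ≠ []}

variable {cs}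

theorem GoodL.map {φ : G →* MulAut W} (hφ : ∀ g b, φ g (cs.simple b) = cs.simple (g • b))
    {l : List (Set B)} (h : GoodL cs l) (g : G) : GoodL cs (l.map (imT g)) := by
  refine ⟨?_, ?_⟩
  · rw [List.pairwise_map]
    exact h.1.imp (fun hab => imT_mono g hab)
  · intro T hT
    rw [List.mem_map] at hT
    obtain ⟨S, hS, rfl⟩ := hT
    exact (h.2 S hS).image hφ g

/-- The action on lists. -/
def aList (B G : Type*) [Group G] [MulAction G B] : G →* Equiv.Perm (List (Set B)) where
  toFun g :=
    { toFun := List.map (imT g)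
      invFun := List.map (imT g⁻¹)
      left_inv := by
        intro l
        rw [List.map_map]
        conv_rhs => rw [← List.map_id l]
        apply List.map_congr_left
        intro T _
        exact imT_inv_imT g T
      right_inv := by
        intro l
        rw [List.map_map]
        conv_rhs => rw [← List.map_id l]
        apply List.map_congr_left
        intro T _
        exact imT_imT_inv g T }
  map_one' := by
    ext1 l
    show List.map (imT 1) l = l
    conv_rhs => rw [← List.map_id l]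
    apply List.map_congr_left
    intro T _
    exact imT_one T
  map_mul' g h := by
    ext1 l
    show List.map (imT (g * h)) l = List.map (imT g) (List.map (imT h) l)
    rw [List.map_map]
    apply List.map_congr_left
    intro T _
    exact imT_mul g h T

theorem aList_apply (g : G) (l : List (Set B)) : aList B G g l = l.map (imT g) := rfl

/-- The action on nonempty good lists. -/
def aL {φ : G →* MulAut W} (hφ : ∀ g b, φ g (cs.simple b) = cs.simple (g • b)) :
    G →* Equiv.Perm (Lst cs) where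
  toFun g :=
    { toFun := fun l => ⟨aList B G g l.1, l.2.1.map hφ g, by
        rw [aList_apply, Ne, List.map_eq_nil_iff]; exact l.2.2⟩
      invFun := fun l => ⟨aList B G g⁻¹ l.1, l.2.1.map hφ g⁻¹, by
        rw [aList_apply, Ne, List.map_eq_nil_iff]; exact l.2.2⟩
      left_inv := by
        intro l
        apply Subtype.ext
        show aList B G g⁻¹ (aList B G g l.1) = l.1
        rw [← Equiv.Perm.mul_apply, ← map_mul]
        simp
      right_inv := by
        intro l
        apply Subtype.ext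
        show aList B G g (aList B G g⁻¹ l.1) = l.1
        rw [← Equiv.Perm.mul_apply, ← map_mul]
        simp }
  map_one' := by
    ext1 l
    apply Subtype.ext
    show aList B G 1 l.1 = l.1
    simp
  map_mul' g h := by
    ext1 l
    apply Subtype.ext
    show aList B G (g * h) l.1 = aList B G g (aList B G h l.1)
    simp

theorem aL_val {φ : G →* MulAut W} (hφ : ∀ g b, φ g (cs.simple b) = cs.simple (g • b))
    (g : G) (l : Lst cs) : (aL hφ g l).1 = aList B G g l.1 := rfl

/-- The largest element of a nonempty good list. -/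
def topL (l : Lst cs) : Set B := l.1.head l.2.2

theorem topL_act {φ : G →* MulAut W} (hφ : ∀ g b, φ g (cs.simple b) = cs.simple (g • b))
    (g : G) (l : Lst cs) : topL (aL hφ g l) = imT g (topL l) := by
  unfold topL
  simp only [aL_val, aList_apply, List.head_map]

theorem topL_sph (l : Lst cs) : Sph cs (topL l) := l.2.1.2 _ (List.head_mem _)

theorem subset_topL (l : Lst cs) {T : Set B} (hT : T ∈ l.1) : T ⊆ topL l := by
  obtain ⟨l, ⟨h1, h2⟩, h3⟩ := l
  rcases l with _ | ⟨S, l⟩
  · exact absurd rfl h3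
  · show T ⊆ S
    rcases List.mem_cons.mp hT with rfl | h4
    · exact subset_rfl
    · exact ((List.pairwise_cons.mp h1).1 T h4).subset

theorem aL_free {φ : G →* MulAut W} (hφ : ∀ g b, φ g (cs.simple b) = cs.simple (g • b))
    (hfree : ∀ T, Sph cs T → ∀ g : G, imT g T = T → g = 1) (g : G) (l : Lst cs)
    (h : aL hφ g l = l) : g = 1 := by
  apply hfree _ (topL_sph l) g
  rw [← topL_act hφ, h]

/-- Embedding of chains of good lists into all chains. -/
noncomputable def embL (cs : CoxeterSystem M W) : (Lst cs →₀ ℂ) →ₗ[ℂ] (List (Set B) →₀ ℂ) :=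
  Finsupp.lmapDomain ℂ ℂ Subtype.val

/-- Restriction of chains to good lists. -/
noncomputable def resL (cs : CoxeterSystem M W) : (List (Set B) →₀ ℂ) →ₗ[ℂ] (Lst cs →₀ ℂ) :=
  Finsupp.lcomapDomain Subtype.val Subtype.val_injective

theorem embL_single (l : Lst cs) (c : ℂ) :
    embL cs (Finsupp.single l c) = Finsupp.single l.1 c := by
  simp [embL]

theorem resL_apply (x : List (Set B) →₀ ℂ) (l : Lst cs) : resL cs x l = x l.1 := rfl

theorem embL_apply (x : Lst cs →₀ ℂ) (l : Lst cs) : embL cs x l.1 = x l :=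
  Finsupp.mapDomain_apply Subtype.val_injective x l

theorem embL_apply_of_not (x : Lst cs →₀ ℂ) (l : List (Set B)) (h : ¬(GoodL cs l ∧ l ≠ [])) :
    embL cs x l = 0 :=
  Finsupp.mapDomain_of_notMem_range x l (by
    rintro ⟨l', rfl⟩
    exact h l'.2)

theorem resL_embL (x : Lst cs →₀ ℂ) : resL cs (embL cs x) = x := by
  ext l
  rw [resL_apply, embL_apply]

theorem embL_resL {x : List (Set B) →₀ ℂ} (h : ∀ l, x l ≠ 0 → GoodL cs l ∧ l ≠ []) :
    embL cs (resL cs x) = x := by
  ext l
  by_cases hl : GoodL cs l ∧ l ≠ []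
  · have := embL_apply (resL cs x) ⟨l, hl⟩
    rw [this, resL_apply]
  · rw [embL_apply_of_not _ _ hl]
    by_contra hne
    exact hl (h l (Ne.symm hne))

theorem embL_injective : Function.Injective (embL cs : (Lst cs →₀ ℂ) → _) := by
  intro x y h
  have := congrArg (resL cs) h
  rwa [resL_embL, resL_embL] at this

theorem exists_of_bdl {x : List (Set B) →₀ ℂ} {l : List (Set B)} (h : bdl x l ≠ 0) :
    ∃ l', x l' ≠ 0 ∧ bl l' l ≠ 0 := by
  by_contra hcon
  push Not at hcon
  apply h
  unfold bdl
  rw [Finsupp.linearCombination_apply, Finsupp.sum, Finsupp.finsetSum_apply]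
  apply Finset.sum_eq_zero
  intro l' hl'
  rw [Finsupp.smul_apply, hcon l' (by simpa using hl'), smul_zero]

theorem bdl_embL_good {x : Lst cs →₀ ℂ} {l : List (Set B)} (h : bdl (embL cs x) l ≠ 0) :
    GoodL cs l := by
  obtain ⟨l', h1, h2⟩ := exists_of_bdl h
  have h3 : GoodL cs l' := by
    by_contra hn
    exact h1 (embL_apply_of_not x l' (fun h => hn h.1))
  exact h3.sublist cs (bl_face l' l h2).1

/-- The boundary on good lists. -/
noncomputable def nd (cs : CoxeterSystem M W) : (Lst cs →₀ ℂ) →ₗ[ℂ] (Lst cs →₀ ℂ) :=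
  resL cs ∘ₗ bdl ∘ₗ embL cs

/-- The augmentation. -/
noncomputable def nε (cs : CoxeterSystem M W) : (Lst cs →₀ ℂ) →ₗ[ℂ] ℂ :=
  Finsupp.lapply [] ∘ₗ bdl ∘ₗ embL cs

theorem nd_apply (x : Lst cs →₀ ℂ) (l : Lst cs) : nd cs x l = bdl (embL cs x) l.1 := rfl

theorem nε_apply (x : Lst cs →₀ ℂ) : nε cs x = bdl (embL cs x) [] := rfl

theorem bdl_embL (x : Lst cs →₀ ℂ) :
    bdl (embL cs x) = embL cs (nd cs x) + Finsupp.single [] (nε cs x) := by
  ext l
  rw [Finsupp.add_apply]
  by_cases h0 : l = []
  · subst h0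
    rw [embL_apply_of_not _ _ (by simp), Finsupp.single_eq_same, zero_add]
    rfl
  · rw [Finsupp.single_eq_of_ne h0, add_zero]
    by_cases hl : GoodL cs l
    · exact (embL_apply (nd cs x) ⟨l, hl, h0⟩).symm
    · rw [embL_apply_of_not _ _ (fun h => hl h.1)]
      by_contra hne
      exact hl (bdl_embL_good hne)

theorem bdl_embL_nd (x : Lst cs →₀ ℂ) : bdl (embL cs (nd cs x)) = 0 := by
  have h := bdl_bdl (embL cs x)
  rw [bdl_embL, map_add, bdl_single, bl, smul_zero, add_zero] at h
  exact h

theorem nε_nd (x : Lst cs →₀ ℂ) : nε cs (nd cs x) = 0 := by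
  rw [nε_apply, bdl_embL_nd]
  rfl

theorem nd_nd (x : Lst cs →₀ ℂ) : nd cs (nd cs x) = 0 := by
  ext l
  rw [nd_apply, bdl_embL_nd]
  rfl

theorem prep_aList (g : G) : (prep (aList B G) g : (List (Set B) →₀ ℂ) →ₗ[ℂ] _) =
    Finsupp.lmapDomain ℂ ℂ (List.map (imT g)) := rfl

theorem embL_eqv {φ : G →* MulAut W} (hφ : ∀ g b, φ g (cs.simple b) = cs.simple (g • b))
    (g : G) (x : Lst cs →₀ ℂ) : embL cs (prep (aL hφ) g x) = prep (aList B G) g (embL cs x) := by
  have : embL cs ∘ₗ prep (aL hφ) g = prep (aList B G) g ∘ₗ embL cs := by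
    apply Finsupp.lhom_ext'
    intro l
    ext1
    simp only [coe_comp, Function.comp_apply, Finsupp.lsingle_apply]
    rw [prep_single, embL_single, embL_single, prep_single, aL_val]
  exact congrArg (fun K => K x) this

theorem bdl_eqv (g : G) (x : List (Set B) →₀ ℂ) :
    bdl (prep (aList B G) g x) = prep (aList B G) g (bdl x) := by
  have : bdl ∘ₗ prep (aList B G) g = prep (aList B G) g ∘ₗ bdl := by
    apply Finsupp.lhom_ext'
    intro l
    ext1
    simp only [coe_comp, Function.comp_apply, Finsupp.lsingle_apply]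
    rw [prep_single, bdl_single, bdl_single, one_smul, one_smul, aList_apply, bl_map, prep_aList]
  exact congrArg (fun K => K x) this

theorem resL_eqv {φ : G →* MulAut W} (hφ : ∀ g b, φ g (cs.simple b) = cs.simple (g • b))
    (g : G) (x : List (Set B) →₀ ℂ) : resL cs (prep (aList B G) g x) =
      prep (aL hφ) g (resL cs x) := by
  ext l
  rw [resL_apply, prep_apply, prep_apply, resL_apply]
  rfl

theorem nd_eqv {φ : G →* MulAut W} (hφ : ∀ g b, φ g (cs.simple b) = cs.simple (g • b)) :
    Eqv (prep (aL hφ)) (prep (aL hφ)) (nd cs) := by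
  intro g x
  show resL cs (bdl (embL cs (prep (aL hφ) g x))) = prep (aL hφ) g (resL cs (bdl (embL cs x)))
  rw [embL_eqv, bdl_eqv, resL_eqv hφ]

theorem nε_eqv {φ : G →* MulAut W} (hφ : ∀ g b, φ g (cs.simple b) = cs.simple (g • b))
    (g : G) (x : Lst cs →₀ ℂ) : nε cs (prep (aL hφ) g x) = nε cs x := by
  rw [nε_apply, embL_eqv, bdl_eqv, prep_apply, nε_apply]
  rfl

theorem nd_single (l : Lst cs) (c : ℂ) : nd cs (Finsupp.single l c) = c • resL cs (bl l.1) := by
  show resL cs (bdl (embL cs (Finsupp.single l c))) = _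
  rw [embL_single, bdl_single, map_smul]

theorem nd_single_face {l l' : Lst cs} (h : nd cs (Finsupp.single l 1) l' ≠ 0) :
    l'.1.Sublist l.1 ∧ l.1.length = l'.1.length + 1 := by
  rw [nd_single, one_smul, resL_apply] at h
  exact bl_face _ _ h

/-- The projection to lists of length `k + 1`. -/
noncomputable def ne (cs : CoxeterSystem M W) (k : ℕ) : (Lst cs →₀ ℂ) →ₗ[ℂ] (Lst cs →₀ ℂ) where
  toFun F := F.filter (fun l => l.1.length = k + 1)
  map_add' F H := Finsupp.filter_add
  map_smul' r F := Finsupp.filter_smul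

theorem ne_apply (k : ℕ) (F : Lst cs →₀ ℂ) (l : Lst cs) :
    ne cs k F l = if l.1.length = k + 1 then F l else 0 := Finsupp.filter_apply _ _ _

theorem nd_support {x : Lst cs →₀ ℂ} {l : Lst cs} (h : nd cs x l ≠ 0) :
    ∃ l' : Lst cs, x l' ≠ 0 ∧ bl l'.1 l.1 ≠ 0 := by
  rw [nd_apply] at h
  obtain ⟨l', h1, h2⟩ := exists_of_bdl h
  have h3 : GoodL cs l' ∧ l' ≠ [] := by
    by_contra hn
    exact h1 (embL_apply_of_not x l' hn)
  refine ⟨⟨l', h3⟩, ?_, h2⟩
  rw [← embL_apply]
  exact h1

theorem nd_ne (k : ℕ) (x : Lst cs →₀ ℂ) : nd cs (ne cs (k + 1) x) = ne cs k (nd cs x) := by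
  have h1 : ∀ y : Lst cs →₀ ℂ, ∀ m, (∀ l, y l ≠ 0 → l.1.length = m + 2) →
      ∀ l, nd cs y l ≠ 0 → l.1.length = m + 1 := by
    intro y m hy l hl
    obtain ⟨l', h2, h3⟩ := nd_support hl
    have h4 := hy l' h2
    have h5 := (bl_face _ _ h3).2
    omega
  -- decompose `x`
  have h2 : x = ne cs (k + 1) x + (x - ne cs (k + 1) x) := by abel
  have h3 : ∀ l, (x - ne cs (k + 1) x) l ≠ 0 → l.1.length ≠ k + 2 := by
    intro l hl hlen
    apply hl
    rw [Finsupp.sub_apply, ne_apply, if_pos hlen, sub_self]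
  ext l
  rw [ne_apply]
  split_ifs with hl
  · conv_rhs => rw [h2]
    rw [map_add, Finsupp.add_apply]
    have h4 : nd cs (x - ne cs (k + 1) x) l = 0 := by
      by_contra hne
      obtain ⟨l', h5, h6⟩ := nd_support hne
      have h7 := (bl_face _ _ h6).2
      exact h3 l' h5 (by omega)
    rw [h4, add_zero]
  · by_contra hne
    apply hl
    refine h1 (ne cs (k + 1) x) k ?_ l hne
    intro l' hl'
    by_contra hn
    apply hl'
    rw [ne_apply, if_neg hn]

theorem nd_ne0 (x : Lst cs →₀ ℂ) : nd cs (ne cs 0 x) = 0 := by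
  ext l
  rw [Finsupp.zero_apply]
  by_contra hne
  obtain ⟨l', h2, h3⟩ := nd_support hne
  have h5 := (bl_face _ _ h3).2
  have h6 : l'.1.length = 1 := by
    by_contra hn
    apply h2
    rw [ne_apply, if_neg hn]
  have h7 := l.2.2
  apply h7
  rw [← List.length_eq_zero_iff]
  omega

theorem nε_support {x : Lst cs →₀ ℂ} (h : nε cs x ≠ 0) :
    ∃ l' : Lst cs, x l' ≠ 0 ∧ l'.1.length = 1 := by
  rw [nε_apply] at h
  obtain ⟨l', h1, h2⟩ := exists_of_bdl h
  have h3 : GoodL cs l' ∧ l' ≠ [] := by
    by_contra hn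
    exact h1 (embL_apply_of_not x l' hn)
  refine ⟨⟨l', h3⟩, ?_, ?_⟩
  · rw [← embL_apply]
    exact h1
  · have := (bl_face _ _ h2).2
    simpa using this

theorem nε_ne (k : ℕ) (x : Lst cs →₀ ℂ) (hk : k ≠ 0) : nε cs (ne cs k x) = 0 := by
  by_contra hne
  obtain ⟨l', h1, h2⟩ := nε_support hne
  apply h1
  rw [ne_apply, if_neg]
  omega

theorem ne_eqv {φ : G →* MulAut W} (hφ : ∀ g b, φ g (cs.simple b) = cs.simple (g • b)) (k : ℕ) :
    Eqv (prep (aL hφ)) (prep (aL hφ)) (ne cs k) := by
  intro g x
  ext l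
  rw [ne_apply, prep_apply, prep_apply, ne_apply]
  have : (aL hφ g⁻¹ l).1.length = l.1.length := by
    rw [aL_val, aList_apply, List.length_map]
  rw [this]

/-- The complex of chains of spherical subsets. -/
noncomputable def nCx {φ : G →* MulAut W} (hφ : ∀ g b, φ g (cs.simple b) = cs.simple (g • b))
    (N : ℕ) (hN : ∀ l : Lst cs, l.1.length ≤ N + 1) : Cx G where
  V := Lst cs →₀ ℂ
  ρ := prep (aL hφ)
  d := nd cs
  e := ne cs
  ε := nε cs
  bd := N
  e_idem := by
    intro k v
    ext p
    rw [ne_apply, ne_apply]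
    split_ifs <;> rfl
  e_orth := by
    intro k l v hkl
    ext p
    rw [ne_apply, ne_apply]
    split_ifs with h1 h2
    · exact absurd (Nat.succ_injective (h1.symm.trans h2)) hkl
    · rfl
    · rfl
  e_sum := by
    intro v
    ext p
    rw [Finsupp.finsetSum_apply]
    simp only [ne_apply]
    have h1 := hN p
    have h2 : p.1.length ≠ 0 := by
      rw [Ne, List.length_eq_zero_iff]
      exact p.2.2
    rw [Finset.sum_eq_single (p.1.length - 1)]
    · rw [if_pos (by omega)]
    · intro k _ hk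
      rw [if_neg (by omega)]
    · intro h
      exfalso
      apply h
      rw [Finset.mem_range]
      omega
  d_e := nd_ne
  d_e0 := nd_ne0
  d_d := nd_nd
  ε_d := nε_nd
  ε_e := nε_ne
  ρ_d := nd_eqv hφ
  ρ_e := ne_eqv hφ
  ρ_ε := nε_eqv hφ

/-- Contractibility of the cone below a spherical subset. -/
theorem nerve_contract {S : Set B} (hS : Sph cs S) {x : Lst cs →₀ ℂ}
    (hx : ∀ l, x l ≠ 0 → topL l ⊆ S) (h1 : nd cs x = 0) (h2 : nε cs x = 0) :
    ∃ z : Lst cs →₀ ℂ, (∀ l, z l ≠ 0 → topL l ⊆ S) ∧ nd cs z = x := by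
  classical
  have hb : bdl (embL cs x) = 0 := by
    rw [bdl_embL, h1, h2]
    simp
  -- the contraction identity
  have hl : ∀ l : Lst cs, topL l ⊆ S → S ∉ l.1.tail := by
    rintro ⟨l, ⟨hl1, hl2⟩, hl3⟩ htop hmem
    rcases l with _ | ⟨T, l⟩
    · exact hl3 rfl
    · have htop' : T ⊆ S := htop
      have hmem' : S ∈ l := hmem
      have := (List.pairwise_cons.mp hl1).1 S hmem'
      exact this.2 htop'
  have key : bdl (ctr S (embL cs x)) + ctr S (bdl (embL cs x)) = embL cs x := by
    have e1 : embL cs x = ∑ l ∈ x.support, x l • Finsupp.single l.1 (1 : ℂ) := by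
      conv_lhs => rw [← Finsupp.sum_single x]
      rw [Finsupp.sum, map_sum]
      apply Finset.sum_congr rfl
      intro l _
      rw [embL_single, Finsupp.smul_single, smul_eq_mul, mul_one]
    rw [e1]
    simp only [map_sum, map_smul]
    rw [← Finset.sum_add_distrib]
    apply Finset.sum_congr rfl
    intro l hlm
    rw [← smul_add, bdl_single, one_smul, ctr_bl (hl l (hx l (by simpa using hlm)))]
  rw [hb, map_zero, add_zero] at key
  -- the support of the contraction
  have hsupp : ∀ l, ctr S (embL cs x) l ≠ 0 → ∃ l' : Lst cs, topL l' ⊆ S ∧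
      l'.1.head? ≠ some S ∧ l = S :: l'.1 := by
    intro l hne
    by_contra hcon
    push Not at hcon
    apply hne
    have e1 : embL cs x = ∑ l ∈ x.support, x l • Finsupp.single l.1 (1 : ℂ) := by
      conv_lhs => rw [← Finsupp.sum_single x]
      rw [Finsupp.sum, map_sum]
      apply Finset.sum_congr rfl
      intro l _
      rw [embL_single, Finsupp.smul_single, smul_eq_mul, mul_one]
    rw [e1, map_sum, Finsupp.finsetSum_apply]
    apply Finset.sum_eq_zero
    intro l' hl'
    rw [map_smul, ctr_single, Finsupp.smul_apply]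
    split_ifs with hh
    · simp
    · rw [Finsupp.single_eq_of_ne (hcon l' (hx l' (by simpa using hl')) hh), smul_zero]
  have hgood : ∀ l, ctr S (embL cs x) l ≠ 0 → GoodL cs l ∧ l ≠ [] := by
    intro l hne
    obtain ⟨l', k1, k2, rfl⟩ := hsupp l hne
    refine ⟨⟨?_, ?_⟩, by simp⟩
    · rw [List.pairwise_cons]
      refine ⟨?_, l'.2.1.1⟩
      intro T hT
      have hne' : T ≠ S := by
        rintro rfl
        have hnt := hl l' k1
        obtain ⟨l'', h3, h4⟩ := l'
        rcases l'' with _ | ⟨U, l''⟩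
        · exact h4 rfl
        · rcases List.mem_cons.mp hT with rfl | h5
          · exact k2 rfl
          · exact hnt h5
      exact ((subset_topL l' hT).trans k1).ssubset_of_ne hne'
    · intro T hT
      rcases List.mem_cons.mp hT with rfl | hT
      · exact hS
      · exact l'.2.1.2 T hT
  refine ⟨resL cs (ctr S (embL cs x)), ?_, ?_⟩
  · intro l hne
    rw [resL_apply] at hne
    obtain ⟨l', k1, k2, k3⟩ := hsupp _ hne
    unfold topL
    have : l.1.head l.2.2 = S := by
      simp only [k3, List.head_cons]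
    rw [this]
  · apply embL_injective
    have h5 := bdl_embL (resL cs (ctr S (embL cs x)))
    rw [embL_resL hgood, key] at h5
    have h6 : nε cs (resL cs (ctr S (embL cs x))) = 0 := by
      rw [nε_apply, embL_resL hgood, key, embL_apply_of_not _ _ (by simp)]
    rw [h6] at h5
    simpa using h5.symm

end nerve

end Pool.Agent.Lib.P9f173d
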