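import Pool.Agent.Lib.P9f173d.Main
import Pool.Agent.Lib.P9f173d.Nerve

/-!
Construction of the extended complex from a finite free resolution and the nerve.
-/

namespace Pool.Agent.Lib.P9f173d

open CoxeterSystem LinearMap

section finite

theorem finite_lists {α : Type*} {P : Set α} (hP : P.Finite) (n : ℕ) :
    {l : List α | (∀ x ∈ l, x ∈ P) ∧ l.length ≤ n}.Finite := by
  induction n with
  | zero =>
    apply (Set.finite_singleton ([] : List α)).subset
    rintro l ⟨_, h⟩
    simpa using h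
  | succ n ih =>
    apply ((Set.finite_singleton ([] : List α)).union (Set.Finite.image2 List.cons hP ih)).subset
    rintro l ⟨h1, h2⟩
    rcases l with _ | ⟨x, l⟩
    · left; rfl
    · right
      refine ⟨x, h1 x (by simp), l, ⟨fun y hy => h1 y (by simp [hy]), ?_⟩, rfl⟩
      simpa using h2

theorem finite_nodup_lists {α : Type*} {P : Set α} (hP : P.Finite) :
    {l : List α | (∀ x ∈ l, x ∈ P) ∧ l.Nodup}.Finite := by
  classical
  apply (finite_lists hP P.ncard).subset
  rintro l ⟨h1, h2⟩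
  refine ⟨h1, ?_⟩
  rw [← List.toFinset_card_of_nodup h2, ← Set.ncard_coe_finset]
  apply Set.ncard_le_ncard _ hP
  intro x hx
  exact h1 x (by simpa using hx)

end finite

section mats

variable {G ι : Type*} [Group G] [Fintype ι]

theorem mbd_matrix (T : (G × ι →₀ ℂ) →ₗ[ℂ] (G × ι →₀ ℂ))
    (hT : Eqv (prep (lact G ι)) (prep (lact G ι)) T) :
    mbd (fun c c' => rowE (T (Finsupp.single (1, c) 1)) c') = T := by
  classical
  apply Finsupp.lhom_ext'
  rintro ⟨x, c⟩
  ext1
  simp only [coe_comp, Function.comp_apply, Finsupp.lsingle_apply]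
  ext ⟨y, c'⟩
  rw [mbd_single_apply, one_mul, rowE_coeff]
  have e : (Finsupp.single (x, c) 1 : G × ι →₀ ℂ) =
      prep (lact G ι) x (Finsupp.single (1, c) 1) := by
    rw [prep_single, lact_apply, mul_one]
  rw [e, hT, prep_lact_apply]

theorem rowE_mbd_single (m : ι → ι → MonoidAlgebra ℂ G) (c c' : ι) :
    rowE (mbd m (Finsupp.single ((1 : G), c) 1)) c' = m c c' := by
  classical
  rw [mbd_eq, LinearEquiv.apply_symm_apply, vm_apply]
  simp_rw [rowE_single]
  rw [Finset.sum_eq_single c]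
  · rw [if_pos rfl, ← MonoidAlgebra.one_def, one_mul]
  · intro c'' _ h
    rw [if_neg h, zero_mul]
  · simp

theorem sq_of_mbd {m : ι → ι → MonoidAlgebra ℂ G} (h : ∀ F, mbd m (mbd m F) = 0) (c c'' : ι) :
    ∑ c', m c c' * m c' c'' = 0 := by
  have h1 := congrArg (fun F => rowE F c'') (h (Finsupp.single ((1 : G), c) 1))
  rw [mbd_eq m (mbd m _), LinearEquiv.apply_symm_apply, vm_apply] at h1
  simp_rw [rowE_mbd_single] at h1
  rw [h1, map_zero]
  rfl

end mats

/-- Changing the sign of the differential. -/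
noncomputable def Cx.neg {Γ : Type*} [Group Γ] (C : Cx Γ) : Cx Γ where
  V := C.V
  ρ := C.ρ
  d := -C.d
  e := C.e
  ε := C.ε
  bd := C.bd
  e_idem := C.e_idem
  e_orth := C.e_orth
  e_sum := C.e_sum
  d_e := by
    intro k v
    rw [LinearMap.neg_apply, LinearMap.neg_apply, C.d_e, map_neg]
  d_e0 := by
    intro v
    rw [LinearMap.neg_apply, C.d_e0, neg_zero]
  d_d := by
    intro v
    rw [LinearMap.neg_apply, LinearMap.neg_apply, map_neg, C.d_d, neg_zero, neg_zero]
  ε_d := by
    intro v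
    rw [LinearMap.neg_apply, map_neg, C.ε_d, neg_zero]
  ε_e := C.ε_e
  ρ_d := by
    intro γ v
    rw [LinearMap.neg_apply, LinearMap.neg_apply, C.ρ_d, map_neg]
  ρ_e := C.ρ_e
  ρ_ε := C.ρ_ε

theorem Cx.neg_exact {Γ : Type*} [Group Γ] {C : Cx Γ} (h : C.Exact) : C.neg.Exact := by
  refine ⟨?_, h.2⟩
  intro v h1 h2
  have h1' : C.d v = 0 := by
    have : -C.d v = 0 := h1
    exact neg_eq_zero.mp this
  obtain ⟨w, hw⟩ := h.1 v h1' h2
  refine ⟨-w, ?_⟩
  show -C.d (-w) = v
  rw [map_neg, neg_neg, hw]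

section ext

variable {B W G : Type*} [Group W] [Group G] [MulAction G B] {M : CoxeterMatrix B}
  {cs : CoxeterSystem M W} {φ : G →* MulAut W}
  (hφ : ∀ g b, φ g (cs.simple b) = cs.simple (g • b))

/-- Orbits of nonempty good lists. -/
abbrev OQ : Type _ := Quotient (orel (aL hφ))

theorem finite_OQ (hfin : ∃ P : Set (Set B), P.Finite ∧ ∀ T, Sph cs T → ∃ g : G, imT g T ∈ P) :
    Finite (OQ hφ) := by
  obtain ⟨P, hP, hP2⟩ := hfin
  -- the set of lists with top in `P`
  have h1 : {l : Lst cs | topL l ∈ P}.Finite := by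
    have h2 : {l : Lst cs | topL l ∈ P} ⊆ ⋃ T ∈ P, {l : Lst cs | topL l = T} := by
      intro l hl
      simp only [Set.mem_iUnion]
      exact ⟨topL l, hl, rfl⟩
    apply Set.Finite.subset _ h2
    apply hP.biUnion
    intro T _
    by_cases hT : Sph cs T
    · have hTf := hT.finite
      have h3 := finite_nodup_lists (hTf.finite_subsets)
      apply Set.Finite.of_finite_image (f := Subtype.val) _ Subtype.val_injective.injOn
      apply h3.subset
      rintro _ ⟨l, hl, rfl⟩
      refine ⟨?_, ?_⟩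
      · intro S hS
        have := subset_topL l hS
        have hl' : topL l = T := hl
        rw [hl'] at this
        exact this
      · exact l.2.1.1.imp (fun hab => (ne_of_lt hab).symm)
    · convert Set.finite_empty
      ext l
      simp only [Set.mem_ofPred_eq, Set.mem_empty_iff_false, iff_false]
      rintro rfl
      exact hT (topL_sph l)
  have h2 : Finite {l : Lst cs | topL l ∈ P} := h1
  refine Finite.of_surjective (fun l : {l : Lst cs | topL l ∈ P} =>
    (Quotient.mk (orel (aL hφ)) l.1 : OQ hφ)) ?_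
  intro q
  obtain ⟨l, rfl⟩ := Quotient.exists_rep q
  obtain ⟨g, hg⟩ := hP2 (topL l) (topL_sph l)
  refine ⟨⟨aL hφ g l, ?_⟩, ?_⟩
  · show topL (aL hφ g l) ∈ P
    rw [topL_act]
    exact hg
  · apply Quotient.sound
    exact ⟨g⁻¹, by simp⟩

variable (hfree : ∀ T, Sph cs T → ∀ g : G, imT g T = T → g = 1)

/-- The free orbits. -/
noncomputable def e2 : G × OQ hφ ≃ Lst cs :=
  Equiv.ofBijective (fun p => aL hφ p.1 p.2.out) (by
    constructor
    · rintro ⟨g, q⟩ ⟨g', q'⟩ h
      simp only at h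
      have h1 : q = q' := by
        rw [← Quotient.out_eq q, ← Quotient.out_eq q']
        apply Quotient.sound
        refine ⟨g'⁻¹ * g, ?_⟩
        rw [map_mul, Equiv.Perm.mul_apply, h, ← Equiv.Perm.mul_apply, ← map_mul]
        simp
      subst h1
      have h2 : aL hφ (g'⁻¹ * g) q.out = q.out := by
        rw [map_mul, Equiv.Perm.mul_apply, h, ← Equiv.Perm.mul_apply, ← map_mul]
        simp
      have h3 := aL_free hφ hfree _ _ h2
      have h4 : g = g' := by
        have := inv_mul_eq_one.mp h3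
        exact this.symm
      rw [h4]
    · intro l
      obtain ⟨g, hg⟩ := exists_orep (aL hφ) l
      refine ⟨(g⁻¹, Quotient.mk _ l), ?_⟩
      show aL hφ g⁻¹ (orep (aL hφ) l) = l
      rw [← hg, ← Equiv.Perm.mul_apply, ← map_mul]
      simp)

theorem e2_apply (g : G) (q : OQ hφ) : e2 hφ hfree (g, q) = aL hφ g q.out := rfl

variable (F : FreeRes G)

/-- The cells of the extended complex. -/
abbrev NI : Type _ := F.cell ⊕ OQ hφ

/-- All translates of cells. -/
noncomputable def jE : G × NI hφ F ≃ (G × F.cell) ⊕ Lst cs :=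
  (Equiv.prodSumDistrib G F.cell (OQ hφ)).trans (Equiv.sumCongr (Equiv.refl _) (e2 hφ hfree))

theorem jE_inl (g : G) (c : F.cell) : jE hφ hfree F (g, Sum.inl c) = Sum.inl (g, c) := rfl

theorem jE_inr (g : G) (q : OQ hφ) :
    jE hφ hfree F (g, Sum.inr q) = Sum.inr (aL hφ g q.out) := rfl

/-- The decomposition of chains. -/
noncomputable def TH : (G × NI hφ F →₀ ℂ) ≃ₗ[ℂ] (G × F.cell →₀ ℂ) × (Lst cs →₀ ℂ) :=
  (Finsupp.domLCongr (jE hφ hfree F)).trans (Finsupp.sumFinsuppLEquivProdFinsupp ℂ)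

theorem TH_fst (x : G × NI hφ F →₀ ℂ) (g : G) (c : F.cell) :
    (TH hφ hfree F x).1 (g, c) = x (g, Sum.inl c) := by
  show Finsupp.domLCongr (M := ℂ) (R := ℂ) (jE hφ hfree F) x (Sum.inl (g, c)) = _
  rw [Finsupp.domLCongr_apply, Finsupp.domCongr_apply, Finsupp.equivMapDomain_apply,
    ← jE_inl hφ hfree F, Equiv.symm_apply_apply]

theorem TH_snd (x : G × NI hφ F →₀ ℂ) (g : G) (q : OQ hφ) :
    (TH hφ hfree F x).2 (aL hφ g q.out) = x (g, Sum.inr q) := by
  show Finsupp.domLCongr (M := ℂ) (R := ℂ) (jE hφ hfree F) x (Sum.inr (aL hφ g q.out)) = _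
  rw [Finsupp.domLCongr_apply, Finsupp.domCongr_apply, Finsupp.equivMapDomain_apply,
    ← jE_inr hφ hfree F, Equiv.symm_apply_apply]

theorem exists_rep_L (l : Lst cs) : ∃ (g : G) (q : OQ hφ), aL hφ g q.out = l := by
  obtain ⟨g, hg⟩ := exists_orep (aL hφ) l
  refine ⟨g⁻¹, Quotient.mk _ l, ?_⟩
  show aL hφ g⁻¹ (orep (aL hφ) l) = l
  rw [← hg, ← Equiv.Perm.mul_apply, ← map_mul]
  simp

theorem TH_eqv (g : G) (x : G × NI hφ F →₀ ℂ) :
    TH hφ hfree F (prep (lact G (NI hφ F)) g x) =
      (prep (lact G F.cell) g (TH hφ hfree F x).1, prep (aL hφ) g (TH hφ hfree F x).2) := by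
  apply Prod.ext
  · ext ⟨h, c⟩
    rw [TH_fst, prep_lact_apply, prep_lact_apply, TH_fst]
  · ext l
    obtain ⟨h, q, rfl⟩ := exists_rep_L hφ l
    rw [TH_snd, prep_lact_apply, prep_apply, ← Equiv.Perm.mul_apply, ← map_mul, TH_snd]

theorem TH_single_inl (g : G) (c : F.cell) :
    TH hφ hfree F (Finsupp.single (g, Sum.inl c) 1) = (Finsupp.single (g, c) 1, 0) := by
  classical
  apply Prod.ext
  · ext ⟨h, c'⟩
    rw [TH_fst]
    by_cases hh : (h, c') = (g, c)
    · obtain ⟨rfl, rfl⟩ := Prod.mk.inj hh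
      simp
    · rw [Finsupp.single_eq_of_ne hh, Finsupp.single_eq_of_ne]
      intro h2
      apply hh
      have h3 := Prod.mk.inj h2
      rw [h3.1, Sum.inl_injective h3.2]
  · ext l
    obtain ⟨h, q, rfl⟩ := exists_rep_L hφ l
    rw [TH_snd, Finsupp.single_eq_of_ne]
    · rfl
    · intro h2
      have h3 := (Prod.mk.inj h2).2
      cases h3

theorem TH_single_inr (q : OQ hφ) :
    TH hφ hfree F (Finsupp.single (1, Sum.inr q) 1) = (0, Finsupp.single q.out 1) := by
  classical
  apply Prod.ext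
  · ext ⟨h, c'⟩
    rw [TH_fst, Finsupp.single_eq_of_ne]
    · rfl
    · intro h2
      have h3 := (Prod.mk.inj h2).2
      cases h3
  · ext l
    obtain ⟨h, q', rfl⟩ := exists_rep_L hφ l
    rw [TH_snd]
    by_cases hh : (h, q') = (1, q)
    · obtain ⟨rfl, rfl⟩ := Prod.mk.inj hh
      have : aL hφ (1 : G) q'.out = q'.out := by simp
      rw [this]
      simp
    · rw [Finsupp.single_eq_of_ne, Finsupp.single_eq_of_ne]
      · intro h2
        apply hh
        have h3 : e2 hφ hfree (h, q') = e2 hφ hfree (1, q) := by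
          rw [e2_apply, e2_apply, h2]
          simp
        exact (e2 hφ hfree).injective h3
      · intro h2
        apply hh
        have h3 := Prod.mk.inj h2
        rw [h3.1, Sum.inr_injective h3.2]

/-- The connecting maps. -/
structure Conn where
  /-- the map -/
  ψ : (Lst cs →₀ ℂ) →ₗ[ℂ] (G × F.cell →₀ ℂ)
  eqv : Eqv (prep (aL hφ)) (prep (lact G F.cell)) ψ
  hd : ∀ x, mbd F.bdC (ψ x) = -ψ (nd cs x)
  hε : ∀ x, augm (fun c => (F.aug c : ℂ)) (ψ x) = nε cs x
  gr : ∀ k x, ψ (ne cs k x) = gpr F.dim k (ψ x)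

include hfree in
theorem exists_conn [Finite (OQ hφ)] : Nonempty (Conn hφ F) := by
  obtain ⟨N, hN⟩ : ∃ N : ℕ, ∀ l : Lst cs, l.1.length ≤ N + 1 := by
    obtain ⟨N, hN⟩ := (Set.finite_range (fun q : OQ hφ => q.out.1.length)).bddAbove
    refine ⟨N, ?_⟩
    intro l
    obtain ⟨h, q, rfl⟩ := exists_rep_L hφ l
    rw [aL_val, aList_apply, List.length_map]
    have := hN ⟨q, rfl⟩
    simp only at this
    omega
  have hproj : Proj (nCx hφ N hN).ρ := proj_prep (aL hφ) (fun g l h => aL_free hφ hfree g l h)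
  obtain ⟨f, f1, f2, f3, f4⟩ := Cx.exists_chain_map (C := nCx hφ N hN)
    (D := (F.toCx (MonoidHom.id G)).neg) hproj (Cx.neg_exact (F.toCx_exact _))
  let f' : (Lst cs →₀ ℂ) →ₗ[ℂ] (G × F.cell →₀ ℂ) := f
  have h0 : ∀ x, mbd F.bdC (f' x) = -f' (nd cs x) := by
    intro x
    have h1 : -mbd F.bdC (f' x) = f' (nd cs x) := f2 x
    rw [← h1, neg_neg]
  exact ⟨⟨f', f1, h0, f3, f4⟩⟩

variable (ψ : Conn hφ F)

/-- The boundary of the extended complex. -/
noncomputable def dY : (G × F.cell →₀ ℂ) × (Lst cs →₀ ℂ) →ₗ[ℂ]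
    (G × F.cell →₀ ℂ) × (Lst cs →₀ ℂ) :=
  LinearMap.prod (mbd F.bdC ∘ₗ LinearMap.fst ℂ _ _ + ψ.ψ ∘ₗ LinearMap.snd ℂ _ _)
    (nd cs ∘ₗ LinearMap.snd ℂ _ _)

theorem dY_apply (a : G × F.cell →₀ ℂ) (l : Lst cs →₀ ℂ) :
    dY hφ F ψ (a, l) = (mbd F.bdC a + ψ.ψ l, nd cs l) := rfl

theorem dY_dY (p : (G × F.cell →₀ ℂ) × (Lst cs →₀ ℂ)) : dY hφ F ψ (dY hφ F ψ p) = 0 := by
  obtain ⟨a, l⟩ := p
  rw [dY_apply, dY_apply, map_add, mbd_mbd F.bdC_bdC, ψ.hd, nd_nd]
  simp

/-- The boundary operator. -/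
noncomputable def dN : (G × NI hφ F →₀ ℂ) →ₗ[ℂ] (G × NI hφ F →₀ ℂ) :=
  (TH hφ hfree F).symm.toLinearMap ∘ₗ dY hφ F ψ ∘ₗ (TH hφ hfree F).toLinearMap

theorem TH_dN (x : G × NI hφ F →₀ ℂ) :
    TH hφ hfree F (dN hφ hfree F ψ x) = dY hφ F ψ (TH hφ hfree F x) := by
  show TH hφ hfree F ((TH hφ hfree F).symm _) = _
  rw [LinearEquiv.apply_symm_apply]
  rfl

theorem dN_dN (x : G × NI hφ F →₀ ℂ) : dN hφ hfree F ψ (dN hφ hfree F ψ x) = 0 := by
  apply (TH hφ hfree F).injective
  rw [TH_dN, TH_dN, dY_dY, map_zero]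

theorem dN_eqv : Eqv (prep (lact G (NI hφ F))) (prep (lact G (NI hφ F))) (dN hφ hfree F ψ) := by
  intro g x
  apply (TH hφ hfree F).injective
  rw [TH_dN, TH_eqv, TH_eqv, TH_dN]
  obtain ⟨a, l⟩ := TH hφ hfree F x
  simp only [dY_apply]
  apply Prod.ext
  · simp only [map_add]
    rw [mbd_eqv, ψ.eqv]
  · simp only
    exact nd_eqv hφ g l

variable [Fintype (OQ hφ)]

/-- The boundary matrix. -/
noncomputable def cN (c c' : NI hφ F) : MonoidAlgebra ℂ G :=
  rowE (dN hφ hfree F ψ (Finsupp.single (1, c) 1)) c'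

theorem mbd_cN : mbd (cN hφ hfree F ψ) = dN hφ hfree F ψ :=
  mbd_matrix _ (dN_eqv hφ hfree F ψ)

theorem cN_sq (c c'' : NI hφ F) : ∑ c', cN hφ hfree F ψ c c' * cN hφ hfree F ψ c' c'' = 0 := by
  apply sq_of_mbd
  intro x
  rw [mbd_cN, dN_dN]

theorem cN_coeff (c c' : NI hφ F) (g : G) : (cN hφ hfree F ψ c c').coeff g =
    dN hφ hfree F ψ (Finsupp.single (1, c) 1) (g, c') := rfl

theorem cN_inl_inl (c c' : F.cell) (g : G) :
    (cN hφ hfree F ψ (Sum.inl c) (Sum.inl c')).coeff g = (F.bdC c c').coeff g := by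
  classical
  rw [cN_coeff, ← TH_fst hφ hfree F, TH_dN, TH_single_inl, dY_apply, map_zero, add_zero]
  simp only
  rw [mbd_single_apply]
  simp

theorem cN_inl_inr (c : F.cell) (q : OQ hφ) (g : G) :
    (cN hφ hfree F ψ (Sum.inl c) (Sum.inr q)).coeff g = 0 := by
  rw [cN_coeff, ← TH_snd hφ hfree F, TH_dN, TH_single_inl, dY_apply]
  simp

theorem cN_inr_inl (q : OQ hφ) (c' : F.cell) (g : G) :
    (cN hφ hfree F ψ (Sum.inr q) (Sum.inl c')).coeff g =
      ψ.ψ (Finsupp.single q.out 1) (g, c') := by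
  rw [cN_coeff, ← TH_fst hφ hfree F, TH_dN, TH_single_inr, dY_apply, map_zero, zero_add]

theorem cN_inr_inr (q q' : OQ hφ) (g : G) :
    (cN hφ hfree F ψ (Sum.inr q) (Sum.inr q')).coeff g =
      nd cs (Finsupp.single q.out 1) (aL hφ g q'.out) := by
  rw [cN_coeff, ← TH_snd hφ hfree F, TH_dN, TH_single_inr, dY_apply]

omit [Fintype (OQ hφ)] in
theorem WT_empty_finite : Finite (WT cs (∅ : Set B)) := by
  have : WT cs (∅ : Set B) = ⊥ := by simp [WT]
  rw [this]
  infer_instance

/-- The Hecke data. -/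
noncomputable def mkH : HData B W G (NI hφ F) where
  M := M
  cs := cs
  φ := φ
  hφ := hφ
  wt := fun _ => 1
  pr := fun _ => 1
  wt_pos := fun _ => one_pos
  pr_pos := fun _ => one_pos
  wt_one := rfl
  wt_right := fun _ _ _ => by norm_num
  wt_left := fun _ _ _ => by norm_num
  wt_act := fun _ _ => rfl
  T := Sum.elim (fun _ => ∅) (fun q => topL q.out)
  fin := by
    rintro (c | q)
    · exact WT_empty_finite
    · exact (topL_sph _).2

theorem mkH_T_inl (c : F.cell) : (mkH hφ F).T (Sum.inl c) = ∅ := rfl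

theorem mkH_T_inr (q : OQ hφ) : (mkH hφ F).T (Sum.inr q) = topL q.out := rfl

/-- The labelled matrix. -/
noncomputable def mkE : CData (mkH hφ F) where
  deg := Sum.elim F.dim (fun q => q.out.1.length)
  coef := cN hφ hfree F ψ
  label := by
    rintro (c | q) (c' | q') g hg b hb
    · exact hb
    · rw [cN_inl_inr] at hg
      exact absurd rfl hg
    · exact absurd hb (by simp [mkH_T_inl])
    · rw [cN_inr_inr] at hg
      have h1 := (nd_single_face hg).1
      have h2 : topL (aL hφ g q'.out) ∈ q.out.1 := h1.subset (List.head_mem _)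
      have h3 := subset_topL _ h2
      rw [topL_act] at h3
      exact h3 ⟨b, hb, rfl⟩
  deg_coef := by
    rintro (c | q) (c' | q') hne
    · apply F.bdC_dim
      intro h0
      apply hne
      apply MonoidAlgebra.coeff_injective
      ext g
      rw [cN_inl_inl, h0]
    · exfalso
      apply hne
      apply MonoidAlgebra.coeff_injective
      ext g
      rw [cN_inl_inr]
      rfl
    · obtain ⟨g, hg⟩ : ∃ g, (cN hφ hfree F ψ (Sum.inr q) (Sum.inl c')).coeff g ≠ 0 := by
        by_contra hcon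
        push Not at hcon
        apply hne
        apply MonoidAlgebra.coeff_injective
        ext g
        rw [hcon g]
        rfl
      rw [cN_inr_inl] at hg
      have hlen : q.out.1.length ≠ 0 := by
        rw [Ne, List.length_eq_zero_iff]
        exact q.out.2.2
      have h1 : (Finsupp.single q.out (1 : ℂ)) =
          ne cs (q.out.1.length - 1) (Finsupp.single q.out 1) := by
        ext l
        rw [ne_apply]
        by_cases hl : l = q.out
        · rw [if_pos (by rw [hl]; omega)]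
        · rw [Finsupp.single_eq_of_ne hl]
          simp
      rw [h1, ψ.gr, gpr_apply] at hg
      have h2 : F.dim c' = q.out.1.length - 1 := by
        by_contra hn
        exact hg (if_neg hn)
      show q.out.1.length = F.dim c' + 1
      omega
    · obtain ⟨g, hg⟩ : ∃ g, (cN hφ hfree F ψ (Sum.inr q) (Sum.inr q')).coeff g ≠ 0 := by
        by_contra hcon
        push Not at hcon
        apply hne
        apply MonoidAlgebra.coeff_injective
        ext g
        rw [hcon g]
        rfl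
      rw [cN_inr_inr] at hg
      have h1 := (nd_single_face hg).2
      rw [aL_val, aList_apply, List.length_map] at h1
      exact h1
  sq := cN_sq hφ hfree F ψ

theorem labT_inl (g : G) (c : F.cell) : labT (mkH hφ F) (g, Sum.inl c) = ∅ := by
  show (fun b : B => g • b) '' (∅ : Set B) = ∅
  simp

theorem labT_inr (g : G) (q : OQ hφ) :
    labT (mkH hφ F) (g, Sum.inr q) = topL (aL hφ g q.out) := by
  rw [topL_act]
  rfl

theorem augm_NI (x : G × NI hφ F →₀ ℂ) :
    augm (Sum.elim (fun c => (F.aug c : ℂ)) (fun _ => 0)) x =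
      augm (fun c => (F.aug c : ℂ)) (TH hφ hfree F x).1 := by
  rw [augm_eq, augm_eq, Fintype.sum_sum_type]
  simp only [Sum.elim_inl, Sum.elim_inr, mul_zero, Finset.sum_const_zero, add_zero]
  apply Finset.sum_congr rfl
  intro c _
  congr 2
  apply MonoidAlgebra.coeff_injective
  ext g
  rw [rowE_coeff, rowE_coeff, TH_fst]

/-- The augmentation and exactness data. -/
noncomputable def mkA : AData (mkE hφ hfree F ψ) where
  a := Sum.elim (fun c => (F.aug c : ℂ)) (fun _ => 0)
  a_deg := by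
    rintro (c | q) h
    · apply F.aug_dim
      intro h0
      apply h
      simp [h0]
    · exact absurd rfl h
  a_bd := by
    rintro (c | q) h
    · have h1 : ∀ c', (mkE hφ hfree F ψ).coef (Sum.inl c) (Sum.inl c') = F.bdC c c' := by
        intro c'
        apply MonoidAlgebra.coeff_injective
        ext g
        exact cN_inl_inl hφ hfree F ψ c c' g
      rw [Fintype.sum_sum_type]
      simp only [Sum.elim_inl, Sum.elim_inr, mul_zero, Finset.sum_const_zero, add_zero, h1]
      exact F.aug_bdC c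
    · exfalso
      have h1 := (topL_sph q.out).1
      rw [mkH_T_inr] at h
      rw [h] at h1
      exact Set.not_nonempty_empty h1
  a_one := by
    obtain ⟨x, hx⟩ := F.aug_surj
    refine ⟨(TH hφ hfree F).symm (∑ c, Finsupp.single ((1 : G), c) (x c : ℂ), 0), ?_, ?_⟩
    · rintro ⟨g, c | q⟩ hne
      · exact labT_inl hφ F g c
      · exfalso
        apply hne
        rw [← TH_snd hφ hfree F, LinearEquiv.apply_symm_apply]
        rfl
    · rw [augm_NI hφ hfree F, LinearEquiv.apply_symm_apply]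
      simp only
      rw [map_sum]
      simp only [augm_single]
      exact_mod_cast hx
  ex := by
    intro S hS1 hS2 x hx hdx
    have hS : Sph cs S := ⟨hS1, hS2⟩
    have hdx' : dN hφ hfree F ψ x = 0 := by
      rw [← mbd_cN]
      exact hdx
    set a := (TH hφ hfree F x).1 with ha
    set l := (TH hφ hfree F x).2 with hl
    have hal : TH hφ hfree F x = (a, l) := rfl
    have h1 := TH_dN hφ hfree F ψ x
    rw [hdx', map_zero, hal, dY_apply] at h1
    have h2 : mbd F.bdC a + ψ.ψ l = 0 := (congrArg Prod.fst h1).symm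
    have h3 : nd cs l = 0 := (congrArg Prod.snd h1).symm
    have hlS : ∀ l', l l' ≠ 0 → topL l' ⊆ S := by
      intro l' hl'
      obtain ⟨g, q, rfl⟩ := exists_rep_L hφ l'
      rw [hl, TH_snd] at hl'
      have := hx _ hl'
      rwa [labT_inr] at this
    have h4 : nε cs l = 0 := by
      have h5 := congrArg (augm (fun c => (F.aug c : ℂ))) h2
      rw [map_add, augm_mbd F.aug_bdC, zero_add, ψ.hε, map_zero] at h5
      exact h5
    obtain ⟨l1, k1, k2⟩ := nerve_contract hS hlS h3 h4
    -- the vertex `S`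
    have hSg : GoodL cs [S] ∧ ([S] : List (Set B)) ≠ [] :=
      ⟨⟨by simp, by simpa using hS⟩, by simp⟩
    set μ : Lst cs →₀ ℂ := Finsupp.single ⟨[S], hSg⟩ 1 with hμ
    have hμd : nd cs μ = 0 := by
      ext l'
      rw [Finsupp.zero_apply]
      by_contra hne
      have h5 := (nd_single_face hne).2
      apply l'.2.2
      rw [← List.length_eq_zero_iff]
      simp only [List.length_singleton] at h5
      omega
    have hμε : nε cs μ = 1 := by
      rw [nε_apply, hμ, embL_single, bdl_single, bl, bl, map_zero, sub_zero]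
      simp
    set b : ℂ := augm (fun c => (F.aug c : ℂ)) (a - ψ.ψ l1) with hb
    set l2 : Lst cs →₀ ℂ := l1 + b • μ with hl2
    have hl2d : nd cs l2 = l := by
      rw [hl2, map_add, map_smul, hμd, k2, smul_zero, add_zero]
    have h5 : mbd F.bdC (a - ψ.ψ l2) = 0 := by
      rw [map_sub, ψ.hd, hl2d, sub_neg_eq_add, h2]
    have h6 : augm (fun c => (F.aug c : ℂ)) (a - ψ.ψ l2) = 0 := by
      have e1 : a - ψ.ψ l2 = (a - ψ.ψ l1) - b • ψ.ψ μ := by
        rw [hl2, map_add, map_smul]
        abel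
      rw [e1, map_sub, map_smul, ψ.hε μ, hμε, ← hb, smul_eq_mul, mul_one, sub_self]
    obtain ⟨a', ha'⟩ := (F.toCx_exact (MonoidHom.id G)).1 (a - ψ.ψ l2) h5 h6
    have ha'' : mbd F.bdC a' = a - ψ.ψ l2 := ha'
    refine ⟨(TH hφ hfree F).symm (a', l2), ?_, ?_⟩
    · rintro ⟨g, c | q⟩ hne
      · rw [labT_inl]
        exact Set.empty_subset _
      · rw [labT_inr]
        rw [← TH_snd hφ hfree F, LinearEquiv.apply_symm_apply] at hne
        simp only at hne
        rw [hl2, Finsupp.add_apply] at hne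
        by_cases h7 : l1 (aL hφ g q.out) = 0
        · rw [h7, zero_add, Finsupp.smul_apply, hμ] at hne
          have h8 : aL hφ g q.out = ⟨[S], hSg⟩ := by
            by_contra hn
            rw [Finsupp.single_eq_of_ne hn] at hne
            simp at hne
          rw [h8]
          exact subset_rfl
        · exact k1 _ h7
    · have : mbd (mkE hφ hfree F ψ).coef = dN hφ hfree F ψ := mbd_cN hφ hfree F ψ
      rw [this]
      apply (TH hφ hfree F).injective
      rw [TH_dN, LinearEquiv.apply_symm_apply, dY_apply, ha'', hl2d, hal]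
      simp
  ex0 := by
    intro x hx hdx hax
    have hdx' : dN hφ hfree F ψ x = 0 := by
      rw [← mbd_cN]
      exact hdx
    have hl : (TH hφ hfree F x).2 = 0 := by
      ext l'
      obtain ⟨g, q, rfl⟩ := exists_rep_L hφ l'
      rw [TH_snd]
      by_contra hne
      have h1 := hx _ hne
      rw [labT_inr] at h1
      have h2 := (topL_sph (aL hφ g q.out)).1
      rw [h1] at h2
      exact Set.not_nonempty_empty h2
    set a := (TH hφ hfree F x).1 with ha
    have hal : TH hφ hfree F x = (a, 0) := Prod.ext rfl hl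
    have h1 := TH_dN hφ hfree F ψ x
    rw [hdx', map_zero, hal, dY_apply] at h1
    have h2 : mbd F.bdC a + ψ.ψ 0 = 0 := (congrArg Prod.fst h1).symm
    rw [map_zero, add_zero] at h2
    have h3 : augm (fun c => (F.aug c : ℂ)) a = 0 := by
      rw [ha, ← augm_NI hφ hfree F]
      exact hax
    obtain ⟨a', ha'⟩ := (F.toCx_exact (MonoidHom.id G)).1 a h2 h3
    have ha'' : mbd F.bdC a' = a := ha'
    refine ⟨(TH hφ hfree F).symm (a', 0), ?_, ?_⟩
    · rintro ⟨g, c | q⟩ hne
      · exact labT_inl hφ F g c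
      · exfalso
        apply hne
        rw [← TH_snd hφ hfree F, LinearEquiv.apply_symm_apply]
        rfl
    · have : mbd (mkE hφ hfree F ψ).coef = dN hφ hfree F ψ := mbd_cN hφ hfree F ψ
      rw [this]
      apply (TH hφ hfree F).injective
      rw [TH_dN, LinearEquiv.apply_symm_apply, dY_apply, ha'', hal]
      simp

end ext

end Pool.Agent.Lib.P9f173d
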