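import Pool.Agent.Lib.P9f173d.Cox2
import Pool.Agent.Lib.P9f173d.Ell2

/-!
Hecke projections on `ℓ²` of an extended Coxeter group.
-/

namespace Pool.Agent.Lib.P9f173d

open CoxeterSystem

section minrep

variable {B W : Type*} [Group W] {M : CoxeterMatrix B} (cs : CoxeterSystem M W)

/-- The minimal representative of `w W_T`. -/
noncomputable def mr (T : Set B) (w : W) : W := Classical.choose (exists_min_rep cs T w)

theorem mr_mem (T : Set B) (w : W) : (mr cs T w)⁻¹ * w ∈ WT cs T :=
  (Classical.choose_spec (exists_min_rep cs T w)).1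

theorem mr_length (T : Set B) (w : W) {v : W} (hv : v ∈ WT cs T) :
    cs.length (mr cs T w * v) = cs.length (mr cs T w) + cs.length v :=
  (Classical.choose_spec (exists_min_rep cs T w)).2 v hv

theorem mr_eq {T : Set B} {u w : W} (h1 : u⁻¹ * w ∈ WT cs T)
    (h2 : ∀ v ∈ WT cs T, cs.length (u * v) = cs.length u + cs.length v) : mr cs T w = u := by
  symm
  apply min_rep_unique cs h2 (fun v hv => mr_length cs T w hv)
  have : u⁻¹ * mr cs T w = (u⁻¹ * w) * ((mr cs T w)⁻¹ * w)⁻¹ := by group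
  rw [this]
  exact mul_mem h1 (inv_mem (mr_mem cs T w))

theorem mr_mul (T : Set B) (w : W) {v : W} (hv : v ∈ WT cs T) : mr cs T (w * v) = mr cs T w := by
  apply mr_eq cs
  · rw [← mul_assoc]
    exact mul_mem (mr_mem cs T w) hv
  · intro v hv
    exact mr_length cs T w hv

/-- The `W_T`-part of `w`. -/
noncomputable def pt (T : Set B) (w : W) : WT cs T := ⟨(mr cs T w)⁻¹ * w, mr_mem cs T w⟩

theorem mr_mul_pt (T : Set B) (w : W) : mr cs T w * (pt cs T w : W) = w := by
  simp [pt]

theorem pt_mul (T : Set B) (w : W) (v : WT cs T) : pt cs T (w * v) = pt cs T w * v := by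
  ext
  simp only [pt, mr_mul cs T w v.2, Subgroup.coe_mul]
  group

theorem pt_one (T : Set B) : pt cs T 1 = 1 := by
  ext
  have : mr cs T 1 = 1 := mr_eq cs (by simp) (by simp)
  simp [pt, this]

theorem length_eq (T : Set B) (w : W) :
    cs.length w = cs.length (mr cs T w) + cs.length (pt cs T w : W) := by
  conv_lhs => rw [← mr_mul_pt cs T w]
  rw [mr_length cs T w (pt cs T w).2]

theorem length_mul_pt (T : Set B) (w : W) (v : WT cs T) :
    cs.length (w * v) = cs.length (mr cs T w) + cs.length ((pt cs T w : W) * v) := by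
  have h : w * v = mr cs T w * ((pt cs T w : W) * v) := by
    rw [← mul_assoc, mr_mul_pt]
  rw [h, mr_length cs T w (mul_mem (pt cs T w).2 v.2)]

theorem descent_iff (T : Set B) (w : W) {b : B} (hb : b ∈ T) :
    cs.length w < cs.length (w * cs.simple b) ↔
      cs.length (pt cs T w : W) < cs.length ((pt cs T w : W) * cs.simple b) := by
  have h1 := length_eq cs T w
  have h2 := length_mul_pt cs T w ⟨cs.simple b, simple_mem_WT cs hb⟩
  simp only at h2
  omega

end minrep

/-- The data for a family of Hecke projections. -/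
structure HData (B W G ι : Type*) [Group W] [Group G] [MulAction G B] where
  /-- the Coxeter matrix -/
  M : CoxeterMatrix B
  /-- the Coxeter system -/
  cs : CoxeterSystem M W
  /-- the action on `W` -/
  φ : G →* MulAut W
  hφ : ∀ g b, φ g (cs.simple b) = cs.simple (g • b)
  /-- the weight -/
  wt : W → ℝ
  /-- the parameters -/
  pr : B → ℝ
  wt_pos : ∀ w, 0 < wt w
  pr_pos : ∀ b, 0 < pr b
  wt_one : wt 1 = 1
  wt_right : ∀ w b, cs.length w < cs.length (w * cs.simple b) →
    wt (w * cs.simple b) = wt w * pr b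
  wt_left : ∀ w b, cs.length w < cs.length (cs.simple b * w) →
    wt (cs.simple b * w) = pr b * wt w
  wt_act : ∀ g w, wt (φ g w) = wt w
  /-- the labels -/
  T : ι → Set B
  fin : ∀ c, Finite (WT cs (T c))

namespace HData

variable {B W G ι : Type*} [Group W] [Group G] [MulAction G B] (D : HData B W G ι)

/-- The index group. -/
abbrev X : Type _ := W ⋊[D.φ] G

/-- The `W`-part when `x` is written as `g * w`. -/
def rr (x : D.X) : W := D.φ x.right⁻¹ x.left

theorem rr_mul_inl (x : D.X) (v : W) : D.rr (x * SemidirectProduct.inl v) = D.rr x * v := by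
  simp [rr]

theorem rr_inr_mul (g : G) (x : D.X) : D.rr (SemidirectProduct.inr g * x) = D.rr x := by
  simp [rr]

theorem rr_inl_mul (w : W) (x : D.X) :
    D.rr (SemidirectProduct.inl w * x) = D.φ x.right⁻¹ w * D.rr x := by
  simp [rr]

theorem rr_mul_inr (x : D.X) (g : G) : D.rr (x * SemidirectProduct.inr g) = D.φ g⁻¹ (D.rr x) := by
  simp [rr, mul_inv_rev, MulAut.mul_apply]

theorem rr_one : D.rr 1 = 1 := by
  simp [rr]

theorem length_act_le (g : G) (w : W) : D.cs.length (D.φ g w) ≤ D.cs.length w := by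
  obtain ⟨ω, r, rfl⟩ := D.cs.exists_isReduced w
  have : D.φ g (D.cs.wordProd ω) = D.cs.wordProd (ω.map (fun b => g • b)) := by
    unfold wordProd
    rw [map_list_prod, List.map_map, List.map_map]
    congr 1
    apply List.map_congr_left
    intro b _
    simp [D.hφ]
  rw [this, r.eq]
  refine (D.cs.length_wordProd_le _).trans ?_
  simp

theorem length_act (g : G) (w : W) : D.cs.length (D.φ g w) = D.cs.length w := by
  apply le_antisymm (D.length_act_le g w)
  have := D.length_act_le g⁻¹ (D.φ g w)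
  simpa using this

theorem length_rr (x : D.X) : D.cs.length (D.rr x) = D.cs.length x.left := D.length_act _ _

theorem wt_simple (b : B) : D.wt (D.cs.simple b) = D.pr b := by
  have := D.wt_right 1 b (by simp)
  simpa [D.wt_one] using this

theorem pr_act (g : G) (b : B) : D.pr (g • b) = D.pr b := by
  rw [← wt_simple, ← wt_simple, ← D.hφ, D.wt_act]

noncomputable instance instFin (c : ι) : Fintype (WT D.cs (D.T c)) :=
  @Fintype.ofFinite _ (D.fin c)

/-- The parameter at time `t`. -/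
def th (t : ℝ) (b : B) : ℝ := D.pr b * t

/-- The weight at time `t`. -/
noncomputable def wn (t : ℝ) (w : W) : ℝ := D.wt w * t ^ D.cs.length w

theorem th_pos {t : ℝ} (ht : 0 < t) (b : B) : 0 < D.th t b := mul_pos (D.pr_pos b) ht

theorem wn_pos {t : ℝ} (ht : 0 < t) (w : W) : 0 < D.wn t w :=
  mul_pos (D.wt_pos w) (pow_pos ht _)

theorem wn_right (t : ℝ) {w : W} {b : B} (h : D.cs.length w < D.cs.length (w * D.cs.simple b)) :
    D.wn t (w * D.cs.simple b) = D.wn t w * D.th t b := by
  have h1 : D.cs.length (w * D.cs.simple b) = D.cs.length w + 1 := by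
    rcases D.cs.length_mul_simple w b with h' | h' <;> omega
  rw [wn, wn, th, D.wt_right w b h, h1, pow_succ]
  ring

/-- The vector spanning the sign representation. -/
noncomputable def xi (t : ℝ) (w : W) : ℝ := (-1) ^ D.cs.length w * (Real.sqrt (D.wn t w))⁻¹

/-- Normalising constants. -/
noncomputable def Sc (t : ℝ) (c : ι) : ℝ := ∑ a : WT D.cs (D.T c), (D.wn t (a : W))⁻¹

theorem xi_sq {t : ℝ} (ht : 0 < t) (w : W) : D.xi t w * D.xi t w = (D.wn t w)⁻¹ := by
  unfold xi
  have h1 : ((-1 : ℝ) ^ D.cs.length w) * ((-1 : ℝ) ^ D.cs.length w) = 1 := by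
    rw [← mul_pow]; simp
  have h2 : (Real.sqrt (D.wn t w))⁻¹ * (Real.sqrt (D.wn t w))⁻¹ = (D.wn t w)⁻¹ := by
    rw [← mul_inv, Real.mul_self_sqrt (D.wn_pos ht w).le]
  calc _ = ((-1 : ℝ) ^ D.cs.length w * (-1 : ℝ) ^ D.cs.length w) *
        ((Real.sqrt (D.wn t w))⁻¹ * (Real.sqrt (D.wn t w))⁻¹) := by ring
    _ = _ := by rw [h1, h2, one_mul]

theorem xi_ne {t : ℝ} (ht : 0 < t) (w : W) : D.xi t w ≠ 0 := by
  unfold xi
  have := D.wn_pos ht w
  positivity

theorem xi_one (t : ℝ) : D.xi t 1 = 1 := by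
  simp [xi, wn, D.wt_one]

theorem xi_right {t : ℝ} (ht : 0 < t) {w : W} {b : B}
    (h : D.cs.length w < D.cs.length (w * D.cs.simple b)) :
    D.xi t (w * D.cs.simple b) = -(Real.sqrt (D.th t b))⁻¹ * D.xi t w := by
  have h1 : D.cs.length (w * D.cs.simple b) = D.cs.length w + 1 := by
    rcases D.cs.length_mul_simple w b with h' | h' <;> omega
  rw [xi, xi, D.wn_right t h, h1, pow_succ, Real.sqrt_mul (D.wn_pos ht w).le, mul_inv]
  ring

theorem Sc_pos {t : ℝ} (ht : 0 < t) (c : ι) : 0 < D.Sc t c := by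
  unfold Sc
  apply Finset.sum_pos
  · intro a _
    exact inv_pos.mpr (D.wn_pos ht _)
  · exact ⟨1, Finset.mem_univ _⟩

theorem sum_xi_sq {t : ℝ} (ht : 0 < t) (c : ι) :
    ∑ a : WT D.cs (D.T c), D.xi t (a : W) * D.xi t (a : W) = D.Sc t c := by
  unfold Sc
  apply Finset.sum_congr rfl
  intro a _
  exact D.xi_sq ht a

variable [DecidableEq ι]

open Classical in
/-- Matrix units. -/
noncomputable def mu (c : ι) (a b : WT D.cs (D.T c)) : (D.X × ι) ≃. (D.X × ι) where
  toFun p := if p.2 = c ∧ pt D.cs (D.T c) (D.rr p.1) = a then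
    some (p.1 * SemidirectProduct.inl ((a : W)⁻¹ * b), c) else none
  invFun p := if p.2 = c ∧ pt D.cs (D.T c) (D.rr p.1) = b then
    some (p.1 * SemidirectProduct.inl ((b : W)⁻¹ * a), c) else none
  inv := by
    rintro ⟨x, c1⟩ ⟨y, c2⟩
    have aux : ∀ (a b : WT D.cs (D.T c)) (x y : D.X) (c1 c2 : ι),
        ((y, c2) ∈ (if c1 = c ∧ pt D.cs (D.T c) (D.rr x) = a then
          some (x * SemidirectProduct.inl ((a : W)⁻¹ * b), c) else none)) →
        ((x, c1) ∈ (if c2 = c ∧ pt D.cs (D.T c) (D.rr y) = b then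
          some (y * SemidirectProduct.inl ((b : W)⁻¹ * a), c) else none)) := by
      intro a b x y c1 c2 h
      split_ifs at h with h1
      · simp only [Option.mem_def, Option.some.injEq, Prod.mk.injEq] at h
        obtain ⟨rfl, rfl⟩ := h
        obtain ⟨rfl, h1⟩ := h1
        rw [if_pos]
        · simp [mul_assoc, ← map_mul]
        · refine ⟨rfl, ?_⟩
          rw [D.rr_mul_inl]
          have := pt_mul D.cs (D.T c1) (D.rr x) (a⁻¹ * b)
          simp only [Subgroup.coe_mul, InvMemClass.coe_inv] at this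
          rw [this, h1]
          group
      · simp at h
    constructor
    · exact aux b a y x c2 c1
    · exact aux a b x y c1 c2

theorem mu_symm (c : ι) (a b : WT D.cs (D.T c)) : (D.mu c a b).symm = D.mu c b a := rfl

variable [Fintype ι]

/-- The Hecke projection. -/
noncomputable def Pr (t : ℝ) : L2 (D.X × ι) →L[ℂ] L2 (D.X × ι) :=
  ∑ c, ∑ a : WT D.cs (D.T c), ∑ b : WT D.cs (D.T c),
    ((D.xi t (a : W) * D.xi t (b : W) / D.Sc t c : ℝ) : ℂ) • opP (D.mu c a b)

omit [DecidableEq ι] [Fintype ι] in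
theorem coe_sum_lp {α : Type*} (s : Finset α) (f : α → L2 (D.X × ι)) (p : D.X × ι) :
    (∑ i ∈ s, f i) p = ∑ i ∈ s, f i p := by
  simp only [lp.coeFn_sum, Finset.sum_apply]

theorem Pr_apply (t : ℝ) (f : L2 (D.X × ι)) (x : D.X) (c : ι) :
    D.Pr t f (x, c) = ∑ b : WT D.cs (D.T c),
      ((D.xi t (pt D.cs (D.T c) (D.rr x) : W) * D.xi t (b : W) / D.Sc t c : ℝ) : ℂ) *
        f (x * SemidirectProduct.inl ((pt D.cs (D.T c) (D.rr x) : W)⁻¹ * b), c) := by
  classical
  unfold Pr
  simp only [sum_apply, coe_sum_lp, smul_apply,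
    lp.coeFn_smul, Pi.smul_apply, smul_eq_mul, opP_apply]
  rw [Finset.sum_eq_single c]
  · rw [Finset.sum_eq_single (pt D.cs (D.T c) (D.rr x))]
    · apply Finset.sum_congr rfl
      intro b _
      congr 1
      simp [mu]
    · intro a _ ha
      apply Finset.sum_eq_zero
      intro b _
      simp [mu, Ne.symm ha]
    · simp
  · intro c' _ hc
    apply Finset.sum_eq_zero
    intro a _
    apply Finset.sum_eq_zero
    intro b _
    simp [mu, Ne.symm hc]
  · simp

/-- The antisymmetry condition. -/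
def Anti (t : ℝ) (f : D.X × ι → ℂ) : Prop :=
  ∀ (x : D.X) (c : ι) (b : B), b ∈ D.T c →
    D.cs.length (D.rr x) < D.cs.length (D.rr x * D.cs.simple b) →
    f (x * SemidirectProduct.inl (D.cs.simple b), c) =
      (-(Real.sqrt (D.th t b))⁻¹ : ℝ) * f (x, c)

theorem Pr_anti {t : ℝ} (ht : 0 < t) (f : L2 (D.X × ι)) : D.Anti t (D.Pr t f) := by
  intro x c b hb hl
  rw [Pr_apply, Pr_apply, D.rr_mul_inl, Finset.mul_sum]
  have hpt : pt D.cs (D.T c) (D.rr x * D.cs.simple b) =
      pt D.cs (D.T c) (D.rr x) * ⟨D.cs.simple b, simple_mem_WT D.cs hb⟩ :=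
    pt_mul D.cs (D.T c) (D.rr x) ⟨D.cs.simple b, simple_mem_WT D.cs hb⟩
  rw [hpt]
  apply Finset.sum_congr rfl
  intro a _
  simp only [Subgroup.coe_mul]
  rw [D.xi_right ht ((descent_iff D.cs (D.T c) (D.rr x) hb).mp hl)]
  have e : x * SemidirectProduct.inl (D.cs.simple b) *
      SemidirectProduct.inl (((pt D.cs (D.T c) (D.rr x) : W) * D.cs.simple b)⁻¹ * a) =
      x * SemidirectProduct.inl ((pt D.cs (D.T c) (D.rr x) : W)⁻¹ * a) := by
    rw [mul_assoc, ← map_mul]
    congr 2
    rw [mul_inv_rev, inv_simple, mul_assoc, simple_mul_simple_cancel_left]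
  rw [e]
  push_cast
  ring

omit [DecidableEq ι] [Fintype ι] in
theorem anti_orbit {t : ℝ} (ht : 0 < t) {f : D.X × ι → ℂ} (hf : D.Anti t f) (x : D.X) (c : ι)
    (hx : ∀ v ∈ WT D.cs (D.T c), D.cs.length (D.rr x * v) =
      D.cs.length (D.rr x) + D.cs.length v) :
    ∀ v ∈ WT D.cs (D.T c), f (x * SemidirectProduct.inl v, c) = (D.xi t v : ℂ) * f (x, c) := by
  refine WT_induction_right D.cs
    (p := fun v => f (x * SemidirectProduct.inl v, c) = (D.xi t v : ℂ) * f (x, c)) ?_ ?_
  · simp [xi_one]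
  · intro v hv b hb hl ih
    have h1 : D.cs.length (D.rr (x * SemidirectProduct.inl v)) <
        D.cs.length (D.rr (x * SemidirectProduct.inl v) * D.cs.simple b) := by
      rw [D.rr_mul_inl, hx v hv, mul_assoc, hx _ (mul_mem hv (simple_mem_WT D.cs hb))]
      omega
    have h2 := hf (x * SemidirectProduct.inl v) c b hb h1
    rw [mul_assoc, ← map_mul] at h2
    rw [h2, ih, D.xi_right ht (by omega)]
    push_cast
    ring

theorem Pr_of_anti {t : ℝ} (ht : 0 < t) {f : L2 (D.X × ι)} (hf : D.Anti t f) : D.Pr t f = f := by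
  ext ⟨x, c⟩
  rw [Pr_apply]
  set a := pt D.cs (D.T c) (D.rr x) with ha
  set y : D.X := x * SemidirectProduct.inl ((a : W)⁻¹) with hy
  have hry : D.rr y = mr D.cs (D.T c) (D.rr x) := by
    rw [hy, D.rr_mul_inl, ha]
    simp [pt]
  have key := D.anti_orbit ht hf y c (by
    intro v hv
    rw [hry]
    exact mr_length D.cs (D.T c) (D.rr x) hv)
  have e1 : ∀ b : WT D.cs (D.T c), x * SemidirectProduct.inl ((a : W)⁻¹ * b) =
      y * SemidirectProduct.inl (b : W) := by
    intro b
    rw [hy, map_mul, mul_assoc]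
  have e2 : x = y * SemidirectProduct.inl (a : W) := by
    rw [hy, mul_assoc, ← map_mul]
    simp
  simp_rw [e1, key _ (SetLike.coe_mem _)]
  have e3 : f (x, c) = (D.xi t a : ℂ) * f (y, c) := by
    conv_lhs => rw [e2]
    exact key _ a.2
  rw [e3]
  have hS : (D.Sc t c : ℂ) ≠ 0 := by
    exact_mod_cast (D.Sc_pos ht c).ne'
  have hsum : ∑ b : WT D.cs (D.T c), (D.xi t (b : W) : ℂ) * (D.xi t (b : W) : ℂ) = D.Sc t c := by
    exact_mod_cast D.sum_xi_sq ht c
  calc _ = ∑ b : WT D.cs (D.T c), (D.xi t (b : W) : ℂ) * (D.xi t (b : W) : ℂ) *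
        ((D.xi t a : ℂ) * f (y, c) / D.Sc t c) := by
        apply Finset.sum_congr rfl
        intro b _
        push_cast
        ring
    _ = _ := by
        rw [← Finset.sum_mul, hsum]
        field_simp

theorem Pr_idem {t : ℝ} (ht : 0 < t) : D.Pr t ∘L D.Pr t = D.Pr t := by
  ext1 f
  exact D.Pr_of_anti ht (D.Pr_anti ht f)

theorem Pr_adjoint (t : ℝ) : (D.Pr t).adjoint = D.Pr t := by
  unfold Pr
  simp only [map_sum]
  apply Finset.sum_congr rfl
  intro c _
  rw [Finset.sum_comm]
  apply Finset.sum_congr rfl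
  intro a _
  apply Finset.sum_congr rfl
  intro b _
  rw [LinearIsometryEquiv.map_smulₛₗ, opP_adjoint, mu_symm]
  congr 1
  simp [mul_comm]

end HData

end Pool.Agent.Lib.P9f173d
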