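import Pool.Agent.Lib.P9f173d.Hecke1

/-!
Left Hecke operators; commutation with the Hecke projections; trace.
-/

namespace Pool.Agent.Lib.P9f173d

open CoxeterSystem

theorem opP_ofSet_apply {J : Type*} (s : Set J) [DecidablePred (· ∈ s)] (f : L2 J) (j : J) :
    opP (PEquiv.ofSet s) f j = if j ∈ s then f j else 0 := by
  rw [opP_apply]
  show (if j ∈ s then some j else none).elim 0 f = _
  split_ifs <;> rfl

namespace HData

variable {B W G ι : Type*} [Group W] [Group G] [MulAction G B] (D : HData B W G ι)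

/-- Left multiplication by a group element, on the index set. -/
def lme (y : D.X) : (D.X × ι) ≃ (D.X × ι) := (Equiv.mulLeft y).prodCongr (Equiv.refl ι)

theorem lme_apply (y x : D.X) (c : ι) : D.lme y (x, c) = (y * x, c) := rfl

theorem lme_symm (y : D.X) : (D.lme y).symm = D.lme y⁻¹ := by
  ext p <;> simp [lme]

open Classical in
/-- Restriction to left descents. -/
noncomputable def dsc (b : B) : (D.X × ι) ≃. (D.X × ι) :=
  PEquiv.ofSet {p | D.cs.length (D.cs.simple b * p.1.left) < D.cs.length p.1.left}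

open Classical in
theorem opP_dsc_apply (b : B) (f : L2 (D.X × ι)) (p : D.X × ι) : opP (D.dsc b) f p =
    if D.cs.length (D.cs.simple b * p.1.left) < D.cs.length p.1.left then f p else 0 := by
  unfold dsc
  exact opP_ofSet_apply {p : D.X × ι |
    D.cs.length (D.cs.simple b * p.1.left) < D.cs.length p.1.left} f p

/-- The left Hecke operator. -/
noncomputable def lam (t : ℝ) (b : B) : L2 (D.X × ι) →L[ℂ] L2 (D.X × ι) :=
  ((Real.sqrt (D.th t b) : ℝ) : ℂ) •
      opP (D.lme (SemidirectProduct.inl (D.cs.simple b))).toPEquiv +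
    ((D.th t b - 1 : ℝ) : ℂ) • opP (D.dsc b)

/-- The left translation by `G`. -/
noncomputable def lamG (g : G) : L2 (D.X × ι) →L[ℂ] L2 (D.X × ι) :=
  opP (D.lme (SemidirectProduct.inr g⁻¹)).toPEquiv

open Classical in
theorem lam_apply (t : ℝ) (b : B) (f : L2 (D.X × ι)) (x : D.X) (c : ι) :
    D.lam t b f (x, c) = (Real.sqrt (D.th t b) : ℝ) *
        f (SemidirectProduct.inl (D.cs.simple b) * x, c) +
      if D.cs.length (D.cs.simple b * x.left) < D.cs.length x.left then
        ((D.th t b - 1 : ℝ) : ℂ) * f (x, c) else 0 := by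
  unfold lam
  simp only [add_apply, smul_apply, lp.coeFn_add, lp.coeFn_smul,
    Pi.add_apply, Pi.smul_apply, smul_eq_mul]
  rw [opP_dsc_apply]
  congr 1
  by_cases h : D.cs.length (D.cs.simple b * x.left) < D.cs.length x.left
  · rw [if_pos h, if_pos (by exact h)]
  · rw [if_neg h, if_neg (by exact h), mul_zero]

theorem lamG_apply (g : G) (f : L2 (D.X × ι)) (x : D.X) (c : ι) :
    D.lamG g f (x, c) = f (SemidirectProduct.inr g⁻¹ * x, c) := by
  unfold lamG
  simp [opP_apply, lme_apply]

theorem toPEquiv_symm' {α β : Type*} (e : α ≃ β) : e.toPEquiv.symm = e.symm.toPEquiv := rfl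

theorem lam_adjoint (t : ℝ) (b : B) : (D.lam t b).adjoint = D.lam t b := by
  unfold lam
  rw [map_add, LinearIsometryEquiv.map_smulₛₗ, LinearIsometryEquiv.map_smulₛₗ, opP_adjoint,
    opP_adjoint, toPEquiv_symm', lme_symm]
  have : (D.dsc b : (D.X × ι) ≃. (D.X × ι)).symm = D.dsc b := by
    unfold dsc; rfl
  rw [this]
  have e2 : (SemidirectProduct.inl (D.cs.simple b) : D.X)⁻¹ =
      SemidirectProduct.inl (D.cs.simple b) := by
    rw [← map_inv, inv_simple]
  rw [e2]
  simp

theorem lamG_adjoint (g : G) :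
    (D.lamG g : L2 (D.X × ι) →L[ℂ] L2 (D.X × ι)).adjoint = D.lamG g⁻¹ := by
  unfold lamG
  rw [opP_adjoint, toPEquiv_symm', lme_symm, map_inv, map_inv, map_inv]

theorem anti_lamG {t : ℝ} (g : G) {f : L2 (D.X × ι)} (hf : D.Anti t f) :
    D.Anti t (D.lamG g f) := by
  intro x c b hb hl
  rw [lamG_apply, lamG_apply, ← mul_assoc]
  exact hf _ c b hb (by rwa [D.rr_inr_mul])

theorem left_eq (x : D.X) : D.φ x.right (D.rr x) = x.left := by
  simp [rr]

theorem anti_lam {t : ℝ} (ht : 0 < t) (b : B) {f : L2 (D.X × ι)} (hf : D.Anti t f) :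
    D.Anti t (D.lam t b f) := by
  classical
  intro x c b0 hb hl
  rw [lam_apply, lam_apply]
  set u := D.rr x with hu
  set b' := x.right⁻¹ • b with hb'
  set z : D.X := SemidirectProduct.inl (D.cs.simple b) * x with hz
  have hrz : D.rr z = D.cs.simple b' * u := by
    rw [hz, D.rr_inl_mul, D.hφ]
  have hxl : D.cs.length x.left = D.cs.length u := (D.length_rr x).symm
  have hzl : D.cs.length (D.cs.simple b * x.left) = D.cs.length (D.cs.simple b' * u) := by
    rw [← hrz, D.length_rr]; simp [hz]
  set y : D.X := x * SemidirectProduct.inl (D.cs.simple b0) with hy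
  have hry : D.rr y = u * D.cs.simple b0 := D.rr_mul_inl _ _
  have hyl : D.cs.length y.left = D.cs.length (u * D.cs.simple b0) := by
    rw [← hry, D.length_rr]
  have hzy : SemidirectProduct.inl (D.cs.simple b) * y =
      z * SemidirectProduct.inl (D.cs.simple b0) := by rw [hy, hz, mul_assoc]
  have hsyl : D.cs.length (D.cs.simple b * y.left) =
      D.cs.length (D.cs.simple b' * u * D.cs.simple b0) := by
    have h1 : (SemidirectProduct.inl (D.cs.simple b) * y : D.X).left = D.cs.simple b * y.left := by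
      simp
    rw [← h1, ← D.length_rr, hzy, D.rr_mul_inl, hrz]
  rw [hxl, hzl, hyl, hsyl, hzy]
  have l1 : D.cs.length (u * D.cs.simple b0) = D.cs.length u + 1 := by
    rcases D.cs.length_mul_simple u b0 with h | h <;> omega
  have hu' := D.cs.length_simple_mul u b'
  have hv' := D.cs.length_simple_mul (u * D.cs.simple b0) b'
  rw [← mul_assoc] at hv'
  have hw' := D.cs.length_mul_simple (D.cs.simple b' * u) b0
  have hfx := hf x c b0 hb hl
  by_cases hA : D.cs.length (D.cs.simple b' * u) < D.cs.length u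
  · by_cases hB : D.cs.length (D.cs.simple b' * u * D.cs.simple b0) <
        D.cs.length (u * D.cs.simple b0)
    · rw [if_pos hA, if_pos hB]
      have hfz := hf z c b0 hb (by rw [hrz]; omega)
      rw [hfz]
      rw [hy, hfx]
      push_cast
      ring
    · exfalso; omega
  · by_cases hB : D.cs.length (D.cs.simple b' * u * D.cs.simple b0) <
        D.cs.length (u * D.cs.simple b0)
    · rw [if_neg hA, if_pos hB]
      have hcomm := simple_mul_eq_mul_simple D.cs (w := u) (i := b') (j := b0)
        (by omega) hl hB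
      have hzeq : z = y := by
        rw [hz, hy]
        ext
        · simp only [SemidirectProduct.mul_left, SemidirectProduct.left_inl,
            SemidirectProduct.right_inl, map_one, MulAut.one_apply]
          rw [← D.left_eq x, ← map_mul, ← hu, ← hcomm, map_mul, D.hφ, hb', smul_inv_smul]
        · simp
      have hpr : D.pr b = D.pr b0 := by
        have e1 := D.wt_left u b' (by omega)
        have e2 := D.wt_right u b0 hl
        rw [hcomm, e2] at e1
        have e3 : D.pr b0 = D.pr b' := by
          have hpos := (D.wt_pos u).ne'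
          have : D.wt u * D.pr b0 = D.wt u * D.pr b' := by rw [e1]; ring
          exact mul_left_cancel₀ hpos this
        rw [e3, hb', D.pr_act]
      have hth : D.th t b = D.th t b0 := by rw [th, th, hpr]
      have hzs : z * SemidirectProduct.inl (D.cs.simple b0) = x := by
        rw [hzeq, hy, mul_assoc, ← map_mul]
        simp
      rw [hzs, hzeq]
      rw [hy, hfx, hth]
      have hpos := D.th_pos ht b0
      have hsq : Real.sqrt (D.th t b0) * Real.sqrt (D.th t b0) = D.th t b0 :=
        Real.mul_self_sqrt hpos.le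
      have hne : Real.sqrt (D.th t b0) ≠ 0 := (Real.sqrt_pos.mpr hpos).ne'
      set r := Real.sqrt (D.th t b0) with hr
      rw [← hsq]
      have key : (r : ℂ) ≠ 0 := by exact_mod_cast hne
      push_cast
      field_simp
      ring
    · rw [if_neg hA, if_neg hB]
      have hfz := hf z c b0 hb (by rw [hrz]; omega)
      rw [hfz]
      push_cast
      ring

section comm

variable [DecidableEq ι] [Fintype ι]

theorem Pr_lam {t : ℝ} (ht : 0 < t) (b : B) : D.Pr t ∘L D.lam t b = D.lam t b ∘L D.Pr t := by
  have h1 : D.Pr t ∘L (D.lam t b ∘L D.Pr t) = D.lam t b ∘L D.Pr t := by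
    ext1 f
    exact D.Pr_of_anti ht (D.anti_lam ht b (D.Pr_anti ht f))
  have h2 := congrArg ContinuousLinearMap.adjoint h1
  rw [ContinuousLinearMap.adjoint_comp, ContinuousLinearMap.adjoint_comp, D.Pr_adjoint,
    D.lam_adjoint] at h2
  rw [← h2, ContinuousLinearMap.comp_assoc, h1]

theorem Pr_lamG {t : ℝ} (ht : 0 < t) (g : G) : D.Pr t ∘L D.lamG g = D.lamG g ∘L D.Pr t := by
  have h1 : ∀ g : G, D.Pr t ∘L (D.lamG g ∘L D.Pr t) = D.lamG g ∘L D.Pr t := by
    intro g
    ext1 f
    exact D.Pr_of_anti ht (D.anti_lamG g (D.Pr_anti ht f))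
  have h2 := congrArg ContinuousLinearMap.adjoint (h1 g⁻¹)
  rw [ContinuousLinearMap.adjoint_comp, ContinuousLinearMap.adjoint_comp, D.Pr_adjoint,
    D.lamG_adjoint, inv_inv] at h2
  rw [← h2, ContinuousLinearMap.comp_assoc, h1]

end comm

section Lambda

variable [DecidableEq W] [DecidableEq G] [DecidableEq ι]

instance instDecX : DecidableEq D.X := fun x y =>
  decidable_of_iff (x.left = y.left ∧ x.right = y.right) (by
    constructor
    · rintro ⟨h1, h2⟩; exact SemidirectProduct.ext h1 h2
    · rintro rfl; exact ⟨rfl, rfl⟩)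

theorem lamG_dl (g : G) (x : D.X) (c : ι) :
    D.lamG g (dl (x, c)) = dl (SemidirectProduct.inr g * x, c) := by
  unfold lamG
  apply opP_dl
  simp [Equiv.toPEquiv_apply, lme_apply]

theorem lam_dl (t : ℝ) (b : B) (x : D.X) (c : ι)
    (h : D.cs.length x.left < D.cs.length (D.cs.simple b * x.left)) :
    D.lam t b (dl (x, c)) = ((Real.sqrt (D.th t b) : ℝ) : ℂ) •
      dl (SemidirectProduct.inl (D.cs.simple b) * x, c) := by
  classical
  have h1 : opP (D.lme (SemidirectProduct.inl (D.cs.simple b))).toPEquiv (dl (x, c)) =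
      dl (SemidirectProduct.inl (D.cs.simple b) * x, c) := by
    apply opP_dl
    simp [Equiv.toPEquiv_apply, lme_apply, ← mul_assoc, ← map_mul]
  have h2 : opP (D.dsc b) (dl (x, c)) = 0 := by
    ext ⟨y, c'⟩
    rw [opP_dsc_apply]
    by_cases hy : D.cs.length (D.cs.simple b * y.left) < D.cs.length y.left
    · rw [if_pos (by exact hy)]
      simp only [dl_apply, lp.coeFn_zero, Pi.zero_apply, Prod.mk.injEq]
      rw [if_neg]
      rintro ⟨rfl, rfl⟩
      omega
    · rw [if_neg (by exact hy)]
      simp
  unfold lam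
  rw [add_apply, smul_apply, smul_apply, h1, h2, smul_zero, add_zero]

/-- The normalised left Hecke operator. -/
noncomputable def lamN (t : ℝ) (b : B) : L2 (D.X × ι) →L[ℂ] L2 (D.X × ι) :=
  (((Real.sqrt (D.th t b))⁻¹ : ℝ) : ℂ) • D.lam t b

theorem lamN_dl {t : ℝ} (ht : 0 < t) (b : B) (x : D.X) (c : ι)
    (h : D.cs.length x.left < D.cs.length (D.cs.simple b * x.left)) :
    D.lamN t b (dl (x, c)) = dl (SemidirectProduct.inl (D.cs.simple b) * x, c) := by
  unfold lamN
  rw [smul_apply, D.lam_dl t b x c h, smul_smul]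
  have : Real.sqrt (D.th t b) ≠ 0 := (Real.sqrt_pos.mpr (D.th_pos ht b)).ne'
  rw [← Complex.ofReal_mul, inv_mul_cancel₀ this]
  simp

omit [DecidableEq W] [DecidableEq G] [DecidableEq ι] in
theorem lamN_adjoint (t : ℝ) (b : B) :
    (D.lamN t b : L2 (D.X × ι) →L[ℂ] L2 (D.X × ι)).adjoint = D.lamN t b := by
  unfold lamN
  rw [LinearIsometryEquiv.map_smulₛₗ, D.lam_adjoint]
  simp

theorem exists_Lw {t : ℝ} (ht : 0 < t) (w : W) : ∃ L : L2 (D.X × ι) →L[ℂ] L2 (D.X × ι),
    (∀ T : L2 (D.X × ι) →L[ℂ] L2 (D.X × ι), (∀ b, T ∘L D.lam t b = D.lam t b ∘L T) →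
      T ∘L L = L ∘L T) ∧
    (∀ (x : D.X) (c : ι), D.cs.length (w * x.left) = D.cs.length w + D.cs.length x.left →
      L (dl (x, c)) = dl (SemidirectProduct.inl w * x, c)) ∧
    (∀ (x : D.X) (c : ι), D.cs.length (w⁻¹ * x.left) = D.cs.length w + D.cs.length x.left →
      L.adjoint (dl (x, c)) = dl (SemidirectProduct.inl w⁻¹ * x, c)) := by
  induction h : D.cs.length w using Nat.strong_induction_on generalizing w with
  | _ n ih =>
    by_cases hw : w = 1
    · subst hw
      refine ⟨ContinuousLinearMap.id ℂ _, ?_, ?_, ?_⟩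
      · intro T _
        simp
      · intro x c _
        simp
      · intro x c _
        have : (ContinuousLinearMap.id ℂ (L2 (D.X × ι))).adjoint =
            ContinuousLinearMap.id ℂ _ := by
          symm
          rw [ContinuousLinearMap.eq_adjoint_iff]
          simp
        rw [this]
        simp
    · obtain ⟨b, hb⟩ := D.cs.exists_leftDescent_of_ne_one hw
      set w' := D.cs.simple b * w with hw'
      have hww : w = D.cs.simple b * w' := by rw [hw']; simp
      have hl : D.cs.length w = D.cs.length w' + 1 := by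
        have := (D.cs.isLeftDescent_iff).mp hb
        rw [← hw'] at this
        omega
      obtain ⟨L, h1, h2, h3⟩ := ih (D.cs.length w') (by omega) w' rfl
      refine ⟨D.lamN t b ∘L L, ?_, ?_, ?_⟩
      · intro T hT
        have e1 : T ∘L D.lamN t b = D.lamN t b ∘L T := by
          unfold lamN
          rw [ContinuousLinearMap.comp_smul, hT b, ContinuousLinearMap.smul_comp]
        rw [← ContinuousLinearMap.comp_assoc, e1, ContinuousLinearMap.comp_assoc, h1 T hT,
          ContinuousLinearMap.comp_assoc]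
      · intro x c hx
        have e1 := D.cs.length_mul_le (D.cs.simple b) (w' * x.left)
        have e2 := D.cs.length_mul_le w' x.left
        rw [← mul_assoc, ← hww, D.cs.length_simple] at e1
        rw [ContinuousLinearMap.comp_apply, h2 x c (by omega)]
        rw [D.lamN_dl ht]
        · rw [← mul_assoc, ← map_mul, ← hww]
        · simp only [SemidirectProduct.mul_left, SemidirectProduct.left_inl,
            SemidirectProduct.right_inl, map_one, MulAut.one_apply]
          rw [← mul_assoc, ← hww]
          omega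
      · intro x c hx
        have e0 : w⁻¹ * x.left = w'⁻¹ * (D.cs.simple b * x.left) := by
          rw [hww]; simp [mul_assoc]
        have e1 := D.cs.length_mul_le w'⁻¹ (D.cs.simple b * x.left)
        have e2 := D.cs.length_mul_le (D.cs.simple b) x.left
        rw [← e0, D.cs.length_inv] at e1
        rw [D.cs.length_simple] at e2
        rw [ContinuousLinearMap.adjoint_comp, D.lamN_adjoint, ContinuousLinearMap.comp_apply,
          D.lamN_dl ht b x c (by omega)]
        have e3 : (SemidirectProduct.inl (D.cs.simple b) * x : D.X).left =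
          D.cs.simple b * x.left := by simp
        rw [h3 _ c (by rw [e3, ← e0]; omega)]
        rw [← mul_assoc, ← map_mul, hww]
        simp

/-- The operators used in the trace lemma. -/
theorem exists_Lam {t : ℝ} (ht : 0 < t) : ∃ Λ : D.X → (L2 (D.X × ι) →L[ℂ] L2 (D.X × ι)),
    (∀ x c, Λ x (dl (1, c)) = dl (x, c)) ∧
    (∀ x c, (Λ x).adjoint (dl (1, c)) = dl (x⁻¹, c)) ∧
    (∀ T : L2 (D.X × ι) →L[ℂ] L2 (D.X × ι), (∀ b, T ∘L D.lam t b = D.lam t b ∘L T) →
      (∀ g, T ∘L D.lamG g = D.lamG g ∘L T) → ∀ x, T ∘L Λ x = Λ x ∘L T) := by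
  choose L h1 h2 h3 using fun w : W => D.exists_Lw (ι := ι) ht w
  refine ⟨fun x => L x.left ∘L D.lamG x.right, ?_, ?_, ?_⟩
  · intro x c
    rw [ContinuousLinearMap.comp_apply, D.lamG_dl, mul_one, h2 x.left _ c (by simp)]
    rw [SemidirectProduct.inl_left_mul_inr_right]
  · intro x c
    rw [ContinuousLinearMap.adjoint_comp, ContinuousLinearMap.comp_apply, h3 x.left 1 c (by simp),
      mul_one, D.lamG_adjoint, D.lamG_dl]
    congr 2
    rw [← SemidirectProduct.inl_left_mul_inr_right x, mul_inv_rev, map_inv, map_inv]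
    simp
  · intro T hT hG x
    rw [← ContinuousLinearMap.comp_assoc, h1 _ T hT, ContinuousLinearMap.comp_assoc, hG,
      ContinuousLinearMap.comp_assoc]

end Lambda

section cont

variable [DecidableEq ι] [Fintype ι]

omit [DecidableEq ι] [Fintype ι] in
theorem continuousAt_wn (t : ℝ) (w : W) : ContinuousAt (fun t => D.wn t w) t := by
  unfold wn
  fun_prop

omit [DecidableEq ι] [Fintype ι] in
theorem continuousAt_xi {t : ℝ} (ht : 0 < t) (w : W) : ContinuousAt (fun t => D.xi t w) t := by
  unfold xi
  apply ContinuousAt.mul continuousAt_const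
  apply ContinuousAt.inv₀
  · exact Real.continuous_sqrt.continuousAt.comp (D.continuousAt_wn t w)
  · exact (Real.sqrt_pos.mpr (D.wn_pos ht w)).ne'

omit [DecidableEq ι] [Fintype ι] in
theorem continuousAt_Sc {t : ℝ} (ht : 0 < t) (c : ι) : ContinuousAt (fun t => D.Sc t c) t := by
  unfold Sc
  apply tendsto_finsetSum
  intro a _
  exact (D.continuousAt_wn t (a : W)).inv₀ (D.wn_pos ht _).ne'

theorem continuousAt_Pr {t : ℝ} (ht : 0 < t) :
    ContinuousAt (fun t => (D.Pr t : L2 (D.X × ι) →L[ℂ] L2 (D.X × ι))) t := by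
  unfold Pr
  apply tendsto_finsetSum
  intro c _
  apply tendsto_finsetSum
  intro a _
  apply tendsto_finsetSum
  intro b _
  apply Filter.Tendsto.smul _ tendsto_const_nhds
  apply (Complex.continuous_ofReal.tendsto _).comp
  exact ((D.continuousAt_xi ht _).mul (D.continuousAt_xi ht _)).div (D.continuousAt_Sc ht c)
    (D.Sc_pos ht c).ne'

end cont

end HData

end Pool.Agent.Lib.P9f173d
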