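import Mathlib

/-!
Exact bounded complexes of Hilbert spaces have invertible Dirac operators.
-/

namespace Pool.Agent.Lib.P9f173d

open ContinuousLinearMap

variable {H : Type*} [NormedAddCommGroup H] [InnerProductSpace ℂ H] [CompleteSpace H]

omit [CompleteSpace H] in
theorem norm_inner_self2 (a : H) : ‖inner ℂ a a‖ = ‖a‖ ^ 2 := by
  rw [inner_self_eq_norm_sq_to_K]
  simp

omit [CompleteSpace H] in
theorem norm_add_sq_of_inner_zero {x y : H} (h : inner ℂ x y = 0) :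
    ‖x + y‖ ^ 2 = ‖x‖ ^ 2 + ‖y‖ ^ 2 := by
  have := norm_add_sq_eq_norm_sq_add_norm_sq_of_inner_eq_zero x y h
  nlinarith [this]

theorem hodge_isUnit (P δ : H →L[ℂ] H) (hP2 : P ∘L P = P) (hPs : P.adjoint = P)
    (h1 : P ∘L δ = δ) (h2 : δ ∘L P = δ) (h3 : δ ∘L δ = 0)
    (hex : ∀ y, P y = y → δ y = 0 → ∃ z, δ z = y) :
    IsUnit (δ + δ.adjoint + (1 - P)) := by
  have p1 : ∀ x, P (P x) = P x := fun x => congrArg (fun T => T x) hP2
  have p2 : ∀ x, P (δ x) = δ x := fun x => congrArg (fun T => T x) h1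
  have p3 : ∀ x, δ (P x) = δ x := fun x => congrArg (fun T => T x) h2
  have p4 : ∀ x, δ (δ x) = 0 := fun x => congrArg (fun T => T x) h3
  have h1' : δ.adjoint ∘L P = δ.adjoint := by
    have := congrArg ContinuousLinearMap.adjoint h1
    rwa [adjoint_comp, hPs] at this
  have h2' : P ∘L δ.adjoint = δ.adjoint := by
    have := congrArg ContinuousLinearMap.adjoint h2
    rwa [adjoint_comp, hPs] at this
  have q2 : ∀ x, P (δ.adjoint x) = δ.adjoint x := fun x => congrArg (fun T => T x) h2'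
  have q3 : ∀ x, δ.adjoint (P x) = δ.adjoint x := fun x => congrArg (fun T => T x) h1'
  have pin : ∀ x y, inner ℂ (P x) y = inner ℂ x (P y) := by
    intro x y
    have := adjoint_inner_left P y x
    rwa [hPs] at this
  -- the space of cycles
  let N : Submodule ℂ H := LinearMap.ker (δ : H →ₗ[ℂ] H) ⊓ LinearMap.ker ((1 - P : H →L[ℂ] H) : H →ₗ[ℂ] H)
  have hN : ∀ x, x ∈ N ↔ δ x = 0 ∧ P x = x := by
    intro x
    simp only [N, Submodule.mem_inf, LinearMap.mem_ker, ContinuousLinearMap.coe_coe,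
      sub_apply, one_apply_eq_self, sub_eq_zero]
    constructor
    · rintro ⟨a, b⟩; exact ⟨a, b.symm⟩
    · rintro ⟨a, b⟩; exact ⟨a, b.symm⟩
  have hNc : IsClosed (N : Set H) := by
    have : (N : Set H) = {x | δ x = 0} ∩ {x | P x = x} := by
      ext x; exact hN x
    rw [this]
    exact (isClosed_eq δ.continuous continuous_const).inter (isClosed_eq P.continuous continuous_id)
  have : CompleteSpace N := hNc.completeSpace_coe
  let f : H →L[ℂ] N := δ.codRestrict N (fun x => (hN _).mpr ⟨p4 x, p2 x⟩)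
  have hf : Function.Surjective f := by
    rintro ⟨y, hy⟩
    obtain ⟨z, hz⟩ := hex y ((hN y).mp hy).2 ((hN y).mp hy).1
    exact ⟨z, Subtype.ext hz⟩
  obtain ⟨C, hC0, hC⟩ := f.exists_preimage_norm_le hf
  have hC' : ∀ a ∈ N, ∃ z, δ z = a ∧ ‖z‖ ≤ C * ‖a‖ := by
    intro a ha
    obtain ⟨z, hz1, hz2⟩ := hC ⟨a, ha⟩
    exact ⟨z, congrArg Subtype.val hz1, hz2⟩
  -- bound on cycles
  have bA : ∀ a ∈ N, ‖a‖ ≤ C * ‖δ.adjoint a‖ := by
    intro a ha
    obtain ⟨z, hz1, hz2⟩ := hC' a ha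
    have e1 : ‖a‖ ^ 2 = ‖inner ℂ z (δ.adjoint a)‖ := by
      rw [adjoint_inner_right, hz1, norm_inner_self2 a]
    have e2 := norm_inner_le_norm (𝕜 := ℂ) z (δ.adjoint a)
    by_cases h0 : ‖a‖ = 0
    · rw [h0]; positivity
    · have hpos : 0 < ‖a‖ := lt_of_le_of_ne (norm_nonneg _) (Ne.symm h0)
      have : ‖a‖ * ‖a‖ ≤ ‖a‖ * (C * ‖δ.adjoint a‖) := by
        calc ‖a‖ * ‖a‖ = ‖a‖ ^ 2 := by ring
          _ ≤ ‖z‖ * ‖δ.adjoint a‖ := by rw [e1]; exact e2
          _ ≤ (C * ‖a‖) * ‖δ.adjoint a‖ := by gcongr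
          _ = _ := by ring
      exact le_of_mul_le_mul_left this hpos
  have bB : ∀ b, b ∈ Nᗮ → P b = b → ‖b‖ ≤ C * ‖δ b‖ := by
    intro b hb hPb
    obtain ⟨z, hz1, hz2⟩ := hC' (δ b) ((hN _).mpr ⟨p4 b, p2 b⟩)
    have hmem : b - P z ∈ N := by
      rw [hN]
      constructor
      · rw [map_sub, p3, hz1, sub_self]
      · rw [map_sub, hPb, p1]
    have h0 : inner ℂ b (b - P z) = 0 := Submodule.inner_left_of_mem_orthogonal hmem hb
    rw [inner_sub_right, sub_eq_zero] at h0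
    have e3 : inner ℂ b (P z) = inner ℂ b z := by rw [← pin, hPb]
    have e1 : ‖b‖ ^ 2 = ‖inner ℂ b z‖ := by
      rw [← e3, ← h0, norm_inner_self2 b]
    have e2 := norm_inner_le_norm (𝕜 := ℂ) b z
    by_cases h0 : ‖b‖ = 0
    · rw [h0]; positivity
    · have hpos : 0 < ‖b‖ := lt_of_le_of_ne (norm_nonneg _) (Ne.symm h0)
      have : ‖b‖ * ‖b‖ ≤ ‖b‖ * (C * ‖δ b‖) := by
        calc ‖b‖ * ‖b‖ = ‖b‖ ^ 2 := by ring
          _ ≤ ‖b‖ * ‖z‖ := by rw [e1]; exact e2
          _ ≤ ‖b‖ * (C * ‖δ b‖) := by gcongr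
      exact le_of_mul_le_mul_left this hpos
  set L : H →L[ℂ] H := δ + δ.adjoint + (1 - P) with hL
  have hLs : L.adjoint = L := by
    have e1 : (1 : H →L[ℂ] H).adjoint = 1 := by
      symm; rw [eq_adjoint_iff]; simp
    rw [hL, map_add, map_add, adjoint_adjoint, map_sub, hPs, e1, add_comm δ.adjoint δ]
  have key : ∀ x, ‖x‖ ^ 2 ≤ (C ^ 2 + 1) * ‖L x‖ ^ 2 := by
    intro x
    set u := P x with hu
    set v := x - P x with hv
    have hPu : P u = u := p1 x
    have hPv : P v = 0 := by rw [hv, map_sub, p1, sub_self]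
    have hx : x = u + v := by rw [hu, hv]; abel
    have hLx : L x = (δ u + δ.adjoint u) + v := by
      rw [hL]
      simp only [add_apply, sub_apply, one_apply_eq_self]
      rw [← p3 x, ← q3 x]
    have i1 : inner ℂ (δ u + δ.adjoint u) v = 0 := by
      have : P (δ u + δ.adjoint u) = δ u + δ.adjoint u := by rw [map_add, p2, q2]
      rw [← this, pin, hPv, inner_zero_right]
    have i2 : inner ℂ (δ u) (δ.adjoint u) = 0 := by
      rw [adjoint_inner_right, p4, inner_zero_left]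
    have i3 : inner ℂ u v = 0 := by
      rw [← hPu, pin, hPv, inner_zero_right]
    have n1 : ‖L x‖ ^ 2 = ‖δ u‖ ^ 2 + ‖δ.adjoint u‖ ^ 2 + ‖v‖ ^ 2 := by
      rw [hLx, norm_add_sq_of_inner_zero i1, norm_add_sq_of_inner_zero i2]
    have n2 : ‖x‖ ^ 2 = ‖u‖ ^ 2 + ‖v‖ ^ 2 := by
      conv_lhs => rw [hx]
      exact norm_add_sq_of_inner_zero i3
    obtain ⟨a, ha, b, hb, hab⟩ := N.exists_add_mem_mem_orthogonal u
    have hPa : P a = a := ((hN a).mp ha).2
    have hδa : δ a = 0 := ((hN a).mp ha).1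
    have hPb : P b = b := by
      have : b = u - a := by rw [hab]; abel
      rw [this, map_sub, hPu, hPa]
    have i4 : inner ℂ a b = 0 := Submodule.inner_right_of_mem_orthogonal ha hb
    have hδb : δ.adjoint b = 0 := by
      have : ∀ z, inner ℂ (δ.adjoint b) z = 0 := by
        intro z
        rw [adjoint_inner_left]
        exact Submodule.inner_left_of_mem_orthogonal ((hN _).mpr ⟨p4 z, p2 z⟩) hb
      exact inner_self_eq_zero.mp (this _)
    have n3 : ‖u‖ ^ 2 = ‖a‖ ^ 2 + ‖b‖ ^ 2 := by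
      rw [hab, norm_add_sq_of_inner_zero i4]
    have e5 : δ u = δ b := by rw [hab, map_add, hδa, zero_add]
    have e6 : δ.adjoint u = δ.adjoint a := by rw [hab, map_add, hδb, add_zero]
    have m1 := bA a ha
    have m2 := bB b hb hPb
    have m3 : ‖a‖ ^ 2 ≤ C ^ 2 * ‖δ.adjoint u‖ ^ 2 := by
      rw [e6, ← mul_pow]
      exact pow_le_pow_left₀ (norm_nonneg _) m1 2
    have m4 : ‖b‖ ^ 2 ≤ C ^ 2 * ‖δ u‖ ^ 2 := by
      rw [e5, ← mul_pow]
      exact pow_le_pow_left₀ (norm_nonneg _) m2 2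
    rw [n2, n3, n1]
    nlinarith [sq_nonneg ‖v‖, sq_nonneg ‖δ u‖, sq_nonneg ‖δ.adjoint u‖, sq_nonneg C]
  have hunit : IsUnit (L * L) := by
    apply isUnit_of_forall_le_norm_inner_map (c := ⟨(C ^ 2 + 1)⁻¹, by positivity⟩)
    · show (0 : ℝ) < (C ^ 2 + 1)⁻¹
      positivity
    · intro x
      have e1 : inner ℂ ((L * L) x) x = inner ℂ (L x) (L x) := by
        have := adjoint_inner_left L x (L x)
        rw [hLs] at this
        exact this
      rw [e1, norm_inner_self2]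
      have := key x
      show ‖x‖ ^ 2 * (C ^ 2 + 1)⁻¹ ≤ _
      rw [mul_inv_le_iff₀ (by positivity)]
      linarith
  exact ((Commute.refl L).isUnit_mul_iff.mp hunit).1

end Pool.Agent.Lib.P9f173d
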