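import Mathlib

/-!
Equivariant lifting, comparison of complexes, and square-summable functionals.
-/

namespace Pool.Agent.Lib.P9f173d

open LinearMap

section lift

variable {Γ : Type*} [Group Γ]
variable {M : Type*} [AddCommGroup M] [Module ℂ M]
variable {N : Type*} [AddCommGroup N] [Module ℂ N]

/-- A projectivity criterion for a representation. -/
def Proj (ρ : Representation ℂ Γ M) : Prop :=
  ∃ τ : M →ₗ[ℂ] M, (∀ m, (Function.support fun γ => ρ γ (τ (ρ γ⁻¹ m))).Finite) ∧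
    ∀ m, ∑ᶠ γ, ρ γ (τ (ρ γ⁻¹ m)) = m

/-- Equivariant maps. -/
def Eqv (ρ : Representation ℂ Γ M) (σ : Representation ℂ Γ N) (f : M →ₗ[ℂ] N) : Prop :=
  ∀ γ m, f (ρ γ m) = σ γ (f m)

theorem exists_lift {K : Type*} [AddCommGroup K] [Module ℂ K]
    {ρ : Representation ℂ Γ M} {σ : Representation ℂ Γ N} {θ : Representation ℂ Γ K}
    (hρ : Proj ρ) {d : N →ₗ[ℂ] K} (hd : Eqv σ θ d) {φ : M →ₗ[ℂ] K} (hφ : Eqv ρ θ φ)
    (hr : ∀ m, ∃ n, d n = φ m) : ∃ ψ : M →ₗ[ℂ] N, Eqv ρ σ ψ ∧ d ∘ₗ ψ = φ := by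
  obtain ⟨τ, h1, h2⟩ := hρ
  -- a non equivariant lift
  obtain ⟨ψ0, hψ0⟩ : ∃ ψ0 : M →ₗ[ℂ] N, d ∘ₗ ψ0 = φ := by
    have hφ' : ∀ m, φ m ∈ LinearMap.range d := fun m => hr m
    obtain ⟨g, hg⟩ := Module.projective_lifting_property d.rangeRestrict
      (φ.codRestrict (LinearMap.range d) hφ') d.surjective_rangeRestrict
    refine ⟨g, ?_⟩
    ext m
    have := congrArg (fun T => ((T m : LinearMap.range d) : K)) hg
    simpa using this
  have hτ : ∀ γ m, ρ γ (τ (ρ γ⁻¹ m)) = 0 ↔ τ (ρ γ⁻¹ m) = 0 := by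
    intro γ m
    constructor
    · intro h
      have := congrArg (ρ γ⁻¹) h
      simpa using this
    · intro h
      rw [h, map_zero]
  have hfin : ∀ m, (Function.support fun γ => σ γ (ψ0 (τ (ρ γ⁻¹ m)))).Finite := by
    intro m
    apply (h1 m).subset
    intro γ hγ hc
    apply hγ
    simp only
    rw [(hτ γ m).mp hc, map_zero, map_zero]
  let ψ : M →ₗ[ℂ] N :=
    { toFun := fun m => ∑ᶠ γ, σ γ (ψ0 (τ (ρ γ⁻¹ m)))
      map_add' := by
        intro a b
        rw [← finsum_add_distrib (hfin a) (hfin b)]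
        apply finsum_congr
        intro γ
        simp only [map_add]
      map_smul' := by
        intro a b
        rw [RingHom.id_apply, smul_finsum' a (hfin b)]
        apply finsum_congr
        intro γ
        simp only [map_smul] }
  have hψ : ∀ m, ψ m = ∑ᶠ γ, σ γ (ψ0 (τ (ρ γ⁻¹ m))) := fun m => rfl
  refine ⟨ψ, ?_, ?_⟩
  · intro γ0 m
    rw [hψ, hψ]
    have e1 : (σ γ0) (∑ᶠ γ, σ γ (ψ0 (τ (ρ γ⁻¹ m)))) = ∑ᶠ γ, σ γ0 (σ γ (ψ0 (τ (ρ γ⁻¹ m)))) :=
      (σ γ0).toAddMonoidHom.map_finsum (hfin m)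
    rw [e1, ← finsum_comp_equiv (Equiv.mulLeft γ0)]
    apply finsum_congr
    intro γ
    simp only [Equiv.coe_mulLeft, mul_inv_rev, map_mul, Module.End.mul_apply]
    congr 4
    have : (ρ γ0⁻¹ * ρ γ0) m = m := by rw [← map_mul]; simp
    exact congrArg (ρ γ⁻¹) this
  · ext m
    rw [comp_apply, hψ]
    have e1 : d (∑ᶠ γ, σ γ (ψ0 (τ (ρ γ⁻¹ m)))) = ∑ᶠ γ, d (σ γ (ψ0 (τ (ρ γ⁻¹ m)))) :=
      d.toAddMonoidHom.map_finsum (hfin m)
    rw [e1]
    have e2 : φ m = φ (∑ᶠ γ, ρ γ (τ (ρ γ⁻¹ m))) := by rw [h2]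
    have e3 : φ (∑ᶠ γ, ρ γ (τ (ρ γ⁻¹ m))) = ∑ᶠ γ, φ (ρ γ (τ (ρ γ⁻¹ m))) :=
      φ.toAddMonoidHom.map_finsum (h1 m)
    rw [e2, e3]
    apply finsum_congr
    intro γ
    rw [hd, hφ, ← hψ0, comp_apply]

end lift

/-- Graded differential modules with group action and augmentation. -/
structure Cx (Γ : Type*) [Group Γ] where
  /-- the underlying space -/
  V : Type*
  [acg : AddCommGroup V]
  [mod : Module ℂ V]
  /-- the action -/
  ρ : Representation ℂ Γ V
  /-- the differential -/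
  d : V →ₗ[ℂ] V
  /-- the projections to the homogeneous parts -/
  e : ℕ → V →ₗ[ℂ] V
  /-- the augmentation -/
  ε : V →ₗ[ℂ] ℂ
  /-- a bound for the degrees -/
  bd : ℕ
  e_idem : ∀ k v, e k (e k v) = e k v
  e_orth : ∀ k l v, k ≠ l → e k (e l v) = 0
  e_sum : ∀ v, ∑ k ∈ Finset.range (bd + 1), e k v = v
  d_e : ∀ k v, d (e (k + 1) v) = e k (d v)
  d_e0 : ∀ v, d (e 0 v) = 0
  d_d : ∀ v, d (d v) = 0
  ε_d : ∀ v, ε (d v) = 0
  ε_e : ∀ k v, k ≠ 0 → ε (e k v) = 0
  ρ_d : Eqv ρ ρ d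
  ρ_e : ∀ k, Eqv ρ ρ (e k)
  ρ_ε : ∀ γ v, ε (ρ γ v) = ε v

attribute [instance] Cx.acg Cx.mod

namespace Cx

variable {Γ : Type*} [Group Γ]

/-- Exactness away from the augmentation. -/
def Exact (C : Cx Γ) : Prop :=
  (∀ v, C.d v = 0 → C.ε v = 0 → ∃ w, C.d w = v) ∧ ∃ v, C.ε v = 1

theorem lift_exact {C D : Cx Γ} (hC : Proj C.ρ) (hD : D.Exact) {φ : C.V →ₗ[ℂ] D.V}
    (h1 : Eqv C.ρ D.ρ φ) (h2 : ∀ v, D.d (φ v) = 0) (h3 : ∀ v, D.ε (φ v) = 0) :
    ∃ ψ : C.V →ₗ[ℂ] D.V, Eqv C.ρ D.ρ ψ ∧ ∀ v, D.d (ψ v) = φ v := by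
  obtain ⟨ψ, k1, k2⟩ := exists_lift hC D.ρ_d h1 (fun m => hD.1 _ (h2 m) (h3 m))
  exact ⟨ψ, k1, fun v => congrArg (fun T => T v) k2⟩

theorem e_d_succ (C : Cx Γ) (k : ℕ) (v : C.V) : C.e k (C.d v) = C.d (C.e (k + 1) v) :=
  (C.d_e k v).symm

/-- Degree-preserving equivariant maps. -/
structure Good {C D : Cx Γ} (f : C.V →ₗ[ℂ] D.V) : Prop where
  eqv : Eqv C.ρ D.ρ f
  gr : ∀ k v, f (C.e k v) = D.e k (f v)

theorem exists_chain_map {C D : Cx Γ} (hC : Proj C.ρ) (hD : D.Exact) :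
    ∃ f : C.V →ₗ[ℂ] D.V, Eqv C.ρ D.ρ f ∧ (∀ v, D.d (f v) = f (C.d v)) ∧
      (∀ v, D.ε (f v) = C.ε v) ∧ (∀ k v, f (C.e k v) = D.e k (f v)) := by
  -- degree zero
  have base : ∃ f : C.V →ₗ[ℂ] D.V, Eqv C.ρ D.ρ f ∧ (∀ v, D.ε (f v) = C.ε v) ∧
      (∀ j, j ≤ 0 → ∀ v, D.d (f (C.e j v)) = f (C.d (C.e j v))) ∧
      (∀ k v, f (C.e k v) = D.e k (f v)) := by
    obtain ⟨v0, hv0⟩ := hD.2
    let θ : Representation ℂ Γ ℂ := 1
    obtain ⟨ψ, k1, k2⟩ := exists_lift (ρ := C.ρ) (σ := D.ρ) (θ := θ) (d := D.ε) (φ := C.ε) hC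
      (fun γ m => by simp [θ, D.ρ_ε]) (fun γ m => by simp [θ, C.ρ_ε])
      (fun m => ⟨C.ε m • v0, by rw [map_smul, hv0]; simp⟩)
    have k2' : ∀ v, D.ε (ψ v) = C.ε v := fun v => congrArg (fun T => T v) k2
    refine ⟨D.e 0 ∘ₗ ψ ∘ₗ C.e 0, ?_, ?_, ?_, ?_⟩
    · intro γ m
      simp only [comp_apply]
      rw [C.ρ_e, k1, D.ρ_e]
    · intro v
      simp only [comp_apply]
      have e1 : ∀ w, D.ε (D.e 0 w) = D.ε w := by
        intro w
        conv_rhs => rw [← D.e_sum w]
        rw [map_sum, Finset.sum_eq_single 0]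
        · intro k _ hk
          exact D.ε_e k w hk
        · intro h; simp at h
      have e2 : ∀ w, C.ε (C.e 0 w) = C.ε w := by
        intro w
        conv_rhs => rw [← C.e_sum w]
        rw [map_sum, Finset.sum_eq_single 0]
        · intro k _ hk
          exact C.ε_e k w hk
        · intro h; simp at h
      rw [e1, k2', e2]
    · intro j hj v
      obtain rfl : j = 0 := by omega
      simp only [comp_apply]
      rw [D.d_e0, C.d_e0, map_zero, map_zero, map_zero]
    · intro k v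
      simp only [comp_apply]
      rcases Nat.eq_zero_or_pos k with rfl | hk
      · rw [C.e_idem, D.e_idem]
      · rw [C.e_orth 0 k v (by omega), D.e_orth k 0 _ (by omega), map_zero, map_zero]
  have step : ∀ n : ℕ, ∃ f : C.V →ₗ[ℂ] D.V, Eqv C.ρ D.ρ f ∧ (∀ v, D.ε (f v) = C.ε v) ∧
      (∀ j, j ≤ n → ∀ v, D.d (f (C.e j v)) = f (C.d (C.e j v))) ∧
      (∀ k v, f (C.e k v) = D.e k (f v)) := by
    intro n
    induction n with
    | zero => exact base
    | succ n ih =>
      obtain ⟨f, f1, f2, f3, f4⟩ := ih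
      obtain ⟨ψ, p1, p2⟩ := lift_exact (C := C) (D := D) hC hD (φ := f ∘ₗ C.d ∘ₗ C.e (n + 1))
        (by
          intro γ m
          simp only [comp_apply]
          rw [C.ρ_e, C.ρ_d, f1])
        (by
          intro v
          simp only [comp_apply]
          rw [C.d_e, f3 n le_rfl, ← C.d_e, C.d_d, map_zero])
        (by
          intro v
          simp only [comp_apply]
          rw [f2, C.ε_d])
      simp only [comp_apply] at p2
      have hpe : ∀ j, j ≤ n → ∀ v, C.e (n + 1) (C.e j v) = 0 := by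
        intro j hj v
        exact C.e_orth _ _ _ (by omega)
      refine ⟨f ∘ₗ (LinearMap.id - C.e (n + 1)) + D.e (n + 1) ∘ₗ ψ ∘ₗ C.e (n + 1),
        ?_, ?_, ?_, ?_⟩
      · intro γ m
        simp only [comp_apply, LinearMap.add_apply, LinearMap.sub_apply, id_apply]
        rw [C.ρ_e, ← map_sub, f1, p1, D.ρ_e, map_add]
      · intro v
        simp only [comp_apply, LinearMap.add_apply, LinearMap.sub_apply, id_apply, map_add,
          map_sub, f2]
        rw [C.ε_e _ _ (by omega), D.ε_e _ _ (by omega)]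
        simp
      · intro j hj v
        rcases Nat.lt_or_ge j (n + 1) with hlt | hge
        · simp only [comp_apply, LinearMap.add_apply, LinearMap.sub_apply, id_apply, map_add,
            map_sub]
          rw [hpe j (by omega)]
          have h5 : C.e (n + 1) (C.d (C.e j v)) = 0 := by
            rw [← C.d_e, C.e_orth _ _ _ (by omega), map_zero]
          rw [h5, f3 j (by omega)]
          simp
        · obtain rfl : j = n + 1 := by omega
          simp only [comp_apply, LinearMap.add_apply, LinearMap.sub_apply, id_apply, map_add,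
            map_sub]
          have h5 : C.e (n + 1) (C.d (C.e (n + 1) v)) = 0 := by
            rw [← C.d_e, C.e_orth _ _ _ (by omega), map_zero]
          rw [h5, C.e_idem]
          have h6 : D.d (D.e (n + 1) (ψ (C.e (n + 1) v))) = f (C.d (C.e (n + 1) v)) := by
            rw [D.d_e, p2, C.e_idem, ← f4, C.d_e, C.e_idem]
          rw [h6]
          simp
      · intro k v
        simp only [comp_apply, LinearMap.add_apply, LinearMap.sub_apply, id_apply, map_add,
          map_sub]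
        rcases eq_or_ne k (n + 1) with rfl | hk
        · rw [C.e_idem, D.e_idem, ← f4, ← f4, C.e_idem]
        · rw [C.e_orth _ _ _ (Ne.symm hk), D.e_orth _ _ _ hk, ← f4, ← f4, C.e_orth _ _ _ hk]
          simp
  obtain ⟨f, f1, f2, f3, f4⟩ := step C.bd
  refine ⟨f, f1, ?_, f2, f4⟩
  intro v
  rw [← C.e_sum v]
  simp only [map_sum]
  apply Finset.sum_congr rfl
  intro k hk
  exact f3 k (by rw [Finset.mem_range] at hk; omega) v

theorem exists_homotopy {C D : Cx Γ} (hC : Proj C.ρ) (hD : D.Exact) {φ : C.V →ₗ[ℂ] D.V}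
    (h1 : Eqv C.ρ D.ρ φ) (h2 : ∀ v, D.d (φ v) = φ (C.d v)) (h3 : ∀ v, D.ε (φ v) = 0)
    (h4 : ∀ k v, φ (C.e k v) = D.e k (φ v)) :
    ∃ h : C.V →ₗ[ℂ] D.V, Eqv C.ρ D.ρ h ∧ ∀ v, D.d (h v) + h (C.d v) = φ v := by
  have step : ∀ n : ℕ, ∃ h : C.V →ₗ[ℂ] D.V, Eqv C.ρ D.ρ h ∧
      (∀ j, j ≤ n → ∀ v, D.d (h (C.e j v)) + h (C.d (C.e j v)) = φ (C.e j v)) ∧
      (∀ k v, h (C.e k v) = D.e (k + 1) (h v)) := by
    intro n
    induction n with
    | zero =>
      obtain ⟨ψ, p1, p2⟩ := lift_exact (C := C) (D := D) hC hD (φ := φ ∘ₗ C.e 0)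
        (by
          intro γ m
          simp only [comp_apply]
          rw [C.ρ_e, h1])
        (by
          intro v
          simp only [comp_apply]
          rw [h2, C.d_e0, map_zero])
        (by
          intro v
          simp only [comp_apply]
          rw [h3])
      simp only [comp_apply] at p2
      refine ⟨D.e 1 ∘ₗ ψ ∘ₗ C.e 0, ?_, ?_, ?_⟩
      · intro γ m
        simp only [comp_apply]
        rw [C.ρ_e, p1, D.ρ_e]
      · intro j hj v
        obtain rfl : j = 0 := by omega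
        simp only [comp_apply]
        rw [C.d_e0, D.d_e, p2, C.e_idem, C.e_idem, ← h4, C.e_idem]
        simp
      · intro k v
        simp only [comp_apply]
        rcases Nat.eq_zero_or_pos k with rfl | hk
        · rw [C.e_idem, D.e_idem]
        · rw [C.e_orth 0 k v (by omega), D.e_orth (k + 1) 1 _ (by omega), map_zero, map_zero]
    | succ n ih =>
      obtain ⟨h, f1, f3, f4⟩ := ih
      obtain ⟨ψ, p1, p2⟩ := lift_exact (C := C) (D := D) hC hD
        (φ := (φ - h ∘ₗ C.d) ∘ₗ C.e (n + 1))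
        (by
          intro γ m
          simp only [comp_apply, LinearMap.sub_apply]
          rw [C.ρ_e, C.ρ_d, f1, h1, map_sub])
        (by
          intro v
          simp only [comp_apply, LinearMap.sub_apply, map_sub]
          rw [h2]
          have h6 : C.d (C.e (n + 1) v) = C.e n (C.d v) := C.d_e n v
          have h7 := f3 n le_rfl (C.d v)
          have h8 : C.d (C.e n (C.d v)) = 0 := by rw [← h6, C.d_d]
          rw [h8, map_zero, add_zero] at h7
          rw [h6, h7, sub_self])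
        (by
          intro v
          simp only [comp_apply, LinearMap.sub_apply, map_sub]
          rw [h3, C.d_e, f4, D.ε_e _ _ (by omega), sub_self])
      simp only [comp_apply, LinearMap.sub_apply] at p2
      refine ⟨h ∘ₗ (LinearMap.id - C.e (n + 1)) + D.e (n + 2) ∘ₗ ψ ∘ₗ C.e (n + 1), ?_, ?_, ?_⟩
      · intro γ m
        simp only [comp_apply, LinearMap.add_apply, LinearMap.sub_apply, id_apply]
        rw [C.ρ_e, ← map_sub, f1, p1, D.ρ_e, map_add]
      · intro j hj v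
        rcases Nat.lt_or_ge j (n + 1) with hlt | hge
        · simp only [comp_apply, LinearMap.add_apply, LinearMap.sub_apply, id_apply, map_add,
            map_sub]
          have h5 : C.e (n + 1) (C.d (C.e j v)) = 0 := by
            rw [← C.d_e, C.e_orth _ _ _ (by omega), map_zero]
          rw [C.e_orth _ _ _ (by omega), h5, ← f3 j (by omega)]
          simp
        · obtain rfl : j = n + 1 := by omega
          simp only [comp_apply, LinearMap.add_apply, LinearMap.sub_apply, id_apply, map_add,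
            map_sub]
          have h5 : C.e (n + 1) (C.d (C.e (n + 1) v)) = 0 := by
            rw [← C.d_e, C.e_orth _ _ _ (by omega), map_zero]
          rw [h5, C.e_idem]
          have h6 : D.d (D.e (n + 2) (ψ (C.e (n + 1) v))) =
              φ (C.e (n + 1) v) - h (C.d (C.e (n + 1) v)) := by
            rw [D.d_e, p2, C.e_idem, map_sub, ← h4, C.e_idem, C.d_e, ← f4, C.e_idem]
          rw [h6]
          simp
      · intro k v
        simp only [comp_apply, LinearMap.add_apply, LinearMap.sub_apply, id_apply, map_add,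
          map_sub]
        rcases eq_or_ne k (n + 1) with rfl | hk
        · rw [C.e_idem, D.e_idem, ← f4, ← f4, C.e_idem]
        · rw [C.e_orth _ _ _ (Ne.symm hk), D.e_orth _ _ _ (by omega), ← f4, ← f4,
            C.e_orth _ _ _ hk]
          simp
  obtain ⟨h, f1, f3, f4⟩ := step C.bd
  refine ⟨h, f1, ?_⟩
  intro v
  rw [← C.e_sum v]
  simp only [map_sum]
  rw [← Finset.sum_add_distrib]
  apply Finset.sum_congr rfl
  intro k hk
  exact f3 k (by rw [Finset.mem_range] at hk; omega) v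

end Cx

section HH

variable {Γ : Type*} [Group Γ]
variable {M : Type*} [AddCommGroup M] [Module ℂ M]
variable {N : Type*} [AddCommGroup N] [Module ℂ N]

/-- Square-summable functionals. -/
def HH (ρ : Representation ℂ Γ M) (u : M →ₗ[ℂ] ℂ) : Prop :=
  ∀ m, Summable fun γ => ‖u (ρ γ m)‖ ^ 2

theorem HH.comp {ρ : Representation ℂ Γ M} {σ : Representation ℂ Γ N} {u : N →ₗ[ℂ] ℂ}
    (hu : HH σ u) {f : M →ₗ[ℂ] N} (hf : Eqv ρ σ f) : HH ρ (u ∘ₗ f) := by
  intro m
  have := hu (f m)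
  refine this.congr ?_
  intro γ
  rw [comp_apply, hf]

theorem HH.sub {ρ : Representation ℂ Γ M} {u v : M →ₗ[ℂ] ℂ} (hu : HH ρ u) (hv : HH ρ v) :
    HH ρ (u - v) := by
  intro m
  have h1 := ((hu m).mul_left 2).add ((hv m).mul_left 2)
  refine Summable.of_nonneg_of_le (fun γ => by positivity) ?_ h1
  intro γ
  rw [LinearMap.sub_apply]
  have h2 := norm_sub_le (u (ρ γ m)) (v (ρ γ m))
  have h3 : ‖u (ρ γ m) - v (ρ γ m)‖ ^ 2 ≤ (‖u (ρ γ m)‖ + ‖v (ρ γ m)‖) ^ 2 :=
    pow_le_pow_left₀ (norm_nonneg _) h2 2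
  nlinarith [sq_nonneg (‖u (ρ γ m)‖ - ‖v (ρ γ m)‖)]

/-- Exactness on square-summable functionals. -/
def HHExact (C : Cx Γ) : Prop :=
  ∀ u, HH C.ρ u → (∀ v, u (C.d v) = 0) → ∃ w, HH C.ρ w ∧ ∀ v, u v = w (C.d v)

theorem HHExact.transfer {C D : Cx Γ} (pC : Proj C.ρ) (pD : Proj D.ρ) (eC : C.Exact)
    (eD : D.Exact) (h : HHExact C) : HHExact D := by
  obtain ⟨f, f1, f2, f3, f4⟩ := Cx.exists_chain_map (C := C) (D := D) pC eD
  obtain ⟨g, g1, g2, g3, g4⟩ := Cx.exists_chain_map (C := D) (D := C) pD eC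
  obtain ⟨k, k1, k2⟩ := Cx.exists_homotopy (C := D) (D := D) pD eD (φ := f ∘ₗ g - LinearMap.id)
    (by
      intro γ m
      simp only [LinearMap.sub_apply, comp_apply, id_apply]
      rw [g1, f1, map_sub])
    (by
      intro v
      simp only [LinearMap.sub_apply, comp_apply, id_apply]
      rw [map_sub, f2, g2])
    (by
      intro v
      simp only [LinearMap.sub_apply, comp_apply, id_apply]
      rw [map_sub, f3, g3, sub_self])
    (by
      intro j v
      simp only [LinearMap.sub_apply, comp_apply, id_apply]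
      rw [map_sub, g4, f4])
  intro u hu hud
  obtain ⟨w, hw1, hw2⟩ := h (u ∘ₗ f) (hu.comp f1) (by
    intro v
    rw [comp_apply, ← f2, hud])
  refine ⟨w ∘ₗ g - u ∘ₗ k, (hw1.comp g1).sub (hu.comp k1), ?_⟩
  intro v
  have e1 := k2 v
  simp only [LinearMap.sub_apply, comp_apply, id_apply] at e1
  have e2 := congrArg u e1
  rw [map_add, hud, zero_add, map_sub] at e2
  have e3 := hw2 (g v)
  rw [comp_apply] at e3
  rw [LinearMap.sub_apply, comp_apply, comp_apply, e2, e3, g2]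
  ring

end HH

end Pool.Agent.Lib.P9f173d
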