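import Pool.Agent.Lib.P9f173d.DHex

/-!
Exactness of the Hecke complex at parameter one, and the main theorem for extended complexes.
-/

namespace Pool.Agent.Lib.P9f173d

open CoxeterSystem LinearMap

open SemidirectProduct (inl inr)

section

variable {B W G ι : Type*} [Group W] [Group G] [MulAction G B] [Fintype ι] [DecidableEq ι]
  {D : HData B W G ι} (E : CData D)

/-- The functional defined by a vector. -/
noncomputable def fnl {J : Type*} (y : L2 J) : (J →₀ ℂ) →ₗ[ℂ] ℂ :=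
  (innerSL ℂ y : L2 J →L[ℂ] ℂ).toLinearMap ∘ₗ emb J

theorem fnl_apply {J : Type*} (y : L2 J) (F : J →₀ ℂ) : fnl y F = inner ℂ y (emb J F) := rfl

theorem fnl_HH {X ι : Type*} [Group X] (y : L2 (X × ι)) : HH (prep (lact X ι)) (fnl y) := by
  classical
  apply HH_of_basis
  rintro ⟨x, c⟩
  have h1 : ∀ g : X, ‖fnl y (Finsupp.single (lact X ι g (x, c)) 1)‖ ^ 2 =
      ‖y (g * x, c)‖ ^ 2 := by
    intro g
    rw [fnl_apply, lact_apply, emb_single, one_smul, inner_dl_right]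
    simp
  simp_rw [h1]
  have h2 : Function.Injective (fun g : X => ((g * x, c) : X × ι)) := by
    intro a b hab
    simpa using hab
  exact (FreeRes.summable_L2 y).comp_injective h2

theorem Pr_inner (f g : L2 (D.X × ι)) : inner ℂ (D.Pr 1 f) g = inner ℂ f (D.Pr 1 g) := by
  rw [← ContinuousLinearMap.adjoint_inner_left, D.Pr_adjoint]

/-- A vector representing a square-summable functional on antisymmetric functions. -/
theorem exists_vec (v : aS D →ₗ[ℂ] ℂ) (hv : HH (M := aS D) (ρS D) v) : ∃ z : L2 (D.X × ι),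
    ∀ F : D.X × ι →₀ ℂ, inner ℂ z (emb _ F) = v ⟨Palg D F, Palg_mem F⟩ := by
  classical
  let Pm : D.X × ι → aS D := fun p => ⟨Palg D (Finsupp.single p 1), Palg_mem _⟩
  have hPm : ∀ x c, Pm (x, c) = ρS D x (Pm (1, c)) := by
    intro x c
    ext1
    rw [ρS_coe]
    show Palg D _ = prep (lact D.X ι) x (Palg D _)
    rw [← Palg_eqv, prep_single, lact_apply, mul_one]
  have hsum : Summable fun p : D.X × ι => ‖(starRingEnd ℂ) (v (Pm p))‖ ^ 2 := by
    rw [← (Equiv.prodComm ι D.X).summable_iff, summable_prod_of_nonneg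
      (fun p => by simp only [Pi.zero_apply, Function.comp_apply]; positivity)]
    refine ⟨?_, Summable.of_finite⟩
    intro c
    refine (hv (Pm (1, c))).congr ?_
    intro x
    simp only [Function.comp_apply, Equiv.prodComm_apply, Prod.swap_prod_mk, RCLike.norm_conj]
    rw [← hPm]
  let z : L2 (D.X × ι) := ⟨fun p => (starRingEnd ℂ) (v (Pm p)), FreeRes.memL2_of hsum⟩
  have hz : ∀ p, z p = (starRingEnd ℂ) (v (Pm p)) := fun p => rfl
  refine ⟨z, ?_⟩
  intro F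
  have key : fnl z = v ∘ₗ (Palg D).codRestrict (aS D) Palg_mem := by
    apply Finsupp.lhom_ext'
    intro p
    ext
    simp only [coe_comp, Function.comp_apply, Finsupp.lsingle_apply]
    show inner ℂ z (emb _ (Finsupp.single p 1)) = v (Pm p)
    rw [emb_single, one_smul, inner_dl_right, hz]
    simp
  exact congrArg (fun T => T F) key

theorem hex_aux (hwt : ∀ w, D.wt w = 1) {Δ : Type*} [Group Δ]
    (α : Δ →* D.X) (hα : Function.Injective α) [α.range.FiniteIndex]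
    (h : ∀ u : aS D →ₗ[ℂ] ℂ, HH (M := aS D) (rrep (ρS D) α) u →
      (∀ (F : D.X × ι →₀ ℂ) (hF : F ∈ aS D), u ⟨mbd E.coefX F, mbd_mem_aS E hF⟩ = 0) →
      ∃ v : aS D →ₗ[ℂ] ℂ, HH (M := aS D) (rrep (ρS D) α) v ∧
        ∀ (F : D.X × ι →₀ ℂ) (hF : F ∈ aS D), u ⟨F, hF⟩ = v ⟨mbd E.coefX F, mbd_mem_aS E hF⟩)
    (y : L2 (D.X × ι)) (hy1 : D.Pr 1 y = y)
    (hy2 : D.Pr 1 (E.dop.adjoint y) = 0) : ∃ z, D.Pr 1 (E.dop.adjoint z) = y := by
  classical
  let u : aS D →ₗ[ℂ] ℂ := fnl y ∘ₗ (aS D).subtype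
  have hu1 : HH (M := aS D) (ρS D) u := by
    rintro ⟨F, hF⟩
    exact fnl_HH y F
  have hud : ∀ (F : D.X × ι →₀ ℂ) (hF : F ∈ aS D), u ⟨mbd E.coefX F, mbd_mem_aS E hF⟩ = 0 := by
    intro F hF
    show inner ℂ y (emb _ (mbd E.coefX F)) = 0
    rw [← dop_emb, ← ContinuousLinearMap.adjoint_inner_left]
    have : emb _ F = D.Pr 1 (emb _ F) := by rw [Pr_emb hwt, Palg_of_mem hF]
    rw [this, ← Pr_inner, hy2, inner_zero_left]
  obtain ⟨v, hv1, hv2⟩ := h u (HH.restrict hα hu1) hud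
  obtain ⟨z, hz⟩ := exists_vec v (HH.extend hα hv1)
  refine ⟨z, ?_⟩
  ext j
  have hj : inner ℂ (D.Pr 1 (E.dop.adjoint z)) (dl j) = inner ℂ y (dl j) := by
    have e0 : (dl j : L2 (D.X × ι)) = emb _ (Finsupp.single j 1) := by
      rw [emb_single, one_smul]
    have hm := Palg_mem (D := D) (Finsupp.single j 1)
    have e1 : (⟨Palg D (mbd E.coefX (Palg D (Finsupp.single j 1))), Palg_mem _⟩ : aS D) =
        ⟨mbd E.coefX (Palg D (Finsupp.single j 1)), mbd_mem_aS E hm⟩ := by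
      ext1
      exact Palg_of_mem (mbd_mem_aS E hm)
    have e2 : u ⟨Palg D (Finsupp.single j 1), hm⟩ =
      inner ℂ y (emb _ (Palg D (Finsupp.single j 1))) := rfl
    rw [Pr_inner, ContinuousLinearMap.adjoint_inner_left, e0, Pr_emb hwt, dop_emb, hz, e1,
      ← hv2 _ hm, e2, ← Pr_emb hwt, ← Pr_inner, hy1]
  rw [inner_dl_right, inner_dl_right] at hj
  exact (starRingEnd ℂ).injective hj

theorem hhExact_unfold (A : AData E) {Δ : Type*} [Group Δ] (α : Δ →* D.X)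
    (h : HHExact (dCx E A α)) (u : aS D →ₗ[ℂ] ℂ) (hu : HH (M := aS D) (rrep (ρS D) α) u)
    (hud : ∀ (F : D.X × ι →₀ ℂ) (hF : F ∈ aS D), u ⟨mbd E.coefX F, mbd_mem_aS E hF⟩ = 0) :
    ∃ v : aS D →ₗ[ℂ] ℂ, HH (M := aS D) (rrep (ρS D) α) v ∧
      ∀ (F : D.X × ι →₀ ℂ) (hF : F ∈ aS D), u ⟨F, hF⟩ = v ⟨mbd E.coefX F, mbd_mem_aS E hF⟩ := by
  obtain ⟨v, hv1, hv2⟩ := h u hu (fun F => hud F.1 F.2)
  exact ⟨v, hv1, fun F hF => hv2 ⟨F, hF⟩⟩

/-- The main theorem in terms of the data of an extended complex. -/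
theorem main_data (hwt : ∀ w, D.wt w = 1) (A : AData E)
    (h1 : ∀ c b, D.T c = {b} → E.deg c = 1) (h2 : ∃ c b, D.T c = {b})
    {Γ : Type*} [Group Γ] (R : FreeRes Γ) {Δ : Type*} [Group Δ]
    (α : Δ →* D.X) (hα : Function.Injective α) [α.range.FiniteIndex]
    (β : Δ →* Γ) (hβ : Function.Injective β) [β.range.FiniteIndex]
    {H : Type*} [NormedAddCommGroup H] [InnerProductSpace ℂ H] [CompleteSpace H]
    (b : HilbertBasis Γ ℂ H) (ρ : Γ →* (H →L[ℂ] H)) (hρ : ∀ g h, ρ g (b h) = b (g * h)) :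
    ∃ i, Nontrivial (R.HRed ρ i) := by
  by_contra hcon
  push Not at hcon
  have hH : HHExact (R.toCx β) := R.hhExact_restrict hρ hcon β hβ
  have hD : HHExact (dCx E A α) :=
    HHExact.transfer (R.toCx_proj β hβ) (dCx_proj E A α hα) (R.toCx_exact β)
      (dCx_exact E A α) hH
  have hD' := hhExact_unfold E A α hD
  exact E.core (fun y hy1 hy2 => hex_aux E hwt α hα hD' y hy1 hy2) h1 h2

end

end Pool.Agent.Lib.P9f173d
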