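import Pool.Agent.Lib.P9f173d.Free

/-!
Matrices over group rings acting on finitely supported functions.
-/

namespace Pool.Agent.Lib.P9f173d

open LinearMap

section basic

variable {R X ι : Type*} [CommRing R] [Group X]

theorem coeff_mul_single' (x : MonoidAlgebra R X) (g h : X) (r : R) :
    (x * MonoidAlgebra.single g r).coeff h = x.coeff (h * g⁻¹) * r := by
  apply MonoidAlgebra.coeff_mul_single_eq_coeff_mul
  intro m _
  exact eq_mul_inv_iff_mul_eq.symm

theorem coeff_single_mul' (x : MonoidAlgebra R X) (g h : X) (r : R) :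
    (MonoidAlgebra.single g r * x).coeff h = r * x.coeff (g⁻¹ * h) := by
  apply MonoidAlgebra.coeff_single_mul_eq_mul_coeff
  intro m _
  simp [eq_inv_mul_iff_mul_eq]

theorem coeff_mul_group (x a : MonoidAlgebra R X) (h : X) :
    (x * a).coeff h = ∑ g ∈ a.coeff.support, x.coeff (h * g⁻¹) * a.coeff g := by
  classical
  have : a = ∑ g ∈ a.coeff.support, MonoidAlgebra.single g (a.coeff g) := by
    conv_lhs => rw [← MonoidAlgebra.sum_coeff_single a]
    rfl
  conv_lhs => rw [this]
  rw [Finset.mul_sum, MonoidAlgebra.coeff_sum, Finsupp.finsetSum_apply]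
  apply Finset.sum_congr rfl
  intro g _
  rw [coeff_mul_single']

variable [Fintype ι]

/-- Finitely supported functions on `X × ι` as row vectors over the group ring. -/
noncomputable def rowE : (X × ι →₀ R) ≃ₗ[R] (ι → MonoidAlgebra R X) where
  toFun F c := MonoidAlgebra.ofCoeff
    (F.comapDomain (fun x => (x, c)) (by intro a _ b _ h; exact (Prod.mk.inj h).1))
  invFun x := Finsupp.ofSupportFinite (fun p => (x p.2).coeff p.1) (by
    classical
    have : (⋃ c : ι, ((fun g : X => (g, c)) '' ((x c).coeff.support : Set X))).Finite :=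
      Set.finite_iUnion (fun c => (Finset.finite_toSet _).image _)
    apply this.subset
    rintro ⟨g, c⟩ hp
    rw [Function.mem_support] at hp
    refine Set.mem_iUnion.mpr ⟨c, g, ?_, rfl⟩
    simpa using hp)
  map_add' F H := by
    funext c
    apply MonoidAlgebra.coeff_injective
    ext x
    simp [Finsupp.comapDomain_apply]
  map_smul' r F := by
    funext c
    apply MonoidAlgebra.coeff_injective
    ext x
    simp [Finsupp.comapDomain_apply]
  left_inv F := by
    ext ⟨g, c⟩
    rfl
  right_inv x := by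
    funext c
    apply MonoidAlgebra.coeff_injective
    ext g
    rfl

theorem rowE_coeff (F : X × ι →₀ R) (c : ι) (x : X) : (rowE F c).coeff x = F (x, c) := rfl

theorem rowE_symm_apply (x : ι → MonoidAlgebra R X) (g : X) (c : ι) :
    (rowE (R := R)).symm x (g, c) = (x c).coeff g := rfl

theorem rowE_single [DecidableEq ι] (g : X) (c c' : ι) (r : R) :
    rowE (Finsupp.single (g, c) r) c' = if c' = c then MonoidAlgebra.single g r else 0 := by
  classical
  apply MonoidAlgebra.coeff_injective
  ext x
  rw [rowE_coeff]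
  by_cases h : c' = c
  · subst h
    rw [if_pos rfl, MonoidAlgebra.coeff_single, Finsupp.single_apply, Finsupp.single_apply]
    simp
  · rw [if_neg h, Finsupp.single_apply, if_neg]
    · rfl
    · intro h2
      exact h (Prod.mk.inj h2).2.symm

/-- Multiplication of row vectors by a matrix. -/
noncomputable def vm (m : ι → ι → MonoidAlgebra R X) :
    (ι → MonoidAlgebra R X) →ₗ[R] (ι → MonoidAlgebra R X) where
  toFun x c' := ∑ c, x c * m c c'
  map_add' x y := by
    funext c'
    simp only [Pi.add_apply, add_mul, Finset.sum_add_distrib]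
  map_smul' r x := by
    funext c'
    simp only [Pi.smul_apply, RingHom.id_apply, Finset.smul_sum, smul_mul_assoc]

theorem vm_apply (m : ι → ι → MonoidAlgebra R X) (x : ι → MonoidAlgebra R X) (c' : ι) :
    vm m x c' = ∑ c, x c * m c c' := rfl

/-- The operator defined by a matrix. -/
noncomputable def mbd (m : ι → ι → MonoidAlgebra R X) : (X × ι →₀ R) →ₗ[R] (X × ι →₀ R) :=
  (rowE (R := R)).symm.toLinearMap ∘ₗ vm m ∘ₗ (rowE (R := R)).toLinearMap

theorem mbd_eq (m : ι → ι → MonoidAlgebra R X) (F : X × ι →₀ R) :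
    mbd m F = (rowE (R := R)).symm (vm m (rowE F)) := rfl

theorem mbd_apply (m : ι → ι → MonoidAlgebra R X) (F : X × ι →₀ R) (y : X) (c' : ι) :
    mbd m F (y, c') = ∑ c, ∑ g ∈ (m c c').coeff.support, F (y * g⁻¹, c) * (m c c').coeff g := by
  rw [mbd_eq, rowE_symm_apply, vm_apply, MonoidAlgebra.coeff_sum, Finsupp.finsetSum_apply]
  apply Finset.sum_congr rfl
  intro c _
  rw [coeff_mul_group]
  rfl

theorem mbd_single_apply [DecidableEq ι] (m : ι → ι → MonoidAlgebra R X) (x y : X) (c c' : ι)
    (r : R) : mbd m (Finsupp.single (x, c) r) (y, c') = r * (m c c').coeff (x⁻¹ * y) := by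
  rw [mbd_eq, rowE_symm_apply, vm_apply]
  simp_rw [rowE_single]
  rw [Finset.sum_eq_single c]
  · rw [if_pos rfl, coeff_single_mul']
  · intro c'' _ h
    rw [if_neg h, zero_mul]
  · simp

theorem mbd_mbd {m : ι → ι → MonoidAlgebra R X} (hm : ∀ c c'', ∑ c', m c c' * m c' c'' = 0)
    (F : X × ι →₀ R) : mbd m (mbd m F) = 0 := by
  rw [mbd_eq, mbd_eq, LinearEquiv.apply_symm_apply]
  have : vm m (vm m (rowE F)) = 0 := by
    funext c''
    rw [vm_apply]
    simp_rw [vm_apply, Finset.sum_mul]
    rw [Finset.sum_comm]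
    simp only [Pi.zero_apply]
    apply Finset.sum_eq_zero
    intro c _
    simp_rw [mul_assoc]
    rw [← Finset.mul_sum, hm, mul_zero]
  rw [this, map_zero]

/-- The augmentation with weights `a`. -/
noncomputable def augm (a : ι → R) : (X × ι →₀ R) →ₗ[R] R :=
  Finsupp.linearCombination R (fun p => a p.2)

omit [Group X] [Fintype ι] in
theorem augm_single (a : ι → R) (x : X) (c : ι) (r : R) :
    augm a (Finsupp.single (x, c) r) = r * a c := by
  simp [augm]

/-- The augmentation of the group ring. -/
noncomputable def eps : MonoidAlgebra R X →ₗ[R] R where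
  toFun x := x.coeff.sum fun _ r => r
  map_add' x y := by
    rw [MonoidAlgebra.coeff_add]
    exact Finsupp.sum_add_index' (fun _ => rfl) (fun _ _ _ => rfl)
  map_smul' r x := by
    rw [MonoidAlgebra.coeff_smul, RingHom.id_apply, Finsupp.sum_smul_index' (fun _ => rfl)]
    rw [smul_eq_mul, Finsupp.mul_sum]
    rfl

omit [Group X] in
theorem eps_apply (x : MonoidAlgebra R X) : eps x = x.coeff.sum fun _ r => r := rfl

omit [Group X] in
theorem eps_single (g : X) (r : R) : eps (MonoidAlgebra.single g r) = r := by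
  rw [eps_apply, MonoidAlgebra.coeff_single, Finsupp.sum_single_index rfl]

theorem eps_mul (x y : MonoidAlgebra R X) : eps (x * y) = eps x * eps y := by
  induction x using MonoidAlgebra.induction_linear with
  | zero => simp
  | add a b ha hb => rw [add_mul, map_add, map_add, ha, hb, add_mul]
  | single g r =>
    induction y using MonoidAlgebra.induction_linear with
    | zero => simp
    | add a b ha hb => rw [mul_add, map_add, map_add, ha, hb, mul_add]
    | single h s => rw [MonoidAlgebra.single_mul_single, eps_single, eps_single, eps_single]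

theorem augm_eq (a : ι → R) (F : X × ι →₀ R) : augm a F = ∑ c, eps (rowE F c) * a c := by
  classical
  induction F using Finsupp.induction_linear with
  | zero => simp
  | add f g hf hg =>
    rw [map_add, hf, hg, ← Finset.sum_add_distrib]
    apply Finset.sum_congr rfl
    intro c _
    rw [map_add, Pi.add_apply, map_add, add_mul]
  | single p r =>
    obtain ⟨x, c⟩ := p
    rw [augm_single]
    simp_rw [rowE_single]
    rw [Finset.sum_eq_single c]
    · rw [if_pos rfl, eps_single]
    · intro c' _ h
      rw [if_neg h, map_zero, zero_mul]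
    · simp

theorem augm_mbd {m : ι → ι → MonoidAlgebra R X} {a : ι → R}
    (h : ∀ c, ∑ c', eps (m c c') * a c' = 0) (F : X × ι →₀ R) : augm a (mbd m F) = 0 := by
  rw [augm_eq, mbd_eq, LinearEquiv.apply_symm_apply]
  simp_rw [vm_apply, map_sum, eps_mul, Finset.sum_mul]
  rw [Finset.sum_comm]
  apply Finset.sum_eq_zero
  intro c _
  simp_rw [mul_assoc]
  rw [← Finset.mul_sum, h, mul_zero]

/-- The projection to cells of degree `k`. -/
noncomputable def gpr (deg : ι → ℕ) (k : ℕ) : (X × ι →₀ R) →ₗ[R] (X × ι →₀ R) where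
  toFun F := F.filter (fun p => deg p.2 = k)
  map_add' F H := Finsupp.filter_add
  map_smul' r F := Finsupp.filter_smul

omit [Group X] [Fintype ι] in
theorem gpr_apply (deg : ι → ℕ) (k : ℕ) (F : X × ι →₀ R) (p : X × ι) :
    gpr deg k F p = if deg p.2 = k then F p else 0 := Finsupp.filter_apply _ _ _

theorem mbd_gpr {m : ι → ι → MonoidAlgebra R X} {deg : ι → ℕ}
    (h : ∀ c c', m c c' ≠ 0 → deg c = deg c' + 1) (k : ℕ) (F : X × ι →₀ R) :
    mbd m (gpr deg (k + 1) F) = gpr deg k (mbd m F) := by
  ext ⟨y, c'⟩
  rw [gpr_apply, mbd_apply, mbd_apply]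
  split_ifs with hk
  · apply Finset.sum_congr rfl
    intro c _
    apply Finset.sum_congr rfl
    intro g hg
    rw [gpr_apply]
    have hne : m c c' ≠ 0 := by
      rintro h0
      rw [h0] at hg
      simp at hg
    have := h c c' hne
    rw [if_pos]
    simp only at hk ⊢
    omega
  · apply Finset.sum_eq_zero
    intro c _
    apply Finset.sum_eq_zero
    intro g hg
    have hne : m c c' ≠ 0 := by
      rintro h0
      rw [h0] at hg
      simp at hg
    have := h c c' hne
    rw [gpr_apply, if_neg, zero_mul]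
    simp only at hk ⊢
    omega

theorem mbd_gpr0 {m : ι → ι → MonoidAlgebra R X} {deg : ι → ℕ}
    (h : ∀ c c', m c c' ≠ 0 → deg c = deg c' + 1) (F : X × ι →₀ R) :
    mbd m (gpr deg 0 F) = 0 := by
  ext ⟨y, c'⟩
  rw [mbd_apply, Finsupp.zero_apply]
  apply Finset.sum_eq_zero
  intro c _
  apply Finset.sum_eq_zero
  intro g hg
  have hne : m c c' ≠ 0 := by
    rintro h0
    rw [h0] at hg
    simp at hg
  have := h c c' hne
  rw [gpr_apply, if_neg, zero_mul]
  simp only
  omega

end basic

section act

variable {X ι : Type*} [Group X]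

/-- Left multiplication on `X × ι`. -/
def lact (X ι : Type*) [Group X] : X →* Equiv.Perm (X × ι) where
  toFun x := (Equiv.mulLeft x).prodCongr (Equiv.refl ι)
  map_one' := by
    ext p <;> simp
  map_mul' x y := by
    ext p <;> simp [mul_assoc]

theorem lact_apply (x y : X) (c : ι) : lact X ι x (y, c) = (x * y, c) := rfl

theorem prep_lact_apply (x : X) (F : X × ι →₀ ℂ) (y : X) (c : ι) :
    prep (lact X ι) x F (y, c) = F (x⁻¹ * y, c) := by
  rw [prep_apply]
  rfl

theorem gpr_eqv (deg : ι → ℕ) (k : ℕ) :
    Eqv (prep (lact X ι)) (prep (lact X ι)) (gpr deg k) := by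
  intro x F
  ext ⟨y, c⟩
  rw [gpr_apply, prep_lact_apply, prep_lact_apply, gpr_apply]

theorem augm_eqv (a : ι → ℂ) (x : X) (F : X × ι →₀ ℂ) :
    augm a (prep (lact X ι) x F) = augm a F := by
  induction F using Finsupp.induction_linear with
  | zero => simp
  | add f g hf hg => rw [map_add, map_add, hf, hg, map_add]
  | single p r =>
    obtain ⟨y, c⟩ := p
    rw [prep_single, lact_apply, augm_single, augm_single]

variable [Fintype ι]

theorem mbd_eqv (m : ι → ι → MonoidAlgebra ℂ X) :
    Eqv (prep (lact X ι)) (prep (lact X ι)) (mbd m) := by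
  intro x F
  ext ⟨y, c'⟩
  rw [mbd_apply, prep_lact_apply, mbd_apply]
  apply Finset.sum_congr rfl
  intro c _
  apply Finset.sum_congr rfl
  intro g _
  rw [prep_lact_apply, mul_assoc]

end act

section extend

variable {X ι : Type*} [Group X] [Fintype ι]

/-- Extension of scalars from the integers, for exactness. -/
theorem exact_complex {m : ι → ι → MonoidAlgebra ℤ X} {a : ι → ℤ}
    (hex : ∀ x : ι → MonoidAlgebra ℤ X, (∀ c', ∑ c, x c * m c c' = 0) →
      ∑ c, eps (x c) * a c = 0 → ∃ y : ι → MonoidAlgebra ℤ X, ∀ c', ∑ c, y c * m c c' = x c')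
    (F : X × ι →₀ ℂ)
    (h1 : mbd (fun c c' => MonoidAlgebra.mapRingHom X (Int.castRingHom ℂ) (m c c')) F = 0)
    (h2 : augm (fun c => (a c : ℂ)) F = 0) :
    ∃ H, mbd (fun c c' => MonoidAlgebra.mapRingHom X (Int.castRingHom ℂ) (m c c')) H = F := by
  classical
  set mC : ι → ι → MonoidAlgebra ℂ X :=
    fun c c' => MonoidAlgebra.mapRingHom X (Int.castRingHom ℂ) (m c c') with hmC
  -- the integral version
  have hexZ : ∀ F : X × ι →₀ ℤ, mbd m F = 0 → augm a F = 0 → ∃ H, mbd m H = F := by
    intro F hF1 hF2
    obtain ⟨y, hy⟩ := hex (rowE F) (by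
      intro c'
      have := congrArg (rowE (R := ℤ)) hF1
      rw [mbd_eq, LinearEquiv.apply_symm_apply, map_zero] at this
      exact congrFun this c') (by rw [← augm_eq]; exact hF2)
    refine ⟨(rowE (R := ℤ)).symm y, ?_⟩
    rw [mbd_eq, LinearEquiv.apply_symm_apply, LinearEquiv.symm_apply_eq]
    funext c'
    exact hy c'
  -- casting
  let cst : (X × ι →₀ ℤ) → (X × ι →₀ ℂ) := fun F => F.mapRange (fun n : ℤ => (n : ℂ)) (by simp)
  have hcst : ∀ F p, cst F p = (F p : ℂ) := fun F p => rfl
  have hmcst : ∀ F p, mbd mC (cst F) p = ((mbd m F p : ℤ) : ℂ) := by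
    rintro F ⟨y, c'⟩
    rw [mbd_apply, mbd_apply]
    push_cast
    apply Finset.sum_congr rfl
    intro c _
    have hsupp : (mC c c').coeff.support = (m c c').coeff.support := by
      ext g
      rw [Finsupp.mem_support_iff, Finsupp.mem_support_iff, hmC]
      simp only [MonoidAlgebra.coeff_mapRingHom]
      simp
    rw [hsupp]
    apply Finset.sum_congr rfl
    intro g _
    rw [hcst, hmC]
    simp only [MonoidAlgebra.coeff_mapRingHom]
    simp
  have hacst : ∀ F, augm (fun c => (a c : ℂ)) (cst F) = ((augm a F : ℤ) : ℂ) := by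
    intro F
    induction F using Finsupp.induction_linear with
    | zero =>
      have : cst 0 = 0 := by ext p; simp [hcst]
      rw [this, map_zero, map_zero]; simp
    | add f g hf hg =>
      have : cst (f + g) = cst f + cst g := by ext p; simp [hcst]
      rw [this, map_add, map_add, hf, hg]; push_cast; rfl
    | single p r =>
      obtain ⟨x, c⟩ := p
      have : cst (Finsupp.single (x, c) r) = Finsupp.single (x, c) (r : ℂ) := by
        simp only [cst, Finsupp.mapRange_single]
      rw [this, augm_single, augm_single]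
      push_cast
      rfl
  -- the span of the coefficients
  set N : Submodule ℤ ℂ := Submodule.span ℤ (Set.range F) with hN
  have hfg : N.FG := by
    apply Submodule.fg_span
    have : Set.range F ⊆ insert 0 (F '' (F.support : Set (X × ι))) := by
      rintro _ ⟨p, rfl⟩
      by_cases hp : F p = 0
      · left; exact hp
      · right; exact ⟨p, by simpa using hp, rfl⟩
    exact (((Finset.finite_toSet _).image _).insert _).subset this
  have : Module.Finite ℤ N := Module.Finite.iff_fg.mpr hfg
  have hfree : Module.Free ℤ N := inferInstance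
  let b := Module.finBasis ℤ N
  have hmem : ∀ p, F p ∈ N := fun p => Submodule.subset_span ⟨p, rfl⟩
  let Fj : Fin (Module.finrank ℤ N) → (X × ι →₀ ℤ) := fun j =>
    Finsupp.onFinset F.support (fun p => b.repr ⟨F p, hmem p⟩ j) (by
      intro p hp
      rw [Finsupp.mem_support_iff]
      intro h0
      apply hp
      have : (⟨F p, hmem p⟩ : N) = 0 := by ext; exact h0
      rw [this]; simp)
  have hFj : ∀ j p, Fj j p = b.repr ⟨F p, hmem p⟩ j := fun j p => rfl
  have hsum : F = ∑ j, ((b j : N) : ℂ) • cst (Fj j) := by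
    ext p
    rw [Finsupp.finsetSum_apply]
    simp only [Finsupp.smul_apply, hcst, hFj, smul_eq_mul]
    have h3 := b.sum_repr ⟨F p, hmem p⟩
    have h4 := congrArg (fun z : N => (z : ℂ)) h3
    simp only [Submodule.coe_sum, Submodule.coe_smul] at h4
    refine h4.symm.trans ?_
    apply Finset.sum_congr rfl
    intro j _
    simp [mul_comm]
  have hind : ∀ n : Fin (Module.finrank ℤ N) → ℤ,
      ∑ j, ((b j : N) : ℂ) * (n j : ℂ) = 0 → ∀ j, n j = 0 := by
    intro n hn
    have h3 : ∑ j, n j • b j = 0 := by
      ext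
      simp only [Submodule.coe_sum, Submodule.coe_smul, Submodule.coe_zero]
      rw [← hn]
      apply Finset.sum_congr rfl
      intro j _
      simp [mul_comm]
    exact Fintype.linearIndependent_iff.mp b.linearIndependent n h3
  have hd : ∀ j, mbd m (Fj j) = 0 := by
    intro j
    ext p
    have h3 : ∑ j, ((b j : N) : ℂ) * ((mbd m (Fj j) p : ℤ) : ℂ) = 0 := by
      have h4 : mbd mC F p = (0 : X × ι →₀ ℂ) p := by rw [h1]
      rw [hsum, map_sum, Finsupp.finsetSum_apply] at h4
      simp only [map_smul, Finsupp.smul_apply, hmcst, smul_eq_mul, Finsupp.zero_apply] at h4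
      exact h4
    exact hind _ h3 j
  have ha : ∀ j, augm a (Fj j) = 0 := by
    intro j
    have h3 : ∑ j, ((b j : N) : ℂ) * ((augm a (Fj j) : ℤ) : ℂ) = 0 := by
      rw [hsum, map_sum] at h2
      simp only [map_smul, hacst, smul_eq_mul] at h2
      exact h2
    exact hind _ h3 j
  choose H hH using fun j => hexZ (Fj j) (hd j) (ha j)
  refine ⟨∑ j, ((b j : N) : ℂ) • cst (H j), ?_⟩
  conv_rhs => rw [hsum]
  rw [map_sum]
  apply Finset.sum_congr rfl
  intro j _
  rw [map_smul]
  congr 1
  ext p
  rw [hmcst, hH, hcst]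

end extend

end Pool.Agent.Lib.P9f173d
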