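import Pool.Agent.Lib.P9f173d.Super
import Pool.Agent.Lib.P9f173d.Cox3

/-!
The supertrace identity as an identity of rational functions, and the contradiction.
-/

namespace Pool.Agent.Lib.P9f173d

open CoxeterSystem Polynomial Filter Topology

namespace HData

variable {B W G ι : Type*} [Group W] [Group G] [MulAction G B] (D : HData B W G ι)

/-- The growth polynomial. -/
noncomputable def gp (c : ι) : ℝ[X] :=
  ∑ a : WT D.cs (D.T c), C (D.wt (a : W))⁻¹ * Polynomial.X ^ D.cs.length (a : W)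

theorem gp_eval (c : ι) (z : ℝ) : (D.gp c).eval z =
    ∑ a : WT D.cs (D.T c), (D.wt (a : W))⁻¹ * z ^ D.cs.length (a : W) := by
  unfold gp
  rw [eval_finsetSum]
  simp

theorem Sc_eq {t : ℝ} (c : ι) : D.Sc t c = (D.gp c).eval t⁻¹ := by
  rw [gp_eval]
  unfold Sc wn
  apply Finset.sum_congr rfl
  intro a _
  rw [mul_inv, inv_pow]

theorem gp_ge {z : ℝ} (hz : 0 < z) (c : ι) {a : W} (ha : a ∈ WT D.cs (D.T c)) :
    (D.wt a)⁻¹ * z ^ D.cs.length a ≤ (D.gp c).eval z := by
  rw [gp_eval]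
  exact Finset.single_le_sum (f := fun a : WT D.cs (D.T c) =>
    (D.wt (a : W))⁻¹ * z ^ D.cs.length (a : W))
    (fun a _ => mul_nonneg (inv_nonneg.mpr (D.wt_pos _).le) (pow_nonneg hz.le _))
    (Finset.mem_univ (⟨a, ha⟩ : WT D.cs (D.T c)))

theorem gp_pos {z : ℝ} (hz : 0 < z) (c : ι) : 0 < (D.gp c).eval z := by
  have := D.gp_ge hz c (one_mem (WT D.cs (D.T c)))
  rw [D.wt_one, D.cs.length_one] at this
  simp only [inv_one, pow_zero, mul_one] at this
  linarith

theorem gp_empty (c : ι) (h : D.T c = ∅) (z : ℝ) : (D.gp c).eval z = 1 := by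
  rw [gp_eval]
  have hbot : ∀ a : WT D.cs (D.T c), a = 1 := by
    rintro ⟨a, ha⟩
    ext
    simp only [Subgroup.coe_one]
    rw [h] at ha
    have : WT D.cs (∅ : Set B) = ⊥ := by simp [WT]
    rw [this] at ha
    simpa using ha
  rw [Finset.sum_eq_single 1]
  · simp [D.wt_one]
  · intro a _ h
    exact absurd (hbot a) h
  · simp

theorem gp_singleton (c : ι) {b : B} (h : D.T c = {b}) (z : ℝ) :
    (D.gp c).eval z = 1 + (D.pr b)⁻¹ * z := by
  classical
  rw [gp_eval]
  have hb : D.cs.simple b ∈ WT D.cs (D.T c) := simple_mem_WT D.cs (by simp [h])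
  have hmem : ∀ a ∈ WT D.cs (D.T c), a = 1 ∨ a = D.cs.simple b := by
    refine WT_induction_right D.cs (p := fun a => a = 1 ∨ a = D.cs.simple b) (Or.inl rfl) ?_
    intro v hv b' hb' hl ih
    rw [h, Set.mem_singleton_iff] at hb'
    subst hb'
    rcases ih with rfl | rfl
    · right; simp
    · left; simp
  have hne : (1 : WT D.cs (D.T c)) ≠ ⟨D.cs.simple b, hb⟩ := by
    intro h
    have h1 := congrArg (fun v : WT D.cs (D.T c) => D.cs.length (v : W)) h
    simp at h1
  have huniv : (Finset.univ : Finset (WT D.cs (D.T c))) = {1, ⟨D.cs.simple b, hb⟩} := by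
    ext ⟨a, ha⟩
    simp only [Finset.mem_univ, Finset.mem_insert, Finset.mem_singleton, true_iff]
    rcases hmem a ha with rfl | rfl
    · left; rfl
    · right; rfl
  rw [huniv, Finset.sum_pair hne]
  simp [D.wt_one, D.wt_simple]

end HData

namespace CData

variable {B W G ι : Type*} [Group W] [Group G] [MulAction G B] [Fintype ι] [DecidableEq ι]
  {D : HData B W G ι} (E : CData D)

theorem rational_identity
    (hs : ∀ᶠ t in 𝓝 (1 : ℝ), ∑ c, (-1 : ℝ) ^ E.deg c * (D.Sc t c)⁻¹ = 0) :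
    ∀ z : ℝ, 0 < z → ∑ c, (-1 : ℝ) ^ E.deg c * ((D.gp c).eval z)⁻¹ = 0 := by
  set Q : ℝ[X] := ∑ c, C ((-1 : ℝ) ^ E.deg c) * ∏ c' ∈ Finset.univ.erase c, D.gp c' with hQ
  have key : ∀ z : ℝ, 0 < z → Q.eval z =
      (∏ c, (D.gp c).eval z) * ∑ c, (-1 : ℝ) ^ E.deg c * ((D.gp c).eval z)⁻¹ := by
    intro z hz
    rw [hQ, eval_finsetSum, Finset.mul_sum]
    apply Finset.sum_congr rfl
    intro c _
    rw [eval_mul, eval_C, eval_prod, ← Finset.mul_prod_erase Finset.univ _ (Finset.mem_univ c)]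
    have := (D.gp_pos hz c).ne'
    field_simp
  have hz : Q = 0 := by
    apply eq_zero_of_infinite_isRoot
    have hcont : Tendsto (fun z : ℝ => z⁻¹) (𝓝 1) (𝓝 1) := by
      have := (continuousAt_inv₀ (one_ne_zero (α := ℝ)))
      unfold ContinuousAt at this
      simpa using this
    have h1 : ∀ᶠ z in 𝓝 (1 : ℝ), IsRoot Q z := by
      have h2 := hcont.eventually hs
      have h3 : ∀ᶠ z in 𝓝 (1 : ℝ), 0 < z := lt_mem_nhds one_pos
      filter_upwards [h2, h3] with z hz1 hz2
      simp only [D.Sc_eq, inv_inv] at hz1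
      rw [IsRoot.def, key z hz2, hz1, mul_zero]
    exact infinite_of_mem_nhds (1 : ℝ) h1
  intro z hz'
  have h1 := key z hz'
  rw [hz, eval_zero] at h1
  have h2 : ∏ c, (D.gp c).eval z ≠ 0 := by
    rw [Finset.prod_ne_zero_iff]
    intro c _
    exact (D.gp_pos hz' c).ne'
  exact (mul_eq_zero.mp h1.symm).resolve_left h2

theorem contra
    (hs : ∀ᶠ t in 𝓝 (1 : ℝ), ∑ c, (-1 : ℝ) ^ E.deg c * (D.Sc t c)⁻¹ = 0)
    (h1 : ∀ c b, D.T c = {b} → E.deg c = 1) (h2 : ∃ c b, D.T c = {b}) : False := by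
  classical
  have key := E.rational_identity hs
  -- first limit
  have lim1 : ∀ c, D.T c ≠ ∅ → Tendsto (fun z : ℝ => ((D.gp c).eval z)⁻¹) atTop (𝓝 0) := by
    intro c hc
    obtain ⟨b, hb⟩ := Set.nonempty_iff_ne_empty.mpr hc
    have hb' := simple_mem_WT D.cs hb
    have hub : Tendsto (fun z : ℝ => D.pr b * z⁻¹) atTop (𝓝 0) := by
      have := (tendsto_inv_atTop_zero (𝕜 := ℝ)).const_mul (D.pr b)
      simpa using this
    refine squeeze_zero' ?_ ?_ hub
    · filter_upwards [eventually_gt_atTop 0] with z hz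
      exact inv_nonneg.mpr (D.gp_pos hz c).le
    · filter_upwards [eventually_gt_atTop 0] with z hz
      have h := D.gp_ge hz c hb'
      rw [D.wt_simple, D.cs.length_simple, pow_one] at h
      have hp := D.pr_pos b
      have h3 : 0 < (D.pr b)⁻¹ * z := by positivity
      calc ((D.gp c).eval z)⁻¹ ≤ ((D.pr b)⁻¹ * z)⁻¹ := inv_anti₀ h3 h
        _ = D.pr b * z⁻¹ := by rw [mul_inv, inv_inv]
  have lim2 : ∀ c, D.T c ≠ ∅ → (∀ b, D.T c ≠ {b}) →
      Tendsto (fun z : ℝ => z * ((D.gp c).eval z)⁻¹) atTop (𝓝 0) := by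
    intro c hc hc'
    obtain ⟨b, hb⟩ := Set.nonempty_iff_ne_empty.mpr hc
    obtain ⟨b', hb', hne⟩ : ∃ b' ∈ D.T c, b' ≠ b := by
      by_contra hcon
      push Not at hcon
      exact hc' b (Set.eq_singleton_iff_unique_mem.mpr ⟨hb, hcon⟩)
    have hm : D.cs.simple b * D.cs.simple b' ∈ WT D.cs (D.T c) :=
      mul_mem (simple_mem_WT D.cs hb) (simple_mem_WT D.cs hb')
    have hl : D.cs.length (D.cs.simple b * D.cs.simple b') = 2 := by
      rcases D.cs.length_mul_simple (D.cs.simple b) b' with h | h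
      · rw [h, D.cs.length_simple]
      · exfalso
        rw [D.cs.length_simple] at h
        have h0 : D.cs.length (D.cs.simple b * D.cs.simple b') = 0 := by omega
        rw [D.cs.length_eq_zero_iff] at h0
        apply hne
        apply simple_injective D.cs
        have := congrArg (fun w => D.cs.simple b * w) h0
        simpa using this
    set q := D.wt (D.cs.simple b * D.cs.simple b') with hq
    have hqp : 0 < q := D.wt_pos _
    have hub : Tendsto (fun z : ℝ => q * z⁻¹) atTop (𝓝 0) := by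
      have := (tendsto_inv_atTop_zero (𝕜 := ℝ)).const_mul q
      simpa using this
    refine squeeze_zero' ?_ ?_ hub
    · filter_upwards [eventually_gt_atTop 0] with z hz
      exact mul_nonneg hz.le (inv_nonneg.mpr (D.gp_pos hz c).le)
    · filter_upwards [eventually_gt_atTop 0] with z hz
      have h := D.gp_ge hz c hm
      rw [hl, ← hq] at h
      have h3 : 0 < q⁻¹ * z ^ 2 := by positivity
      calc z * ((D.gp c).eval z)⁻¹ ≤ z * (q⁻¹ * z ^ 2)⁻¹ :=
            mul_le_mul_of_nonneg_left (inv_anti₀ h3 h) hz.le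
        _ = q * z⁻¹ := by field_simp
  have lim3 : ∀ c b, D.T c = {b} →
      Tendsto (fun z : ℝ => z * ((D.gp c).eval z)⁻¹) atTop (𝓝 (D.pr b)) := by
    intro c b hb
    have hp := D.pr_pos b
    have e : ∀ᶠ z : ℝ in atTop, (z⁻¹ + (D.pr b)⁻¹)⁻¹ = z * ((D.gp c).eval z)⁻¹ := by
      filter_upwards [eventually_gt_atTop 0] with z hz
      rw [D.gp_singleton c hb]
      field_simp
    apply Tendsto.congr' e
    have h1 : Tendsto (fun z : ℝ => z⁻¹ + (D.pr b)⁻¹) atTop (𝓝 (0 + (D.pr b)⁻¹)) :=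
      tendsto_inv_atTop_zero.add_const _
    rw [zero_add] at h1
    have h2 := h1.inv₀ (inv_ne_zero hp.ne')
    rwa [inv_inv] at h2
  -- sum over the empty labels
  set A : ℝ := ∑ c ∈ Finset.univ.filter (fun c => D.T c = ∅), (-1 : ℝ) ^ E.deg c with hA
  have split : ∀ z : ℝ, 0 < z → A + ∑ c ∈ Finset.univ.filter (fun c => ¬ D.T c = ∅),
      (-1 : ℝ) ^ E.deg c * ((D.gp c).eval z)⁻¹ = 0 := by
    intro z hz
    rw [← key z hz, ← Finset.sum_filter_add_sum_filter_not Finset.univ (fun c => D.T c = ∅)]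
    congr 1
    rw [hA]
    apply Finset.sum_congr rfl
    intro c hc
    rw [Finset.mem_filter] at hc
    rw [D.gp_empty c hc.2]
    simp
  have hA0 : A = 0 := by
    have t1 : Tendsto (fun z : ℝ => A + ∑ c ∈ Finset.univ.filter (fun c => ¬ D.T c = ∅),
      (-1 : ℝ) ^ E.deg c * ((D.gp c).eval z)⁻¹) atTop
        (𝓝 (A + ∑ c ∈ Finset.univ.filter (fun c => ¬ D.T c = ∅), (-1 : ℝ) ^ E.deg c * 0)) := by
      apply tendsto_const_nhds.add
      apply tendsto_finsetSum
      intro c hc
      rw [Finset.mem_filter] at hc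
      exact (lim1 c hc.2).const_mul _
    simp only [mul_zero, Finset.sum_const_zero, add_zero] at t1
    have t2 : Tendsto (fun z : ℝ => A + ∑ c ∈ Finset.univ.filter (fun c => ¬ D.T c = ∅),
      (-1 : ℝ) ^ E.deg c * ((D.gp c).eval z)⁻¹) atTop (𝓝 0) := by
      refine Tendsto.congr' ?_ tendsto_const_nhds
      filter_upwards [eventually_gt_atTop 0] with z hz
      rw [split z hz]
    exact tendsto_nhds_unique t1 t2
  -- second limit
  set w : ι → ℝ := fun c => if h : ∃ b, D.T c = {b} then D.pr h.choose else 0 with hw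
  have hw1 : ∀ c b, D.T c = {b} → w c = D.pr b := by
    intro c b hb
    have hex : ∃ b, D.T c = {b} := ⟨b, hb⟩
    have : w c = D.pr hex.choose := by simp only [hw]; rw [dif_pos hex]
    rw [this]
    congr 1
    exact (Set.singleton_injective (hb.symm.trans hex.choose_spec)).symm
  have t1 : Tendsto (fun z : ℝ => z * ∑ c ∈ Finset.univ.filter (fun c => ¬ D.T c = ∅),
      (-1 : ℝ) ^ E.deg c * ((D.gp c).eval z)⁻¹) atTop
      (𝓝 (∑ c ∈ Finset.univ.filter (fun c => ¬ D.T c = ∅), (-1 : ℝ) ^ E.deg c * w c)) := by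
    simp_rw [Finset.mul_sum]
    apply tendsto_finsetSum
    intro c hc
    rw [Finset.mem_filter] at hc
    by_cases hex : ∃ b, D.T c = {b}
    · obtain ⟨b, hb⟩ := hex
      have := (lim3 c b hb).const_mul ((-1 : ℝ) ^ E.deg c)
      rw [hw1 c b hb]
      refine this.congr ?_
      intro z
      ring
    · have h0 : w c = 0 := by simp only [hw]; rw [dif_neg hex]
      push Not at hex
      have := (lim2 c hc.2 hex).const_mul ((-1 : ℝ) ^ E.deg c)
      rw [h0]
      refine this.congr ?_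
      intro z
      ring
  have t2 : Tendsto (fun z : ℝ => z * ∑ c ∈ Finset.univ.filter (fun c => ¬ D.T c = ∅),
      (-1 : ℝ) ^ E.deg c * ((D.gp c).eval z)⁻¹) atTop (𝓝 0) := by
    refine Tendsto.congr' ?_ tendsto_const_nhds
    filter_upwards [eventually_gt_atTop 0] with z hz
    have := split z hz
    rw [hA0, zero_add] at this
    rw [this, mul_zero]
  have hfin := tendsto_nhds_unique t1 t2
  have hneg : ∑ c ∈ Finset.univ.filter (fun c => ¬ D.T c = ∅), (-1 : ℝ) ^ E.deg c * w c < 0 := by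
    have hle : ∀ c, (-1 : ℝ) ^ E.deg c * w c ≤ 0 := by
      intro c
      by_cases hex : ∃ b, D.T c = {b}
      · obtain ⟨b, hb⟩ := hex
        rw [hw1 c b hb, h1 c b hb]
        have := D.pr_pos b
        linarith
      · have h0 : w c = 0 := by simp only [hw]; rw [dif_neg hex]
        rw [h0, mul_zero]
    obtain ⟨c, b, hb⟩ := h2
    apply Finset.sum_neg' (fun c _ => hle c)
    refine ⟨c, ?_, ?_⟩
    · simp [hb]
    · rw [hw1 c b hb, h1 c b hb]
      have := D.pr_pos b
      linarith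
  linarith

/-- The analytic core. -/
theorem core
    (hex : ∀ y, D.Pr 1 y = y → D.Pr 1 (E.dop.adjoint y) = 0 →
      ∃ z, D.Pr 1 (E.dop.adjoint z) = y)
    (h1 : ∀ c b, D.T c = {b} → E.deg c = 1) (h2 : ∃ c b, D.T c = {b}) : False := by
  apply E.contra _ h1 h2
  have hU := E.Lop_isUnit one_pos hex
  filter_upwards [E.eventually_isUnit one_pos hU, lt_mem_nhds one_pos] with t ht1 ht2
  exact E.supertrace ht2 ht1

end CData

end Pool.Agent.Lib.P9f173d
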