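import Mathlib

/-!
The boundary operator on chains of lists.
-/

namespace Pool.Agent.Lib.P9f173d

open LinearMap

section lists

variable {α : Type*}

/-- Prefixing an element. -/
noncomputable def consL (T : α) : (List α →₀ ℂ) →ₗ[ℂ] (List α →₀ ℂ) :=
  Finsupp.lmapDomain ℂ ℂ (List.cons T)

theorem consL_single (T : α) (l : List α) (c : ℂ) :
    consL T (Finsupp.single l c) = Finsupp.single (T :: l) c := by
  simp [consL]

/-- The boundary of a list. -/
noncomputable def bl : List α → (List α →₀ ℂ)
  | [] => 0
  | T :: l => Finsupp.single l 1 - consL T (bl l)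

/-- The boundary operator. -/
noncomputable def bdl : (List α →₀ ℂ) →ₗ[ℂ] (List α →₀ ℂ) := Finsupp.linearCombination ℂ bl

theorem bdl_single (l : List α) (c : ℂ) : bdl (Finsupp.single l c) = c • bl l := by
  simp [bdl]

theorem bdl_cons (T : α) (x : List α →₀ ℂ) : bdl (consL T x) = x - consL T (bdl x) := by
  have : bdl ∘ₗ consL T = LinearMap.id - consL T ∘ₗ bdl := by
    apply Finsupp.lhom_ext'
    intro l
    ext1
    simp only [coe_comp, Function.comp_apply, Finsupp.lsingle_apply, LinearMap.sub_apply,
      LinearMap.id_apply]
    rw [consL_single, bdl_single, bdl_single, one_smul, one_smul, bl]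
  exact congrArg (fun K => K x) this

theorem bdl_bl (l : List α) : bdl (bl l) = 0 := by
  induction l with
  | nil => rw [bl, map_zero]
  | cons T l ih =>
    rw [bl, map_sub, bdl_single, one_smul, bdl_cons, ih, map_zero, sub_zero, sub_self]

theorem bdl_bdl (x : List α →₀ ℂ) : bdl (bdl x) = 0 := by
  have : (bdl ∘ₗ bdl : (List α →₀ ℂ) →ₗ[ℂ] (List α →₀ ℂ)) = 0 := by
    apply Finsupp.lhom_ext'
    intro l
    ext1
    simp only [coe_comp, Function.comp_apply, Finsupp.lsingle_apply, LinearMap.zero_apply]
    rw [bdl_single, one_smul, bdl_bl]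
  exact congrArg (fun K => K x) this

theorem bl_face (l l' : List α) (h : bl l l' ≠ 0) : l'.Sublist l ∧ l.length = l'.length + 1 := by
  classical
  induction l generalizing l' with
  | nil => simp [bl] at h
  | cons T l ih =>
    rw [bl, Finsupp.sub_apply] at h
    by_cases h1 : l' = l
    · subst h1
      exact ⟨List.sublist_cons_self _ _, rfl⟩
    · rw [Finsupp.single_eq_of_ne h1, zero_sub, neg_ne_zero] at h
      have h2 : l' ∈ (Finsupp.mapDomain (List.cons T) (bl l)).support := by
        rw [Finsupp.mem_support_iff]
        exact h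
      have h3 := Finsupp.mapDomain_support h2
      rw [Finset.mem_image] at h3
      obtain ⟨l'', h4, rfl⟩ := h3
      rw [Finsupp.mem_support_iff] at h4
      obtain ⟨h5, h6⟩ := ih l'' h4
      exact ⟨h5.cons_cons T, by simp [h6]⟩

theorem bl_map {β : Type*} (σ : α → β) (l : List α) :
    bl (l.map σ) = Finsupp.lmapDomain ℂ ℂ (List.map σ) (bl l) := by
  induction l with
  | nil => simp [bl]
  | cons T l ih =>
    rw [List.map_cons, bl, bl, ih, map_sub]
    congr 1
    · simp
    · have : consL (σ T) ∘ₗ Finsupp.lmapDomain ℂ ℂ (List.map σ) =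
          Finsupp.lmapDomain ℂ ℂ (List.map σ) ∘ₗ consL T := by
        apply Finsupp.lhom_ext'
        intro l
        ext1
        simp [consL_single]
      exact congrArg (fun K => K (bl l)) this

open Classical in
/-- The contraction onto the apex `S`. -/
noncomputable def ctr (S : α) : (List α →₀ ℂ) →ₗ[ℂ] (List α →₀ ℂ) :=
  Finsupp.linearCombination ℂ (fun l => if l.head? = some S then 0 else Finsupp.single (S :: l) 1)

open Classical in
theorem ctr_single (S : α) (l : List α) (c : ℂ) : ctr S (Finsupp.single l c) =
    if l.head? = some S then 0 else Finsupp.single (S :: l) c := by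
  unfold ctr
  rw [Finsupp.linearCombination_single]
  split_ifs <;> simp

theorem ctr_of_not_mem {S : α} {x : List α →₀ ℂ} (h : ∀ l, x l ≠ 0 → S ∉ l) :
    ctr S x = consL S x := by
  classical
  rw [← Finsupp.sum_single x, Finsupp.sum, map_sum, map_sum]
  apply Finset.sum_congr rfl
  intro l hl
  rw [ctr_single, consL_single, if_neg]
  intro h2
  have := h l (by simpa using hl)
  apply this
  exact List.mem_of_mem_head? h2

theorem ctr_cons {S : α} (x : List α →₀ ℂ) : ctr S (consL S x) = 0 := by
  classical
  have : ctr S ∘ₗ consL S = 0 := by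
    apply Finsupp.lhom_ext'
    intro l
    ext1
    simp [consL_single, ctr_single]
  exact congrArg (fun K => K x) this

/-- The contraction identity, for lists in which `S` can occur only as the head. -/
theorem ctr_bl {S : α} {l : List α} (h : S ∉ l.tail) :
    bdl (ctr S (Finsupp.single l 1)) + ctr S (bl l) = Finsupp.single l 1 := by
  classical
  by_cases hh : l.head? = some S
  · rw [ctr_single, if_pos hh, map_zero, zero_add]
    rcases l with _ | ⟨T, l⟩
    · simp at hh
    · have hT : T = S := by simpa using hh
      subst hT
      have h' : T ∉ l := h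
      rw [bl, map_sub, ctr_cons, sub_zero, ctr_single, if_neg]
      intro h2
      exact h' (List.mem_of_mem_head? h2)
  · rw [ctr_single, if_neg hh, ← consL_single, bdl_cons, bdl_single, one_smul]
    have h3 : ctr S (bl l) = consL S (bl l) := by
      apply ctr_of_not_mem
      intro l' hl' hS
      have := (bl_face l l' hl').1.subset hS
      rcases l with _ | ⟨T, l⟩
      · simp at this
      · have h4 : S ∉ l := h
        rcases List.mem_cons.mp this with rfl | h5
        · exact hh rfl
        · exact h4 h5
    rw [h3]
    abel

end lists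

end Pool.Agent.Lib.P9f173d
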