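import Mathlib

/-!
Definitions for the statements on homology with coefficients in reduced group algebras.
-/

namespace Pool.Agent.Lib.P9f173d

/-- The sum of the coefficients of an element of the integral group ring. -/
noncomputable def coeffSum {Γ : Type*} (x : MonoidAlgebra ℤ Γ) : ℤ := x.coeff.sum fun _ n => n

/-- A finite free resolution of the trivial module `ℤ` over the group ring `ℤ[Γ]`, given by
a finite set of cells with dimensions and a boundary matrix.  The chain module is the free left
`ℤ[Γ]`-module on the cells; the boundary sends the cell `c` to the sum over the cells `c'` of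
`bd c c' • c'`; the augmentation sends the cell `c` to the integer `aug c`.  The cellular chain
complex of the universal cover of a finite aspherical complex with fundamental group `Γ` is of
this form. -/
structure FinRes (Γ : Type*) [Group Γ] where
  /-- the cells -/
  cell : Type
  [fin : Fintype cell]
  /-- the dimension of a cell -/
  dim : cell → ℕ
  /-- the boundary matrix -/
  bd : cell → cell → MonoidAlgebra ℤ Γ
  /-- the augmentation -/
  aug : cell → ℤ
  bd_dim : ∀ c c', bd c c' ≠ 0 → dim c = dim c' + 1
  aug_dim : ∀ c, aug c ≠ 0 → dim c = 0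
  bd_bd : ∀ c c'', ∑ c', bd c c' * bd c' c'' = 0
  aug_bd : ∀ c, ∑ c', coeffSum (bd c c') * aug c' = 0
  aug_surj : ∃ x : cell → ℤ, ∑ c, x c * aug c = 1
  exact : ∀ x : cell → MonoidAlgebra ℤ Γ, (∀ c', ∑ c, x c * bd c c' = 0) →
    ∑ c, coeffSum (x c) * aug c = 0 →
      ∃ y : cell → MonoidAlgebra ℤ Γ, ∀ c', ∑ c, y c * bd c c' = x c'

attribute [instance] FinRes.fin

section

variable {Γ : Type*} [Group Γ] {A : Type*} [NormedRing A] [NormedAlgebra ℂ A]

/-- The closure of the image of the group algebra `ℂ[Γ]` under a representation of `Γ` in a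
normed algebra.  For the left regular representation on `ℓ²(Γ)`, with the operator norm, this is
the reduced group algebra of `Γ`. -/
def redAlg (lam : Γ →* A) : Set A := closure (Set.range (MonoidAlgebra.lift ℂ A Γ lam))

/-- The complex with coefficients in the closed algebra has nonzero homology in degree `i`:
there is a cycle of degree `i` that is not the boundary of a chain of degree `i + 1`. -/
def HomologyNonzero (R : FinRes Γ) (lam : Γ →* A) (i : ℕ) : Prop :=
  ∃ x : R.cell → A, (∀ c, x c ∈ redAlg lam) ∧ (∀ c, R.dim c ≠ i → x c = 0) ∧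
    (∀ c', ∑ c, x c * MonoidAlgebra.lift ℤ A Γ lam (R.bd c c') = 0) ∧
    ¬ ∃ y : R.cell → A, (∀ c, y c ∈ redAlg lam) ∧ (∀ c, R.dim c ≠ i + 1 → y c = 0) ∧
      ∀ c', ∑ c, y c * MonoidAlgebra.lift ℤ A Γ lam (R.bd c c') = x c'

end

end Pool.Agent.Lib.P9f173d
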