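import Pool.Agent.Lib.P9f173d.Hecke2
import Pool.Agent.Lib.P9f173d.Hilb

/-!
The deformed Hilbert complexes and the vanishing of the supertrace.
-/

namespace Pool.Agent.Lib.P9f173d

open CoxeterSystem ContinuousLinearMap

/-- A labelled boundary matrix. -/
structure CData {B W G ι : Type*} [Group W] [Group G] [MulAction G B] [Fintype ι]
    (D : HData B W G ι) where
  /-- degrees of the cells -/
  deg : ι → ℕ
  /-- incidence coefficients -/
  coef : ι → ι → MonoidAlgebra ℂ G
  label : ∀ c c' g, (coef c c').coeff g ≠ 0 → ∀ b ∈ D.T c', g • b ∈ D.T c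
  deg_coef : ∀ c c', coef c c' ≠ 0 → deg c = deg c' + 1
  sq : ∀ c c'', ∑ c', coef c c' * coef c' c'' = 0

namespace CData

variable {B W G ι : Type*} [Group W] [Group G] [MulAction G B] [Fintype ι] [DecidableEq ι]
  {D : HData B W G ι} (E : CData D)

open SemidirectProduct (inl inr)

/-- Elementary right translations. -/
def rtr (D : HData B W G ι) (c c' : ι) (g : G) : (D.X × ι) ≃. (D.X × ι) where
  toFun p := if p.2 = c' then some (p.1 * inr g⁻¹, c) else none
  invFun p := if p.2 = c then some (p.1 * inr g, c') else none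
  inv := by
    rintro ⟨x, c1⟩ ⟨y, c2⟩
    constructor
    · intro h
      split_ifs at h with h1
      · simp only [Option.some.injEq, Prod.mk.injEq] at h
        obtain ⟨rfl, rfl⟩ := h
        simpa [mul_assoc] using h1.symm
    · intro h
      split_ifs at h with h1
      · simp only [Option.some.injEq, Prod.mk.injEq] at h
        obtain ⟨rfl, rfl⟩ := h
        simpa [mul_assoc] using h1.symm

/-- The boundary operator. -/
noncomputable def dop : L2 (D.X × ι) →L[ℂ] L2 (D.X × ι) :=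
  ∑ c, ∑ c', ∑ g ∈ (E.coef c c').coeff.support, (E.coef c c').coeff g • opP (rtr D c c' g)

theorem dop_apply (f : L2 (D.X × ι)) (x : D.X) (c' : ι) :
    E.dop f (x, c') = ∑ c, ∑ g ∈ (E.coef c c').coeff.support, (E.coef c c').coeff g * f (x * inr g⁻¹, c) := by
  unfold dop
  simp only [sum_apply, HData.coe_sum_lp, smul_apply, lp.coeFn_smul, Pi.smul_apply, smul_eq_mul,
    opP_apply]
  apply Finset.sum_congr rfl
  intro c _
  rw [Finset.sum_eq_single c']
  · apply Finset.sum_congr rfl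
    intro g _
    congr 1
    simp [rtr]
  · intro c'' _ h
    apply Finset.sum_eq_zero
    intro g _
    simp [rtr, Ne.symm h]
  · simp

theorem anti_dop {t : ℝ} {f : L2 (D.X × ι)} (hf : D.Anti t f) : D.Anti t (E.dop f) := by
  intro x c' b hb hl
  rw [dop_apply, dop_apply, Finset.mul_sum]
  apply Finset.sum_congr rfl
  intro c _
  rw [Finset.mul_sum]
  apply Finset.sum_congr rfl
  intro g hg
  have hg' : (E.coef c c').coeff g ≠ 0 := by simpa using hg
  have hb' := E.label c c' g hg' b hb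
  have e1 : (x * inl (D.cs.simple b) * inr g⁻¹ : D.X) =
      x * inr g⁻¹ * inl (D.cs.simple (g • b)) := by
    rw [mul_assoc, mul_assoc]
    congr 1
    ext
    · simp [← D.hφ]
    · simp
  have hrr : D.rr (x * inr g⁻¹) = D.φ g (D.rr x) := by
    rw [D.rr_mul_inr, inv_inv]
  have hl' : D.cs.length (D.rr (x * inr g⁻¹)) <
      D.cs.length (D.rr (x * inr g⁻¹) * D.cs.simple (g • b)) := by
    rw [hrr, ← D.hφ, ← map_mul, D.length_act, D.length_act]
    exact hl
  have h2 := hf (x * inr g⁻¹) c (g • b) hb' hl'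
  rw [e1, h2, HData.th, HData.th, D.pr_act]
  ring

theorem dop_lam (t : ℝ) (b : B) : E.dop ∘L D.lam t b = D.lam t b ∘L E.dop := by
  classical
  ext1 f
  ext ⟨x, c'⟩
  simp only [comp_apply]
  rw [dop_apply, D.lam_apply, dop_apply, dop_apply]
  simp only [D.lam_apply]
  have e1 : ∀ g : G, (x * inr g⁻¹ : D.X).left = x.left := by
    intro g; simp
  simp only [e1, mul_add, Finset.sum_add_distrib]
  congr 1
  · rw [Finset.mul_sum]
    apply Finset.sum_congr rfl
    intro c _
    rw [Finset.mul_sum]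
    apply Finset.sum_congr rfl
    intro g _
    rw [mul_assoc]
    ring
  · split_ifs
    · rw [Finset.mul_sum]
      apply Finset.sum_congr rfl
      intro c _
      rw [Finset.mul_sum]
      apply Finset.sum_congr rfl
      intro g _
      ring
    · simp

theorem dop_lamG (g : G) : E.dop ∘L D.lamG g = D.lamG g ∘L E.dop := by
  ext1 f
  ext ⟨x, c'⟩
  simp only [comp_apply]
  rw [dop_apply, D.lamG_apply, dop_apply]
  simp only [D.lamG_apply, mul_assoc]

theorem dop_dl [DecidableEq W] [DecidableEq G] (x : D.X) (c : ι) : E.dop (dl (x, c)) =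
    ∑ c', ∑ g ∈ (E.coef c c').coeff.support, (E.coef c c').coeff g • dl (x * inr g, c') := by
  unfold dop
  simp only [sum_apply, smul_apply]
  rw [Finset.sum_eq_single c]
  · apply Finset.sum_congr rfl
    intro c' _
    apply Finset.sum_congr rfl
    intro g _
    congr 1
    apply opP_dl
    simp [rtr, mul_assoc]
  · intro c'' _ h
    apply Finset.sum_eq_zero
    intro c' _
    apply Finset.sum_eq_zero
    intro g _
    have : opP (rtr D c'' c' g) (dl (x, c)) = 0 := by
      ext ⟨y, c3⟩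
      rw [opP_apply]
      by_cases h3 : c3 = c'
      · simp [rtr, h3, dl_apply, h]
      · simp [rtr, h3]
    rw [this, smul_zero]
  · simp

/-- Linear extension of `g ↦ δ_{(x g, c)}`. -/
noncomputable def Phi [DecidableEq W] [DecidableEq G] (x : D.X) (c : ι) (a : MonoidAlgebra ℂ G) :
    L2 (D.X × ι) :=
  Finsupp.linearCombination ℂ (fun g => (dl (x * inr g, c) : L2 (D.X × ι))) a.coeff

section

variable [DecidableEq W] [DecidableEq G]

theorem Phi_zero (x : D.X) (c : ι) : Phi (D := D) x c 0 = 0 := by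
  simp [Phi]

theorem Phi_add (x : D.X) (c : ι) (a b : MonoidAlgebra ℂ G) :
    Phi (D := D) x c (a + b) = Phi x c a + Phi x c b := by
  simp [Phi]

theorem Phi_sum {α : Type*} (s : Finset α) (x : D.X) (c : ι) (f : α → MonoidAlgebra ℂ G) :
    Phi (D := D) x c (∑ i ∈ s, f i) = ∑ i ∈ s, Phi x c (f i) := by
  classical
  induction s using Finset.induction_on with
  | empty => simp [Phi_zero]
  | insert a s ha ih => rw [Finset.sum_insert ha, Finset.sum_insert ha, Phi_add, ih]

theorem Phi_single (x : D.X) (c : ι) (g : G) (r : ℂ) :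
    Phi (D := D) x c (MonoidAlgebra.single g r) = r • dl (x * inr g, c) := by
  simp [Phi]

theorem Phi_single_mul (x : D.X) (c : ι) (g : G) (r : ℂ) (b : MonoidAlgebra ℂ G) :
    Phi (D := D) x c (MonoidAlgebra.single g r * b) = r • Phi (x * inr g) c b := by
  induction b using MonoidAlgebra.induction_linear with
  | zero => simp [Phi_zero]
  | add a b ha hb => rw [mul_add, Phi_add, Phi_add, ha, hb, smul_add]
  | single h s =>
    rw [MonoidAlgebra.single_mul_single, Phi_single, Phi_single, smul_smul, map_mul, mul_assoc]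

theorem dop_dl' (x : D.X) (c : ι) : E.dop (dl (x, c)) = ∑ c', Phi x c' (E.coef c c') := by
  rw [dop_dl]
  rfl

theorem dop_Phi (x : D.X) (c : ι) (a : MonoidAlgebra ℂ G) :
    E.dop (Phi x c a) = ∑ c', Phi x c' (a * E.coef c c') := by
  induction a using MonoidAlgebra.induction_linear with
  | zero => simp [Phi_zero]
  | add a b ha hb =>
    rw [Phi_add, map_add, ha, hb, ← Finset.sum_add_distrib]
    apply Finset.sum_congr rfl
    intro c' _
    rw [add_mul, Phi_add]
  | single g r =>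
    rw [Phi_single, map_smul, dop_dl', Finset.smul_sum]
    apply Finset.sum_congr rfl
    intro c' _
    rw [Phi_single_mul]

end

theorem dop_sq : E.dop ∘L E.dop = 0 := by
  classical
  apply clm_ext_dl
  rintro ⟨x, c⟩
  rw [comp_apply, dop_dl', map_sum]
  simp_rw [dop_Phi]
  rw [Finset.sum_comm]
  simp only [zero_apply]
  apply Finset.sum_eq_zero
  intro c'' _
  rw [← Phi_sum, E.sq, Phi_zero]

/-- The grading operator. -/
noncomputable def om : L2 (D.X × ι) →L[ℂ] L2 (D.X × ι) :=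
  ∑ c, ((-1 : ℂ) ^ E.deg c) • opP (PEquiv.ofSet {p : D.X × ι | p.2 = c})

theorem om_apply (f : L2 (D.X × ι)) (x : D.X) (c : ι) :
    E.om f (x, c) = (-1 : ℂ) ^ E.deg c * f (x, c) := by
  unfold om
  simp only [sum_apply, HData.coe_sum_lp, smul_apply, lp.coeFn_smul, Pi.smul_apply, smul_eq_mul,
    opP_ofSet_apply, Set.mem_ofPred_eq]
  rw [Finset.sum_eq_single c]
  · simp
  · intro c' _ h
    simp [Ne.symm h]
  · simp

theorem om_om : E.om ∘L E.om = 1 := by
  ext1 f
  ext ⟨x, c⟩
  simp only [comp_apply, om_apply, one_apply_eq_self]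
  rw [← mul_assoc, ← mul_pow]
  simp

theorem om_Pr (t : ℝ) : E.om ∘L D.Pr t = D.Pr t ∘L E.om := by
  ext1 f
  ext ⟨x, c⟩
  simp only [comp_apply, om_apply, D.Pr_apply, Finset.mul_sum]
  apply Finset.sum_congr rfl
  intro b _
  ring

theorem om_dop : E.om ∘L E.dop = -(E.dop ∘L E.om) := by
  ext1 f
  ext ⟨x, c⟩
  simp only [comp_apply, om_apply, dop_apply, neg_apply, lp.coeFn_neg, Pi.neg_apply]
  rw [Finset.mul_sum, ← Finset.sum_neg_distrib]
  apply Finset.sum_congr rfl
  intro c' _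
  rw [Finset.mul_sum, ← Finset.sum_neg_distrib]
  apply Finset.sum_congr rfl
  intro g hg
  have h0 : E.coef c' c ≠ 0 := by
    rintro h
    rw [h] at hg
    simp at hg
  rw [E.deg_coef c' c h0, pow_succ]
  ring

theorem om_lam (t : ℝ) (b : B) : E.om ∘L D.lam t b = D.lam t b ∘L E.om := by
  ext1 f
  ext ⟨x, c⟩
  simp only [comp_apply, om_apply, D.lam_apply]
  split_ifs <;> ring

theorem om_lamG (g : G) : E.om ∘L D.lamG g = D.lamG g ∘L E.om := by
  ext1 f
  ext ⟨x, c⟩
  simp only [comp_apply, om_apply, D.lamG_apply]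

theorem om_adjoint : E.om.adjoint = E.om := by
  unfold om
  rw [map_sum]
  apply Finset.sum_congr rfl
  intro c _
  rw [LinearIsometryEquiv.map_smulₛₗ, opP_adjoint]
  congr 1
  simp

theorem dop_Pr {t : ℝ} (ht : 0 < t) : D.Pr t ∘L (E.dop ∘L D.Pr t) = E.dop ∘L D.Pr t := by
  ext1 f
  exact D.Pr_of_anti ht (E.anti_dop (D.Pr_anti ht f))

theorem adj_Pr {t : ℝ} (ht : 0 < t) :
    (D.Pr t ∘L E.dop.adjoint) ∘L D.Pr t = D.Pr t ∘L E.dop.adjoint := by
  have h := congrArg ContinuousLinearMap.adjoint (E.dop_Pr ht)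
  rw [adjoint_comp, adjoint_comp, D.Pr_adjoint] at h
  exact h

/-- The coboundary operator on the range of the projection. -/
noncomputable def del (t : ℝ) : L2 (D.X × ι) →L[ℂ] L2 (D.X × ι) := D.Pr t ∘L E.dop.adjoint

theorem Pr_del {t : ℝ} (ht : 0 < t) : D.Pr t ∘L E.del t = E.del t := by
  unfold del
  rw [← comp_assoc, D.Pr_idem ht]

theorem del_Pr {t : ℝ} (ht : 0 < t) : E.del t ∘L D.Pr t = E.del t := E.adj_Pr ht

theorem del_del {t : ℝ} (ht : 0 < t) : E.del t ∘L E.del t = 0 := by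
  have h1 : E.dop.adjoint ∘L E.dop.adjoint = 0 := by
    rw [← adjoint_comp, E.dop_sq, map_zero]
  have h2 : E.del t ∘L E.del t = (E.del t ∘L D.Pr t) ∘L E.dop.adjoint := by
    conv_lhs => rw [del]
    rw [del, comp_assoc, comp_assoc]
    rfl
  rw [h2, E.del_Pr ht, del, comp_assoc, h1, comp_zero]

/-- The Dirac operator. -/
noncomputable def Lop (t : ℝ) : L2 (D.X × ι) →L[ℂ] L2 (D.X × ι) :=
  E.del t + (E.del t).adjoint + (1 - D.Pr t)

theorem Lop_isUnit {t : ℝ} (ht : 0 < t)
    (hex : ∀ y, D.Pr t y = y → D.Pr t (E.dop.adjoint y) = 0 →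
      ∃ z, D.Pr t (E.dop.adjoint z) = y) : IsUnit (E.Lop t) :=
  hodge_isUnit (D.Pr t) (E.del t) (D.Pr_idem ht) (D.Pr_adjoint t) (E.Pr_del ht) (E.del_Pr ht)
    (E.del_del ht) hex

theorem continuousAt_Lop {t : ℝ} (ht : 0 < t) : ContinuousAt (fun t => E.Lop t) t := by
  have h1 : ContinuousAt (fun t => E.del t) t := by
    unfold del
    exact (D.continuousAt_Pr ht).clm_comp continuousAt_const
  have h2 : ContinuousAt (fun t => (E.del t).adjoint) t :=
    (ContinuousLinearMap.adjoint (𝕜 := ℂ)).continuous.continuousAt.comp h1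
  exact (h1.add h2).add (continuousAt_const.sub (D.continuousAt_Pr ht))

theorem eventually_isUnit {t : ℝ} (ht : 0 < t) (h : IsUnit (E.Lop t)) :
    ∀ᶠ s in nhds t, IsUnit (E.Lop s) := by
  have := E.continuousAt_Lop ht
  exact this.eventually (Units.isOpen.mem_nhds h)

theorem adj_lam (t : ℝ) (b : B) : E.dop.adjoint ∘L D.lam t b = D.lam t b ∘L E.dop.adjoint := by
  have h := congrArg ContinuousLinearMap.adjoint (E.dop_lam t b)
  rw [adjoint_comp, adjoint_comp, D.lam_adjoint] at h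
  exact h.symm

theorem adj_lamG (g : G) : E.dop.adjoint ∘L D.lamG g = D.lamG g ∘L E.dop.adjoint := by
  have h := congrArg ContinuousLinearMap.adjoint (E.dop_lamG g⁻¹)
  rw [adjoint_comp, adjoint_comp, D.lamG_adjoint, inv_inv] at h
  exact h.symm

/-- Commuting with an operator. -/
theorem comm_comp {A C T : L2 (D.X × ι) →L[ℂ] L2 (D.X × ι)} (h1 : A ∘L T = T ∘L A)
    (h2 : C ∘L T = T ∘L C) : (A ∘L C) ∘L T = T ∘L (A ∘L C) := by
  rw [comp_assoc, h2, ← comp_assoc, h1, comp_assoc]

theorem Lop_lam {t : ℝ} (ht : 0 < t) (b : B) : E.Lop t ∘L D.lam t b = D.lam t b ∘L E.Lop t := by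
  have h1 : E.del t ∘L D.lam t b = D.lam t b ∘L E.del t :=
    comm_comp (D.Pr_lam ht b) (E.adj_lam t b)
  have h2 : (E.del t).adjoint ∘L D.lam t b = D.lam t b ∘L (E.del t).adjoint := by
    have h := congrArg ContinuousLinearMap.adjoint h1
    rw [adjoint_comp, adjoint_comp, D.lam_adjoint] at h
    exact h.symm
  unfold Lop
  rw [add_comp, add_comp, comp_add, comp_add, h1, h2, sub_comp, comp_sub, D.Pr_lam ht]
  rfl

theorem Lop_lamG {t : ℝ} (ht : 0 < t) (g : G) : E.Lop t ∘L D.lamG g = D.lamG g ∘L E.Lop t := by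
  have h1 : ∀ g, E.del t ∘L D.lamG g = D.lamG g ∘L E.del t := fun g =>
    comm_comp (D.Pr_lamG ht g) (E.adj_lamG g)
  have h2 : (E.del t).adjoint ∘L D.lamG g = D.lamG g ∘L (E.del t).adjoint := by
    have h := congrArg ContinuousLinearMap.adjoint (h1 g⁻¹)
    rw [adjoint_comp, adjoint_comp, D.lamG_adjoint, inv_inv] at h
    exact h.symm
  unfold Lop
  rw [add_comp, add_comp, comp_add, comp_add, h1, h2, sub_comp, comp_sub, D.Pr_lamG ht]
  rfl

omit [Group W] [Group G] [MulAction G B] [Fintype ι] [DecidableEq ι] in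
theorem ring_aux {R : Type*} [Ring R] {P K o : R} (hP : P * P = P) (hKP : K * P = K)
    (hPK : P * K = K) (hoK : o * K = -(K * o)) (hoP : o * P = P * o) :
    (K + (1 - P)) * (o * P) = -((o * P) * (K + (1 - P))) := by
  have h1 : (1 - P) * (o * P) = 0 := by
    rw [hoP, sub_mul, one_mul, ← mul_assoc, hP, sub_self]
  have h2 : (o * P) * (1 - P) = 0 := by
    rw [mul_assoc, mul_sub, mul_one, hP, sub_self, mul_zero]
  rw [add_mul, h1, mul_add, h2, add_zero, add_zero, mul_assoc, hPK, hoK, neg_neg, hoP,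
    ← mul_assoc, hKP]

omit [Group W] [Group G] [MulAction G B] [Fintype ι] [DecidableEq ι] in
theorem ring_aux2 {R : Type*} [Ring R] {Li L X : R} (h1 : Li * L = 1)
    (h2 : L * X = -(X * L)) : X = -((Li * X) * L) := by
  calc X = (Li * L) * X := by rw [h1, one_mul]
    _ = Li * (L * X) := by rw [mul_assoc]
    _ = -((Li * X) * L) := by rw [h2, mul_neg, mul_assoc]

theorem Lop_om {t : ℝ} (ht : 0 < t) :
    E.Lop t ∘L (E.om ∘L D.Pr t) = -((E.om ∘L D.Pr t) ∘L E.Lop t) := by
  have hP := D.Pr_idem (ι := ι) ht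
  have h1 : E.om ∘L E.dop.adjoint = -(E.dop.adjoint ∘L E.om) := by
    have h := congrArg ContinuousLinearMap.adjoint E.om_dop
    rw [adjoint_comp, map_neg, adjoint_comp, E.om_adjoint] at h
    rw [h, neg_neg]
  have h2 : E.om ∘L E.del t = -(E.del t ∘L E.om) := by
    unfold del
    rw [← comp_assoc, E.om_Pr, comp_assoc, h1, comp_neg, comp_assoc]
  have h3 : E.om ∘L (E.del t).adjoint = -((E.del t).adjoint ∘L E.om) := by
    have h := congrArg ContinuousLinearMap.adjoint h2
    rw [adjoint_comp, map_neg, adjoint_comp, E.om_adjoint] at h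
    rw [h, neg_neg]
  have h4 : (E.del t).adjoint ∘L D.Pr t = (E.del t).adjoint := by
    have h := congrArg ContinuousLinearMap.adjoint (E.Pr_del ht)
    rwa [adjoint_comp, D.Pr_adjoint] at h
  have h5 : D.Pr t ∘L (E.del t).adjoint = (E.del t).adjoint := by
    have h := congrArg ContinuousLinearMap.adjoint (E.del_Pr ht)
    rwa [adjoint_comp, D.Pr_adjoint] at h
  have hKP : (E.del t + (E.del t).adjoint) ∘L D.Pr t = E.del t + (E.del t).adjoint := by
    rw [add_comp, E.del_Pr ht, h4]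
  have hPK : D.Pr t ∘L (E.del t + (E.del t).adjoint) = E.del t + (E.del t).adjoint := by
    rw [comp_add, E.Pr_del ht, h5]
  have hom : E.om ∘L (E.del t + (E.del t).adjoint) =
      -((E.del t + (E.del t).adjoint) ∘L E.om) := by
    rw [comp_add, add_comp, h2, h3, neg_add]
  exact ring_aux (R := L2 (D.X × ι) →L[ℂ] L2 (D.X × ι)) hP hKP hPK hom (E.om_Pr t)

theorem supertrace {t : ℝ} (ht : 0 < t) (hU : IsUnit (E.Lop t)) :
    ∑ c, (-1 : ℝ) ^ E.deg c * (D.Sc t c)⁻¹ = 0 := by
  classical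
  obtain ⟨U, hU⟩ := hU
  set X : L2 (D.X × ι) →L[ℂ] L2 (D.X × ι) := E.om ∘L D.Pr t with hX
  set Li : L2 (D.X × ι) →L[ℂ] L2 (D.X × ι) := ((U⁻¹ : (L2 (D.X × ι) →L[ℂ] L2 (D.X × ι))ˣ) :
    L2 (D.X × ι) →L[ℂ] L2 (D.X × ι)) with hLi
  have i1 : Li ∘L E.Lop t = 1 := by rw [hLi, ← hU]; exact U.inv_mul
  have i2 : E.Lop t ∘L Li = 1 := by rw [hLi, ← hU]; exact U.mul_inv
  obtain ⟨Λ, k1, k2, k3⟩ := D.exists_Lam (ι := ι) ht
  have c1 : ∀ x, E.Lop t ∘L Λ x = Λ x ∘L E.Lop t :=
    k3 _ (fun b => E.Lop_lam ht b) (fun g => E.Lop_lamG ht g)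
  have c2 : ∀ x, X ∘L Λ x = Λ x ∘L X := by
    apply k3
    · intro b
      exact comm_comp (E.om_lam t b) (D.Pr_lam ht b)
    · intro g
      exact comm_comp (E.om_lamG g) (D.Pr_lamG ht g)
  have c3 : ∀ x, Li ∘L Λ x = Λ x ∘L Li := by
    intro x
    calc Li ∘L Λ x = (Li ∘L Λ x) ∘L (E.Lop t ∘L Li) := by rw [i2]; rfl
      _ = Li ∘L (Λ x ∘L E.Lop t) ∘L Li := by simp only [comp_assoc]
      _ = Li ∘L (E.Lop t ∘L Λ x) ∘L Li := by rw [c1]
      _ = (Li ∘L E.Lop t) ∘L (Λ x ∘L Li) := by simp only [comp_assoc]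
      _ = Λ x ∘L Li := by rw [i1]; rfl
  have hanti : E.Lop t ∘L X = -(X ∘L E.Lop t) := E.Lop_om ht
  have hXeq : X = -((Li ∘L X) ∘L E.Lop t) :=
    ring_aux2 (R := L2 (D.X × ι) →L[ℂ] L2 (D.X × ι)) i1 hanti
  have htr := trace_comm Λ k1 k2 (Li ∘L X) (E.Lop t) (fun x => comm_comp (c3 x) (c2 x)) c1
  have e1 : ∀ f, (Li ∘L X) (E.Lop t f) = -(X f) := by
    intro f
    have := congrArg (fun T => T f) hXeq
    simp only [neg_apply, comp_apply] at this
    rw [comp_apply, this, neg_neg]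
  have e2 : ∀ f, E.Lop t ((Li ∘L X) f) = X f := by
    intro f
    have : (E.Lop t ∘L Li) (X f) = X f := by rw [i2]; rfl
    exact this
  simp only [e1, e2, inner_neg_right, Finset.sum_neg_distrib] at htr
  have h0 : ∑ c, inner ℂ (dl ((1 : D.X), c)) (X (dl (1, c))) = 0 := by
    have h2 : (2 : ℂ) ≠ 0 := by norm_num
    have : (2 : ℂ) * ∑ c, inner ℂ (dl ((1 : D.X), c)) (X (dl (1, c))) = 0 := by
      linear_combination htr * (-1)
    exact (mul_eq_zero.mp this).resolve_left h2
  have h3 : ∀ c, inner ℂ (dl ((1 : D.X), c)) (X (dl (1, c))) =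
      (((-1 : ℝ) ^ E.deg c * (D.Sc t c)⁻¹ : ℝ) : ℂ) := by
    intro c
    rw [inner_dl_left, hX, comp_apply, om_apply, D.Pr_apply, D.rr_one, pt_one]
    rw [Finset.sum_eq_single 1]
    · simp only [Subgroup.coe_one, inv_one, mul_one, map_one, D.xi_one, dl_apply, if_true]
      push_cast
      ring
    · intro b _ hb
      rw [dl_apply, if_neg, mul_zero]
      intro h
      apply hb
      have h4 := congrArg (fun p : D.X × ι => p.1.left) h
      simp at h4
      exact h4
    · simp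
  simp_rw [h3] at h0
  exact_mod_cast h0

end CData

end Pool.Agent.Lib.P9f173d
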